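import Pool.Agent.Lib.MP_8a3537_gt.K2.Pre

/-!
# The model over the group ring (MP_8a3537_gt, folder K2, section 2 of the paper)
-/

namespace Pool.Agent.Lib.MP8a3537.K2

open MonoidAlgebra

/-- a symmetric normalised 2-cocycle with values `0, 1` in `K`, in inhomogeneous notation -/
structure SymC (K G : Type*) [CommRing K] [Group G] where
  /-- the cocycle -/
  w : G → G → K
  one_w : ∀ g, w 1 g = 0
  w_one : ∀ g, w g 1 = 0
  w_inv : ∀ g, w g g⁻¹ = 0
  cyc : ∀ g h, w g h = w h (g * h)⁻¹
  inv : ∀ g h, w h⁻¹ g⁻¹ = w g h
  cocyc : ∀ g h k, w h k + w (g * h) k + w g (h * k) + w g h = 0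
  idem : ∀ g h, w g h * w g h = w g h

namespace Base

section bil

variable {K X : Type*} [CommRing K]

/-- bilinear extension -/
noncomputable def bil (f : X → X → K) (α β : MonoidAlgebra K X) : K :=
  α.coeff.sum fun u a => β.coeff.sum fun v b => a * b * f u v

variable (f : X → X → K)

theorem bil_add (α β γ : MonoidAlgebra K X) : bil f (α + β) γ = bil f α γ + bil f β γ := by
  classical
  unfold bil
  rw [coeff_add, Finsupp.sum_add_index']
  · intro u; simp [Finsupp.sum]
  · intro u a b
    rw [← Finsupp.sum_add]
    refine Finsupp.sum_congr fun v _ => ?_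
    ring

theorem add_bil (α β γ : MonoidAlgebra K X) : bil f γ (α + β) = bil f γ α + bil f γ β := by
  classical
  unfold bil
  rw [← Finsupp.sum_add]
  refine Finsupp.sum_congr fun u _ => ?_
  rw [coeff_add, Finsupp.sum_add_index']
  · intro v; simp
  · intro v a b; ring

theorem bil_smul (c : K) (α β : MonoidAlgebra K X) : bil f (c • α) β = c * bil f α β := by
  unfold bil
  rw [coeff_smul, Finsupp.sum_smul_index' (by intro u; simp [Finsupp.sum]), Finsupp.mul_sum]
  refine Finsupp.sum_congr fun u _ => ?_
  rw [Finsupp.mul_sum]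
  refine Finsupp.sum_congr fun v _ => ?_
  rw [smul_eq_mul]; ring

theorem smul_bil (c : K) (α β : MonoidAlgebra K X) : bil f α (c • β) = c * bil f α β := by
  unfold bil
  rw [Finsupp.mul_sum]
  refine Finsupp.sum_congr fun u _ => ?_
  rw [coeff_smul, Finsupp.sum_smul_index' (by intro v; simp), Finsupp.mul_sum]
  refine Finsupp.sum_congr fun v _ => ?_
  rw [smul_eq_mul]; ring

theorem bil_single (u v : X) (a b : K) : bil f (single u a) (single v b) = a * b * f u v := by
  unfold bil
  rw [coeff_single, Finsupp.sum_single_index, coeff_single, Finsupp.sum_single_index]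
  · simp
  · simp

theorem bil_zero (β : MonoidAlgebra K X) : bil f 0 β = 0 := by
  have := bil_smul f 0 0 β
  simpa using this

theorem zero_bil (β : MonoidAlgebra K X) : bil f β 0 = 0 := by
  have := smul_bil f 0 β 0
  simpa using this

/-- a relation between bilinear forms is checked on monomials -/
theorem bil_ext {F : MonoidAlgebra K X → MonoidAlgebra K X → K}
    (h1 : ∀ α β γ, F (α + β) γ = F α γ + F β γ) (h2 : ∀ α β γ, F γ (α + β) = F γ α + F γ β)
    (h3 : ∀ u v a b, F (single u a) (single v b) = 0) (α β : MonoidAlgebra K X) : F α β = 0 := by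
  have z1 : ∀ β, F 0 β = 0 := fun β => by have := h1 0 0 β; simpa using this
  have z2 : ∀ β, F β 0 = 0 := fun β => by have := h2 0 0 β; simpa using this
  induction α using MonoidAlgebra.induction_linear with
  | zero => exact z1 _
  | add x y hx hy => rw [h1, hx, hy, add_zero]
  | single u a =>
    induction β using MonoidAlgebra.induction_linear with
    | zero => exact z2 _
    | add x y hx hy => rw [h2, hx, hy, add_zero]
    | single v b => exact h3 u v a b

end bil

section

variable {K G : Type*} [CommRing K] [Group G] (c : SymC K G)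

open Classical in
/-- the pairing on monomials -/
noncomputable def W (u v : G × G) : K :=
  if u.1 * u.2 * v.1 * v.2 = 1 then c.w u.1 (u.2 * v.1) + c.w (u.1 * u.2) v.1 else 0

open Classical in
/-- its half -/
noncomputable def Wh (u v : G × G) : K := if WellOrderingRel u v then W c u v else 0

variable {c} (hK : ∀ x : K, x + x = 0)

theorem W_one_right (u : G × G) (k : G) : W c u (k, 1) = 0 := by
  unfold W
  split_ifs with h
  · have e : u.2 * k = u.1⁻¹ := by
      simp only [mul_one] at h
      rw [mul_assoc] at h
      exact eq_inv_of_mul_eq_one_right h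
    have e2 : k = (u.1 * u.2)⁻¹ := by
      simp only [mul_one] at h
      exact eq_inv_of_mul_eq_one_right h
    simp only
    rw [e, c.w_inv, e2, c.w_inv, add_zero]
  · rfl

include hK in
theorem W_one_left (k : G) (v : G × G) : W c (k, 1) v = 0 := by
  unfold W
  split_ifs
  · simp [hK]
  · rfl

include hK in
theorem W_comm (u v : G × G) : W c u v = W c v u := by
  unfold W
  by_cases h : u.1 * u.2 * v.1 * v.2 = 1
  · have h2 : v.1 * v.2 * u.1 * u.2 = 1 := by
      have h3 : v.1 * v.2 = (u.1 * u.2)⁻¹ := by
        apply eq_inv_of_mul_eq_one_right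
        rw [← h]; group
      rw [mul_assoc, h3]; group
    rw [if_pos h, if_pos h2]
    -- the two words of `v`
    have e1 : c.w v.1 (v.2 * u.1) = c.w u.2 v.1 := by
      rw [c.cyc, c.cyc]
      have h3 : v.1 * (v.2 * u.1) = u.2⁻¹ := by
        apply eq_inv_of_mul_eq_one_left
        rw [← h2]; group
      rw [h3, inv_inv]
      congr 1
      have h4 : v.2 * u.1 = v.1⁻¹ * u.2⁻¹ := by rw [← h3]; group
      rw [h4]; group
    have e2 : c.w (v.1 * v.2) u.1 = c.w u.1 u.2 := by
      rw [c.cyc]
      congr 1
      apply inv_eq_of_mul_eq_one_right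
      rw [← h2]
    rw [e1, e2]
    have h5 := c.cocyc u.1 u.2 v.1
    have h6 := hK (c.w u.2 v.1)
    have h7 := hK (c.w u.1 u.2)
    linear_combination h5 - h6 - h7
  · have h2 : ¬ v.1 * v.2 * u.1 * u.2 = 1 := by
      intro h2
      apply h
      have h3 : u.1 * u.2 = (v.1 * v.2)⁻¹ := by
        apply eq_inv_of_mul_eq_one_right
        rw [← h2]; group
      rw [mul_assoc, h3]; group
    rw [if_neg h, if_neg h2]

variable (hG : ∀ g : G, g * g = 1 → g = 1)

include hG in
theorem W_self (u : G × G) : W c u u = 0 := by
  unfold W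
  split_ifs with h
  · have h1 : u.1 * u.2 = 1 := by
      apply hG
      rw [← h]; group
    have h2 : u.2 = u.1⁻¹ := eq_inv_of_mul_eq_one_right h1
    rw [h1, h2, c.one_w, inv_mul_cancel, c.w_one, add_zero]
  · rfl

include hK hG in
theorem Wh_add (u v : G × G) : Wh c u v + Wh c v u = W c u v := by
  unfold Wh
  rcases trichotomous_of WellOrderingRel u v with h | h | h
  · rw [if_pos h, if_neg (fun h' => asymm_of WellOrderingRel h h'), add_zero]
  · subst h
    rw [W_self hG]; simp
  · rw [if_neg (fun h' => asymm_of WellOrderingRel h h'), if_pos h, zero_add, W_comm hK]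

theorem Wh_self (u : G × G) : Wh c u u = 0 := by
  unfold Wh
  rw [if_neg (fun h => asymm_of WellOrderingRel h h)]

end

/-! ### The maps -/

section maps

variable (K G : Type*) [CommRing K] [Group G]

/-- `g ↦ (g, 1)` -/
noncomputable def i1 : MonoidAlgebra K G →ₐ[K] MonoidAlgebra K (G × G) := mapDomainAlgHom K K (MonoidHom.inl G G)

/-- `g ↦ (1, g)` -/
noncomputable def i2 : MonoidAlgebra K G →ₐ[K] MonoidAlgebra K (G × G) := mapDomainAlgHom K K (MonoidHom.inr G G)

/-- the product -/
noncomputable def m : MonoidAlgebra K (G × G) →ₗ[K] MonoidAlgebra K G where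
  toFun := mapDomain (fun p => p.1 * p.2)
  map_add' := mapDomain_add _
  map_smul' c x := mapDomain_smul _ c x

/-- the involution of `K[G]` -/
noncomputable def t : MonoidAlgebra K G →ₗ[K] MonoidAlgebra K G where
  toFun := mapDomain (fun g => g⁻¹)
  map_add' := mapDomain_add _
  map_smul' c x := mapDomain_smul _ c x

/-- the involution of `K[G × G]` -/
noncomputable def s : MonoidAlgebra K (G × G) →ₗ[K] MonoidAlgebra K (G × G) where
  toFun := mapDomain (fun p => (p.2⁻¹, p.1⁻¹))
  map_add' := mapDomain_add _
  map_smul' c x := mapDomain_smul _ c x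

variable {K G}

@[simp] theorem i1_single (g : G) (a : K) : i1 K G (single g a) = single (g, 1) a := by
  simp [i1]

@[simp] theorem i2_single (g : G) (a : K) : i2 K G (single g a) = single (1, g) a := by
  simp [i2]

@[simp] theorem m_single (p : G × G) (a : K) : m K G (single p a) = single (p.1 * p.2) a :=
  mapDomain_single

@[simp] theorem t_single (g : G) (a : K) : t K G (single g a) = single g⁻¹ a :=
  mapDomain_single

@[simp] theorem s_single (p : G × G) (a : K) : s K G (single p a) = single (p.2⁻¹, p.1⁻¹) a :=
  mapDomain_single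

/-- additive relations are checked on monomials -/
theorem lin_ext {X M : Type*} [AddCommMonoid M] {F F' : MonoidAlgebra K X → M} (h1 : ∀ α β, F (α + β) = F α + F β)
    (h1' : ∀ α β, F' (α + β) = F' α + F' β) (h0 : F 0 = F' 0)
    (h2 : ∀ u a, F (single u a) = F' (single u a)) (α : MonoidAlgebra K X) : F α = F' α := by
  induction α using MonoidAlgebra.induction_linear with
  | zero => exact h0
  | add x y hx hy => rw [h1, h1', hx, hy]
  | single u a => exact h2 u a

theorem m_i1 (b : MonoidAlgebra K G) : m K G (i1 K G b) = b := by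
  induction b using MonoidAlgebra.induction_linear with
  | zero => simp
  | add x y hx hy => rw [map_add, map_add, hx, hy]
  | single u a => simp

theorem m_i2 (b : MonoidAlgebra K G) : m K G (i2 K G b) = b := by
  induction b using MonoidAlgebra.induction_linear with
  | zero => simp
  | add x y hx hy => rw [map_add, map_add, hx, hy]
  | single u a => simp

theorem m_l (b : MonoidAlgebra K G) (α : MonoidAlgebra K (G × G)) : m K G (i1 K G b * α) = b * m K G α := by
  induction b using MonoidAlgebra.induction_linear with
  | zero => simp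
  | add x y hx hy => rw [map_add, add_mul, map_add, hx, hy, add_mul]
  | single g a =>
    induction α using MonoidAlgebra.induction_linear with
    | zero => simp
    | add x y hx hy => rw [mul_add, map_add, hx, hy, map_add, mul_add]
    | single p b => simp [single_mul_single, mul_assoc]

theorem m_r (α : MonoidAlgebra K (G × G)) (b : MonoidAlgebra K G) : m K G (α * i2 K G b) = m K G α * b := by
  induction b using MonoidAlgebra.induction_linear with
  | zero => simp
  | add x y hx hy => rw [map_add, mul_add, map_add, hx, hy, mul_add]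
  | single g a =>
    induction α using MonoidAlgebra.induction_linear with
    | zero => simp
    | add x y hx hy => rw [add_mul, map_add, hx, hy, map_add, add_mul]
    | single p b => simp [single_mul_single, mul_assoc]

theorem t_mul (x y : MonoidAlgebra K G) : t K G (x * y) = t K G y * t K G x := by
  induction x using MonoidAlgebra.induction_linear with
  | zero => simp
  | add x y hx hy => rw [map_add, add_mul, map_add, hx, hy, mul_add]
  | single g a =>
    induction y using MonoidAlgebra.induction_linear with
    | zero => simp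
    | add x y hx hy => rw [mul_add, map_add, hx, hy, map_add, add_mul]
    | single p b => simp [single_mul_single, mul_comm]

theorem t_t (x : MonoidAlgebra K G) : t K G (t K G x) = x := by
  induction x using MonoidAlgebra.induction_linear with
  | zero => simp
  | add x y hx hy => rw [map_add, map_add, hx, hy]
  | single g a => simp

theorem s_s (x : MonoidAlgebra K (G × G)) : s K G (s K G x) = x := by
  induction x using MonoidAlgebra.induction_linear with
  | zero => simp
  | add x y hx hy => rw [map_add, map_add, hx, hy]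
  | single g a => simp

theorem m_s (x : MonoidAlgebra K (G × G)) : m K G (s K G x) = t K G (m K G x) := by
  induction x using MonoidAlgebra.induction_linear with
  | zero => simp
  | add x y hx hy => simp only [map_add, hx, hy]
  | single g a => simp

theorem s_i1 (x : MonoidAlgebra K G) : s K G (i1 K G x) = i2 K G (t K G x) := by
  induction x using MonoidAlgebra.induction_linear with
  | zero => simp
  | add x y hx hy => simp only [map_add, hx, hy]
  | single g a => simp

theorem s_i2 (x : MonoidAlgebra K G) : s K G (i2 K G x) = i1 K G (t K G x) := by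
  induction x using MonoidAlgebra.induction_linear with
  | zero => simp
  | add x y hx hy => simp only [map_add, hx, hy]
  | single g a => simp

theorem s_mul (x y : MonoidAlgebra K (G × G)) : s K G (x * y) = s K G y * s K G x := by
  induction x using MonoidAlgebra.induction_linear with
  | zero => simp
  | add x y hx hy => rw [map_add, add_mul, map_add, hx, hy, mul_add]
  | single g a =>
    induction y using MonoidAlgebra.induction_linear with
    | zero => simp
    | add x y hx hy => rw [mul_add, map_add, hx, hy, map_add, add_mul]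
    | single p b => simp [single_mul_single, mul_comm]

end maps

/-! ### Reduction to generators of the bimodule -/

section ker

variable {K G : Type*} [CommRing K] [Group G]

theorem add_self_of {X : Type*} (hK : ∀ x : K, x + x = 0) (α : MonoidAlgebra K X) : α + α = 0 := by
  ext u
  simp [hK]

theorem ker_ind (hK : ∀ x : K, x + x = 0) {P : MonoidAlgebra K (G × G) → Prop} (zero : P 0)
    (add : ∀ α β, m K G α = 0 → m K G β = 0 → P α → P β → P (α + β))
    (gen : ∀ g h a, P (single (g, h) a + single (g * h, 1) a)) (α : MonoidAlgebra K (G × G)) (hα : m K G α = 0) : P α := by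
  have h1 : ∀ α : MonoidAlgebra K (G × G), m K G (α + i1 K G (m K G α)) = 0 := by
    intro α
    rw [map_add, m_i1, add_self_of hK]
  have h2 : ∀ α : MonoidAlgebra K (G × G), P (α + i1 K G (m K G α)) := by
    intro α
    induction α using MonoidAlgebra.induction_linear with
    | zero => simpa using zero
    | add x y hx hy =>
      have := add _ _ (h1 x) (h1 y) hx hy
      have e : x + y + i1 K G (m K G (x + y)) = x + i1 K G (m K G x) + (y + i1 K G (m K G y)) := by
        rw [map_add, map_add]; abel
      rw [e]; exact this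
    | single p a =>
      simpa using gen p.1 p.2 a
  have := h2 α
  rwa [hα, map_zero, add_zero] at this

end ker

section laws

variable {K G : Type*} [CommRing K] [Group G] (c : SymC K G)

/-- the pairing -/
noncomputable def I (α β : MonoidAlgebra K (G × G)) : K := bil (W c) α β

/-- half of the pairing -/
noncomputable def J (α β : MonoidAlgebra K (G × G)) : K := bil (Wh c) α β

variable {c} (hK : ∀ x : K, x + x = 0) (hG : ∀ g : G, g * g = 1 → g = 1)

theorem I_single (u v : G × G) (a b : K) : I c (single u a) (single v b) = a * b * W c u v := bil_single _ _ _ _ _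

theorem J_single (u v : G × G) (a b : K) : J c (single u a) (single v b) = a * b * Wh c u v := bil_single _ _ _ _ _

include hK in
theorem I_comm (α β : MonoidAlgebra K (G × G)) : I c α β = I c β α := by
  have h : ∀ α β : MonoidAlgebra K (G × G), I c α β + I c β α = 0 := by
    refine bil_ext (F := fun α β => I c α β + I c β α) (fun α β γ => ?_) (fun α β γ => ?_) (fun u v a b => ?_)
    · simp only [I, bil_add, add_bil]; ring
    · simp only [I, bil_add, add_bil]; ring
    · simp only [I_single, W_comm hK v u]
      linear_combination hK (a * b * W c u v)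
  linear_combination h α β - hK (I c β α)

include hK hG in
theorem J_J (α β : MonoidAlgebra K (G × G)) : J c α β + J c β α = I c α β := by
  have h : ∀ α β : MonoidAlgebra K (G × G), J c α β + J c β α - I c α β = 0 := by
    refine bil_ext (F := fun α β => J c α β + J c β α - I c α β) (fun α β γ => ?_) (fun α β γ => ?_) (fun u v a b => ?_)
    · simp only [I, J, bil_add, add_bil]; ring
    · simp only [I, J, bil_add, add_bil]; ring
    · simp only [I_single, J_single, ← Wh_add hK hG u v]
      ring
  linear_combination h α β

include hK in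
theorem I_one (k : G) (a : K) (β : MonoidAlgebra K (G × G)) : I c (single (k, 1) a) β = 0 := by
  induction β using MonoidAlgebra.induction_linear with
  | zero => exact zero_bil _ _
  | add x y hx hy => rw [I, add_bil]; change I c _ _ + I c _ _ = 0; rw [hx, hy, add_zero]
  | single p b => rw [I_single, W_one_left hK, mul_zero]

theorem J_add (α β γ : MonoidAlgebra K (G × G)) : J c (α + β) γ = J c α γ + J c β γ := bil_add _ _ _ _

theorem add_J (α β γ : MonoidAlgebra K (G × G)) : J c γ (α + β) = J c γ α + J c γ β := add_bil _ _ _ _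

theorem I_add (α β γ : MonoidAlgebra K (G × G)) : I c (α + β) γ = I c α γ + I c β γ := bil_add _ _ _ _

theorem add_I (α β γ : MonoidAlgebra K (G × G)) : I c γ (α + β) = I c γ α + I c γ β := add_bil _ _ _ _

theorem I_zero (β : MonoidAlgebra K (G × G)) : I c 0 β = 0 := bil_zero _ _

theorem zero_I (β : MonoidAlgebra K (G × G)) : I c β 0 = 0 := zero_bil _ _

theorem J_zero (β : MonoidAlgebra K (G × G)) : J c 0 β = 0 := bil_zero _ _

theorem zero_J (β : MonoidAlgebra K (G × G)) : J c β 0 = 0 := zero_bil _ _

include hK in
/-- the weight identity behind (A1) -/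
theorem W_bal (g h k : G) (v : G × G) : W c (g, h * k) v + W c (g * h, k) v + W c (g, h) (k * v.1, v.2) = 0 := by
  unfold W
  simp only
  by_cases h1 : g * (h * k) * v.1 * v.2 = 1
  · have h2 : g * h * k * v.1 * v.2 = 1 := by rw [← h1]; group
    have h3 : g * h * (k * v.1) * v.2 = 1 := by rw [← h1]; group
    rw [if_pos h1, if_pos h2, if_pos h3]
    have e1 : h * k * v.1 = h * (k * v.1) := by group
    have e2 : g * h * k = g * (h * k) := by group
    rw [e1, e2]
    linear_combination hK (c.w g (h * (k * v.1))) + hK (c.w (g * (h * k)) v.1) + hK (c.w (g * h) (k * v.1))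
  · have h2 : ¬ g * h * k * v.1 * v.2 = 1 := by intro h2; apply h1; rw [← h2]; group
    have h3 : ¬ g * h * (k * v.1) * v.2 = 1 := by intro h3; apply h1; rw [← h3]; group
    rw [if_neg h1, if_neg h2, if_neg h3]; ring

include hK in
theorem I_bal (α : MonoidAlgebra K (G × G)) (x : MonoidAlgebra K G) (β : MonoidAlgebra K (G × G)) (hα : m K G α = 0) :
    I c (α * i2 K G x) β = I c α (i1 K G x * β) := by
  refine ker_ind hK (P := fun α => I c (α * i2 K G x) β = I c α (i1 K G x * β)) ?_ ?_ ?_ α hα
  · rw [zero_mul, I_zero, I_zero]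
  · intro α α' _ _ h1 h2
    rw [add_mul, I_add, I_add, h1, h2]
  · intro g h a
    rw [I_add, I_one hK, add_zero]
    refine lin_ext (F := fun x => I c ((single (g, h) a + single (g * h, 1) a) * i2 K G x) β)
      (F' := fun x => I c (single (g, h) a) (i1 K G x * β)) ?_ ?_ ?_ ?_ x
    · intro x y; simp only [map_add, mul_add, I_add]
    · intro x y; simp only [map_add, add_mul, add_I]
    · simp only [map_zero, mul_zero, zero_mul, I_zero, zero_I]
    · intro k b
      refine lin_ext (F := fun β => I c ((single (g, h) a + single (g * h, 1) a) * i2 K G (single k b)) β)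
        (F' := fun β => I c (single (g, h) a) (i1 K G (single k b) * β)) ?_ ?_ ?_ ?_ β
      · intro x y; simp only [add_I]
      · intro x y; simp only [mul_add, add_I]
      · simp only [mul_zero, zero_I]
      · intro v e
        simp only [i2_single, i1_single, add_mul, single_mul_single, Prod.mk_mul_mk, mul_one, one_mul, I_add, I_single]
        have h4 : ((k, 1) : G × G) * v = (k * v.1, v.2) := by ext <;> simp
        rw [h4]
        have := W_bal (c := c) hK g h k v
        linear_combination (a * b * e) * this - hK (a * b * e * W c (g, h) (k * v.1, v.2))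

include hK in
/-- the weight identity behind (A2) -/
theorem W_star (g h g' h' : G) : W c (h⁻¹, g⁻¹) (h'⁻¹, g'⁻¹) + W c (1, h⁻¹ * g⁻¹) (h'⁻¹, g'⁻¹) +
    (W c (h⁻¹, g⁻¹) (1, h'⁻¹ * g'⁻¹) + W c (1, h⁻¹ * g⁻¹) (1, h'⁻¹ * g'⁻¹)) = W c (g, h) (g', h') := by
  unfold W
  simp only
  by_cases h1 : g * h * g' * h' = 1
  · have h2 : h⁻¹ * g⁻¹ * h'⁻¹ * g'⁻¹ = 1 := by
      have h3 : g' * h' = (g * h)⁻¹ := by
        apply eq_inv_of_mul_eq_one_right
        rw [← h1]; group
      have h4 : h'⁻¹ * g'⁻¹ = (g' * h')⁻¹ := by group
      rw [mul_assoc, h4, h3]; group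
    have h3 : 1 * (h⁻¹ * g⁻¹) * h'⁻¹ * g'⁻¹ = 1 := Eq.trans (by group) h2
    have h4 : h⁻¹ * g⁻¹ * 1 * (h'⁻¹ * g'⁻¹) = 1 := Eq.trans (by group) h2
    have h5 : 1 * (h⁻¹ * g⁻¹) * 1 * (h'⁻¹ * g'⁻¹) = 1 := Eq.trans (by group) h2
    rw [if_pos h1, if_pos h2, if_pos h3, if_pos h4, if_pos h5]
    simp only [mul_one, one_mul, c.one_w, c.w_one, zero_add, add_zero]
    have e1 : c.w h⁻¹ (g⁻¹ * h'⁻¹) = c.w h g' := by
      have : g⁻¹ * h'⁻¹ = (h' * g)⁻¹ := by group
      rw [this, c.inv, c.cyc]
      have : h' * g * h = g'⁻¹ := by
        apply eq_inv_of_mul_eq_one_left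
        have h6 : h' = (g * h * g')⁻¹ := eq_inv_of_mul_eq_one_right h1
        rw [h6]; group
      rw [this, inv_inv]
    have e2 : c.w (h⁻¹ * g⁻¹) h'⁻¹ = c.w (g * h) g' := by
      have : h⁻¹ * g⁻¹ = (g * h)⁻¹ := by group
      rw [this, c.inv, c.cyc]
      have : h' * (g * h) = g'⁻¹ := by
        apply eq_inv_of_mul_eq_one_left
        have h6 : h' = (g * h * g')⁻¹ := eq_inv_of_mul_eq_one_right h1
        rw [h6]; group
      rw [this, inv_inv]
    rw [e1, e2, c.inv]
    have h5 := c.cocyc g h g'
    have h6 := hK (c.w (g * h) g')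
    have h7 := hK (c.w g (h * g'))
    linear_combination h5 + h6 - h7 - hK (c.w (g * h) g')
  · have h2 : ¬ h⁻¹ * g⁻¹ * h'⁻¹ * g'⁻¹ = 1 := by
      intro h2
      apply h1
      have h3 : h'⁻¹ * g'⁻¹ = (h⁻¹ * g⁻¹)⁻¹ := by
        apply eq_inv_of_mul_eq_one_right
        rw [← h2]; group
      have h4 : g' * h' = (h'⁻¹ * g'⁻¹)⁻¹ := by group
      rw [mul_assoc, h4, h3]; group
    have h3 : ¬ 1 * (h⁻¹ * g⁻¹) * h'⁻¹ * g'⁻¹ = 1 := fun h3 => h2 (Eq.trans (by group) h3)
    have h4 : ¬ h⁻¹ * g⁻¹ * 1 * (h'⁻¹ * g'⁻¹) = 1 := fun h4 => h2 (Eq.trans (by group) h4)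
    have h5 : ¬ 1 * (h⁻¹ * g⁻¹) * 1 * (h'⁻¹ * g'⁻¹) = 1 := fun h5 => h2 (Eq.trans (by group) h5)
    rw [if_neg h1, if_neg h2, if_neg h3, if_neg h4, if_neg h5]; ring

include hK in
theorem I_s (α β : MonoidAlgebra K (G × G)) (hα : m K G α = 0) (hβ : m K G β = 0) :
    I c (s K G α) (s K G β) = I c α β := by
  refine ker_ind hK (P := fun α => I c (s K G α) (s K G β) = I c α β) ?_ ?_ ?_ α hα
  · rw [map_zero, I_zero, I_zero]
  · intro α α' _ _ h1 h2
    rw [map_add, I_add, I_add, h1, h2]
  · intro g h a
    refine ker_ind hK (P := fun β => I c (s K G (single (g, h) a + single (g * h, 1) a)) (s K G β) =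
      I c (single (g, h) a + single (g * h, 1) a) β) ?_ ?_ ?_ β hβ
    · rw [map_zero, zero_I, zero_I]
    · intro α α' _ _ h1 h2
      rw [(s K G).map_add α α', add_I, add_I, h1, h2]
    · intro g' h' b
      have e1 : I c (single (g, h) a + single (g * h, 1) a) (single (g', h') b + single (g' * h', 1) b) =
          a * b * W c (g, h) (g', h') := by
        rw [I_add, I_one hK, add_I, I_comm hK _ (single (g' * h', 1) b), I_one hK, I_single, add_zero, add_zero]
      rw [e1]
      simp only [map_add, s_single, I_add, add_I, I_single, inv_one, mul_inv_rev]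
      rw [← W_star hK g h g' h']
      ring

include hK in
theorem I_dd (x y : MonoidAlgebra K G) : I c (i2 K G x + i1 K G x) (i2 K G y + i1 K G y) = 0 := by
  refine lin_ext (F := fun x => I c (i2 K G x + i1 K G x) (i2 K G y + i1 K G y)) (F' := fun _ => 0) ?_ ?_ ?_ ?_ x
  · intro x y; simp only [map_add, I_add]; ring
  · intro x y; simp
  · simp [I_zero]
  · intro k a
    refine lin_ext (F := fun y => I c (i2 K G (single k a) + i1 K G (single k a)) (i2 K G y + i1 K G y)) (F' := fun _ => 0) ?_ ?_ ?_ ?_ y
    · intro x y; simp only [map_add, add_I]; ring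
    · intro x y; simp
    · simp [zero_I]
    · intro l b
      simp only [i2_single, i1_single, I_add, add_I, I_single, W_one_right, W_one_left hK]
      unfold W
      split_ifs <;> simp [c.one_w, c.w_one]

include hK hG in
theorem q_add (α β : MonoidAlgebra K (G × G)) : J c (α + β) (α + β) = J c α α + J c β β + I c α β := by
  rw [J_add, add_J, add_J, ← J_J hK hG]; ring

theorem q_single (u : G × G) (a : K) : J c (single u a) (single u a) = 0 := by
  rw [J_single, Wh_self, mul_zero]

include hK hG in
theorem q_gen (g h : G) (a : K) : J c (single (g, h) a + single (g * h, 1) a) (single (g, h) a + single (g * h, 1) a) = 0 := by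
  rw [q_add hK hG, q_single, q_single, I_comm hK, I_one hK]; ring

include hK hG in
theorem q_s (α : MonoidAlgebra K (G × G)) (hα : m K G α = 0) : J c (s K G α) (s K G α) = J c α α := by
  refine ker_ind hK (P := fun α => J c (s K G α) (s K G α) = J c α α) ?_ ?_ ?_ α hα
  · rw [map_zero]
  · intro α β hα hβ h1 h2
    rw [map_add, q_add hK hG, q_add hK hG, h1, h2, I_s hK α β hα hβ]
  · intro g h a
    rw [q_gen hK hG, map_add, s_single, s_single, q_add hK hG, q_single, q_single, I_single]
    have : W c ((g, h).2⁻¹, (g, h).1⁻¹) ((g * h, (1 : G)).2⁻¹, (g * h, (1 : G)).1⁻¹) = 0 := by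
      unfold W
      simp only [inv_one, mul_one, mul_inv_rev]
      split_ifs with h1
      · have h2 : h⁻¹ * g⁻¹ = 1 := by
          apply hG
          exact Eq.trans (by group) h1
        have h3 : g⁻¹ = h⁻¹⁻¹ := eq_inv_of_mul_eq_one_right h2
        rw [c.w_one, h3, c.w_inv, add_zero]
      · rfl
    rw [this]; ring

include hK hG in
theorem q_cyc_gen (k g h : G) (a b : K) : J c (i1 K G (single k b) * (single (g, h) a + single (g * h, 1) a))
      (i1 K G (single k b) * (single (g, h) a + single (g * h, 1) a)) +
    J c ((single (g, h) a + single (g * h, 1) a) * i2 K G (single k b)) ((single (g, h) a + single (g * h, 1) a) * i2 K G (single k b)) +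
    I c (i2 K G (single k b) + i1 K G (single k b)) (single (g, h) a + single (g * h, 1) a) =
    (a * b * W c (1, k) (g, h)) ^ 2 + a * b * W c (1, k) (g, h) := by
  have e1 : i1 K G (single k b) * (single (g, h) a + single (g * h, 1) a) = single (k * g, h) (b * a) + single (k * g * h, 1) (b * a) := by
    rw [i1_single, mul_add, single_mul_single, single_mul_single]
    simp [mul_assoc]
  have e2 : (single (g, h) a + single (g * h, 1) a) * i2 K G (single k b) = single (g, h * k) (a * b) + single (g * h, k) (a * b) := by
    rw [i2_single, add_mul, single_mul_single, single_mul_single]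
    simp
  rw [e1, e2, q_gen hK hG, q_add hK hG, q_single, q_single, I_single, i2_single, i1_single, I_add, I_one hK, add_I,
    I_comm hK _ (single (g * h, 1) a), I_one hK, I_single]
  have e3 : W c (g, h * k) (g * h, k) = W c (1, k) (g, h) := by
    unfold W
    simp only [one_mul, c.one_w]
    by_cases h0 : 1 * k * g * h = 1
    · have h1 : k * g * h = 1 := Eq.trans (by group) h0
      have h2 : g * h = k⁻¹ := eq_inv_of_mul_eq_one_right (Eq.trans (by group) h1)
      have h3 : g * (h * k) * (g * h) * k = 1 := by
        rw [h2, ← mul_assoc, h2]; group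
      have h4 : h * k * (g * h) = h := by rw [h2]; group
      have h5 : g * (h * k) = 1 := by rw [← mul_assoc, h2]; group
      rw [if_pos h0, if_pos h3, h4, h5, c.one_w]
      have h6 : c.w g h = c.w k g := by
        rw [c.cyc k g]
        congr 1
        apply eq_inv_of_mul_eq_one_right
        exact h1
      rw [h6]; ring
    · have h3 : ¬ g * (h * k) * (g * h) * k = 1 := by
        intro h3
        apply h0
        have h4 : g * h * k = 1 := by
          apply hG
          exact Eq.trans (by group) h3
        have h5 : k = (g * h)⁻¹ := eq_inv_of_mul_eq_one_right h4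
        rw [h5]; group
      rw [if_neg h0, if_neg h3]
  have e4 : W c (1, k) (g, h) * W c (1, k) (g, h) = W c (1, k) (g, h) := by
    unfold W
    simp only [one_mul, c.one_w, zero_add]
    split_ifs
    · exact c.idem _ _
    · ring
  rw [e3]
  linear_combination (-(a * b) ^ 2) * e4

variable (c)

/-- the model -/
noncomputable def base : Pre K (MonoidAlgebra K G) (MonoidAlgebra K (G × G)) where
  i1 := i1 K G
  i2 := i2 K G
  m := m K G
  t := t K G
  s := s K G
  I := I c
  J := J c
  b2 := add_self_of hK
  t2 := add_self_of hK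
  k2 := hK
  m_i1 := m_i1
  m_i2 := m_i2
  m_l := m_l
  m_r := m_r
  t_mul := t_mul
  t_t := t_t
  s_s := s_s
  m_s := m_s
  s_l b α := by rw [s_mul, s_i1]
  s_r α b := by rw [s_mul, s_i2]
  s_i1 := s_i1
  s_i2 := s_i2
  I_add := I_add
  I_smul k α β := bil_smul _ _ _ _
  I_comm := I_comm hK
  I_bal := I_bal hK
  I_s := I_s hK
  I_dd := I_dd hK
  J_add := J_add
  add_J := add_J
  J_smul k α β := bil_smul _ _ _ _
  smul_J k α β := smul_bil _ _ _ _
  J_J := J_J hK hG
  q_s := q_s hK hG

theorem base_cyc {L : AddSubgroup K} (hL : ∀ z : K, z ^ 2 + z ∈ L) : (base c hK hG).Cyc L := by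
  intro x
  induction x using MonoidAlgebra.induction_linear with
  | zero => intro α _; rw [Pre.zero_Q]; exact L.zero_mem
  | add x y hx hy => intro α hα; rw [Pre.add_Q _ _ _ _ hα]; exact L.add_mem (hx α hα) (hy α hα)
  | single k b =>
    intro α hα
    refine ker_ind hK (P := fun α => (base c hK hG).Q (single k b) α ∈ L) ?_ ?_ ?_ α hα
    · rw [Pre.Q_zero]; exact L.zero_mem
    · intro α β hα hβ h1 h2
      rw [Pre.Q_add _ _ _ _ hα hβ]; exact L.add_mem h1 h2
    · intro g h a
      have := q_cyc_gen (c := c) hK hG k g h a b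
      change J c _ _ + J c _ _ + I c (i2 K G (single k b) + i1 K G (single k b)) _ ∈ L
      change J c (i1 K G (single k b) * _) (i1 K G (single k b) * _) + J c (_ * i2 K G (single k b)) (_ * i2 K G (single k b)) + _ ∈ L
      rw [this]; exact hL _

end laws

end Base

end Pool.Agent.Lib.MP8a3537.K2
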