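import Mathlib

/-!
# Words: the partial products of squares, and the value of a 2-cocycle
-/

namespace Pool.Agent.Lib.MP8a3537.K2

/-- the partial products of squares `x₀² ... x_{i-1}²` -/
def bd {G : Type*} [Group G] (x : ℕ → G) : ℕ → G
  | 0 => 1
  | i + 1 => bd x i * (x i * x i)

/-- the value of the cocycle on the polygon `x₀ x₀ x₁ x₁ ... x_{h-1} x_{h-1}` -/
def pairing {G : Type*} [Group G] (om : G → G → ZMod 2) (x : ℕ → G) (h : ℕ) : ZMod 2 :=
  ∑ i ∈ Finset.range h, (om (bd x i) (x i) + om (bd x i * x i) (x i))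

end Pool.Agent.Lib.MP8a3537.K2
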