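import Pool.Agent.Lib.MP_8a3537_gt.K2.E

/-!
# Block matrices, and the form `Φ ⊗ (a 1; 0 b)` (MP_8a3537_gt, folder K2, section 4 of the paper)
-/

namespace Pool.Agent.Lib.MP8a3537.K2

namespace Pre

open Matrix

variable {K B T : Type*} [CommRing K] [Ring B] [Algebra K B] [Ring T] [Algebra K T] (S : Pre K B T)

section blocks

variable (ι κ : Type*) [Fintype ι] [DecidableEq ι] [Fintype κ] [DecidableEq κ]

theorem mat_i1_apply (x : Matrix ι ι B) (i j : ι) : (S.mat ι).i1 x i j = S.i1 (x i j) := rfl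

theorem mat_i2_apply (x : Matrix ι ι B) (i j : ι) : (S.mat ι).i2 x i j = S.i2 (x i j) := rfl

theorem mat_t_apply (x : Matrix ι ι B) (i j : ι) : (S.mat ι).t x i j = S.t (x j i) := rfl

theorem mat_d_apply (x : Matrix ι ι B) (i j : ι) : (S.mat ι).d x i j = S.d (x i j) := rfl

theorem mat_q (α : Matrix ι ι T) : (S.mat ι).q α = ∑ i, ∑ j, S.J (α i j) (α j i) := rfl

theorem mat_I (α β : Matrix ι ι T) : (S.mat ι).I α β = ∑ i, ∑ j, S.I (α i j) (β j i) := rfl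

theorem i1_blocks (a : Matrix ι ι B) (b : Matrix ι ι B) (c : Matrix ι ι B) (d : Matrix ι ι B) :
    (S.mat (ι ⊕ ι)).i1 (fromBlocks a b c d) = fromBlocks ((S.mat ι).i1 a) ((S.mat ι).i1 b) ((S.mat ι).i1 c) ((S.mat ι).i1 d) :=
  fromBlocks_map _ _ _ _ _

theorem d_blocks (a : Matrix ι ι B) (b : Matrix ι ι B) (c : Matrix ι ι B) (d : Matrix ι ι B) :
    (S.mat (ι ⊕ ι)).d (fromBlocks a b c d) = fromBlocks ((S.mat ι).d a) ((S.mat ι).d b) ((S.mat ι).d c) ((S.mat ι).d d) := by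
  ext i j
  rcases i with i | i <;> rcases j with j | j <;> rfl

theorem t_blocks (a : Matrix ι ι B) (b : Matrix ι ι B) (c : Matrix ι ι B) (d : Matrix ι ι B) :
    (S.mat (ι ⊕ ι)).t (fromBlocks a b c d) = fromBlocks ((S.mat ι).t a) ((S.mat ι).t c) ((S.mat ι).t b) ((S.mat ι).t d) := by
  ext i j
  rcases i with i | i <;> rcases j with j | j <;> rfl

theorem q_blocks (a : Matrix ι ι T) (b : Matrix ι κ T) (c : Matrix κ ι T) (d : Matrix κ κ T) :
    (S.mat (ι ⊕ κ)).q (fromBlocks a b c d) = (S.mat ι).q a + (S.mat κ).q d + ∑ i, ∑ j, S.I (b i j) (c j i) := by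
  rw [mat_q, mat_q, mat_q]
  simp only [Fintype.sum_sum_type, fromBlocks_apply₁₁, fromBlocks_apply₁₂, fromBlocks_apply₂₁, fromBlocks_apply₂₂,
    Finset.sum_add_distrib, ← S.J_J]
  have : ∑ i, ∑ j, S.J (c i j) (b j i) = ∑ i, ∑ j, S.J (c j i) (b i j) := Finset.sum_comm
  rw [this]
  ring

end blocks

section form

variable {S}

theorem I_self (α : T) : S.I α α = 0 := by rw [← S.J_J, S.k2]

theorem d_smul (a : K) (x : B) : S.d (a • x) = a • S.d x := by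
  unfold d
  rw [map_smul, map_smul, smul_add]

theorem d_inv {x y : B} (h1 : x * y = 1) (h2 : y * x = 1) : S.d y = S.i1 y * S.d x * S.i2 y := by
  have h := S.d_mul x y
  rw [h1, d_one'] at h
  have h3 : S.i1 x * S.d y = S.d x * S.i2 y := by
    have h4 := S.t2 (S.d x * S.i2 y)
    have : S.i1 x * S.d y + S.d x * S.i2 y = S.d x * S.i2 y + S.d x * S.i2 y := by rw [← h, h4]
    exact add_right_cancel this
  calc S.d y = S.i1 (y * x) * S.d y := by rw [h2, map_one, one_mul]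
    _ = S.i1 y * S.d x * S.i2 y := by rw [map_mul, mul_assoc, h3, mul_assoc]

/-- `<F, N F> = <F, dN>` for `F = Φ⁻¹ dΦ`, `Φ^* = Φ (1 + N)` -/
theorem I_NF {Φ Ψ N : B} (h1 : Φ * Ψ = 1) (h2 : Ψ * Φ = 1) (hN : S.t Φ = Φ * (1 + N)) :
    S.I (S.i1 Ψ * S.d Φ) (S.i1 N * (S.i1 Ψ * S.d Φ)) = S.I (S.i1 Ψ * S.d Φ) (S.d N) := by
  set F := S.i1 Ψ * S.d Φ with hF
  have mF : S.m F = 0 := S.m_l' _ (S.m_d _)
  have e1 : S.i1 Ψ * S.d (S.t Φ) = S.d N + F * S.i2 (1 + N) := by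
    rw [hN, S.d_mul, mul_add, ← mul_assoc, ← map_mul, h2, map_one, one_mul, S.d_add, d_one', zero_add, ← mul_assoc]
  have e2 : S.I (F * S.i2 Ψ) (S.d (S.t Φ)) = 0 := by
    rw [hF, ← d_inv h1 h2]; exact S.I_dd _ _
  rw [S.I_bal F _ _ mF, e1, map_add, map_one, mul_add, mul_one, S.add_I, S.add_I, I_self, zero_add] at e2
  have e3 : S.I F (F * S.i2 N) = S.I F (S.i1 N * F) := by
    rw [S.I_comm, S.I_bal F N F mF]
  rw [e3] at e2
  have := S.k2 (S.I F (S.d N))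
  linear_combination e2 - this

variable (S)

/-- the value of `e` on `Φ ⊗ (a 1; 0 b)` -/
theorem e_tensor {ι : Type*} [Fintype ι] [DecidableEq ι] (L : AddSubgroup K) {Φ Ψ N : Matrix ι ι B} (h1 : Φ * Ψ = 1) (h2 : Ψ * Φ = 1)
    (hN : (S.mat ι).t Φ = Φ * (1 + N)) (hNN : N * N = 0) (a b : K) :
    (S.mat (ι ⊕ ι)).e L (fromBlocks (a • Φ) Φ 0 (b • Φ)) =
      QuotientAddGroup.mk ((S.mat ι).q ((S.mat ι).i1 Ψ * (S.mat ι).d Φ) +
        a * b * (S.mat ι).I ((S.mat ι).i1 Ψ * (S.mat ι).d Φ) ((S.mat ι).d N)) := by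
  set M := S.mat ι with hM
  have two : ∀ x : Matrix ι ι B, x + x = 0 := M.b2
  have hs : fromBlocks (a • Φ) Φ 0 (b • Φ) + (S.mat (ι ⊕ ι)).t (fromBlocks (a • Φ) Φ 0 (b • Φ)) =
      fromBlocks (a • (Φ * N)) Φ (Φ * (1 + N)) (b • (Φ * N)) := by
    rw [t_blocks, fromBlocks_add, map_smul, map_smul, map_zero, ← hM, hN, add_zero, zero_add]
    have : ∀ c : K, c • Φ + c • (Φ * (1 + N)) = c • (Φ * N) := by
      intro c
      rw [← smul_add, mul_add, mul_one, ← add_assoc, two, zero_add]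
    rw [this, this]
  have hμ1 : fromBlocks (b • (N * Ψ)) ((1 + N) * Ψ) Ψ (a • (N * Ψ)) * fromBlocks (a • (Φ * N)) Φ (Φ * (1 + N)) (b • (Φ * N)) = 1 := by
    have e1 : ∀ x : Matrix ι ι B, x * Ψ * (Φ * N) = x * N := by
      intro x; rw [mul_assoc, ← mul_assoc Ψ, h2, one_mul]
    have e2 : ∀ x : Matrix ι ι B, x * Ψ * (Φ * (1 + N)) = x * (1 + N) := by
      intro x; rw [mul_assoc, ← mul_assoc Ψ, h2, one_mul]
    have e3 : ∀ x : Matrix ι ι B, x * Ψ * Φ = x := by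
      intro x; rw [mul_assoc, h2, mul_one]
    have e4 : Ψ * (Φ * N) = N := by rw [← mul_assoc, h2, one_mul]
    have e5 : Ψ * (Φ * (1 + N)) = 1 + N := by rw [← mul_assoc, h2, one_mul]
    have e6 : (1 + N) * (1 + N) = 1 := by
      have : (1 + N) * (1 + N) = 1 + (N + N) + N * N := by noncomm_ring
      rw [this, two, hNN, add_zero, add_zero]
    have e7 : (1 + N) * N = N := by rw [add_mul, one_mul, hNN, add_zero]
    have e8 : N * (1 + N) = N := by rw [mul_add, mul_one, hNN, add_zero]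
    rw [fromBlocks_multiply]
    simp only [smul_mul_assoc, mul_smul_comm, e1, e2, e3, e4, e6, e7, e8, h2, hNN, smul_zero, zero_add, two, add_zero]
    exact fromBlocks_one
  have hμ2 : fromBlocks (a • (Φ * N)) Φ (Φ * (1 + N)) (b • (Φ * N)) * fromBlocks (b • (N * Ψ)) ((1 + N) * Ψ) Ψ (a • (N * Ψ)) = 1 := by
    have f1 : Φ * N * (N * Ψ) = 0 := by
      rw [mul_assoc, ← mul_assoc N, hNN, zero_mul, mul_zero]
    have f2 : Φ * N * ((1 + N) * Ψ) = Φ * (N * Ψ) := by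
      rw [add_mul, one_mul, mul_add, f1, add_zero, mul_assoc]
    have f4 : Φ * (1 + N) * (N * Ψ) = Φ * (N * Ψ) := by
      rw [mul_add, mul_one, add_mul, f1, add_zero]
    have f5 : Φ * (1 + N) * ((1 + N) * Ψ) = 1 := by
      rw [mul_add Φ, mul_one, add_mul, f2, add_mul 1 N Ψ, one_mul, mul_add, add_assoc, two, add_zero, h1]
    have f6 : Φ * N * Ψ = Φ * (N * Ψ) := mul_assoc _ _ _
    rw [fromBlocks_multiply]
    simp only [smul_mul_assoc, mul_smul_comm, f1, f2, f4, f5, f6, h1, smul_zero, zero_add, two, add_zero]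
    exact fromBlocks_one
  have h3 : (S.mat (ι ⊕ ι)).e L (fromBlocks (a • Φ) Φ 0 (b • Φ)) = _ :=
    e_eq (S := S.mat (ι ⊕ ι)) (μ := fromBlocks (b • (N * Ψ)) ((1 + N) * Ψ) Ψ (a • (N * Ψ))) (by rw [hs]; exact hμ1) (by rw [hs]; exact hμ2)
  rw [h3, i1_blocks, d_blocks, ← hM]
  set F := M.i1 Ψ * M.d Φ with hF
  have h4 : fromBlocks (M.i1 (b • (N * Ψ))) (M.i1 ((1 + N) * Ψ)) (M.i1 Ψ) (M.i1 (a • (N * Ψ))) *
      fromBlocks (M.d (a • Φ)) (M.d Φ) (M.d 0) (M.d (b • Φ)) =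
      fromBlocks ((a * b) • (M.i1 N * F)) (b • F) (a • F) (F + (a * b) • (M.i1 N * F)) := by
    have d0 : M.d 0 = 0 := by unfold d; rw [map_zero, map_zero, add_zero]
    have twoT : ∀ x : Matrix ι ι T, x + x = 0 := M.t2
    have g1 : M.i1 N * M.i1 Ψ * M.d Φ = M.i1 N * F := by rw [hF, mul_assoc]
    have g2 : (1 + M.i1 N) * M.i1 Ψ * M.d Φ = F + M.i1 N * F := by rw [add_mul, add_mul, one_mul, g1]
    rw [fromBlocks_multiply, d0, d_smul, d_smul, map_smul, map_smul, map_mul, map_mul, map_add, map_one]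
    simp only [smul_mul_assoc, mul_smul_comm, mul_zero, add_zero, g1, g2, smul_smul]
    congr 1
    · rw [smul_add, add_comm, add_assoc, twoT, add_zero]
    · rw [mul_comm b a]
  rw [h4, q_blocks, ← hM, ← mat_I, ← hM, M.q_add', M.I_smul, M.smul_I, M.smul_I, I_NF h1 h2 hN, I_self]
  congr 1
  have := M.k2 (M.q ((a * b) • (M.i1 N * F)))
  linear_combination this

end form

end Pre

end Pool.Agent.Lib.MP8a3537.K2
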