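import Pool.Agent.Lib.MP_8a3537_gt.K2.Base

/-!
# The invariant of quadratic forms (MP_8a3537_gt, folder K2)
-/

namespace Pool.Agent.Lib.MP8a3537.K2

namespace Pre

variable {K B T : Type*} [CommRing K] [Ring B] [Algebra K B] [Ring T] [Algebra K T] (S : Pre K B T)

/-- the quadratic map -/
def q (α : T) : K := S.J α α

theorem q_zero : S.q 0 = 0 := S.J_zero 0

theorem q_add' (α β : T) : S.q (α + β) = S.q α + S.q β + S.I α β := S.q_add α β

theorem q_smul (a : K) (α : T) : S.q (a • α) = a ^ 2 * S.q α := by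
  unfold q
  rw [S.J_smul, S.smul_J]; ring

/-- the invariant -/
noncomputable def e (L : AddSubgroup K) (ψ : B) : K ⧸ L :=
  QuotientAddGroup.mk (S.q (S.i1 (Ring.inverse (ψ + S.t ψ)) * S.d ψ))

/-- the invariant of units -/
noncomputable def h (L : AddSubgroup K) (u : Bˣ) : K ⧸ L :=
  QuotientAddGroup.mk (S.q (S.d u.val * S.i2 u⁻¹.val))

variable {S} {L : AddSubgroup K}

theorem e_eq {ψ μ : B} (h1 : μ * (ψ + S.t ψ) = 1) (h2 : (ψ + S.t ψ) * μ = 1) :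
    S.e L ψ = QuotientAddGroup.mk (S.q (S.i1 μ * S.d ψ)) := by
  have h : Ring.inverse (ψ + S.t ψ) = μ := by
    let u : Bˣ := ⟨ψ + S.t ψ, μ, h2, h1⟩
    have : ψ + S.t ψ = u.val := rfl
    rw [this, Ring.inverse_unit]
    rfl
  rw [e, h]

theorem e_even (hL : S.Cyc L) {ψ : B} (hψ : IsUnit (ψ + S.t ψ)) (η : B) : S.e L (ψ + η + S.t η) = S.e L ψ := by
  obtain ⟨u, hu⟩ := hψ
  have h1 : u⁻¹.val * (ψ + S.t ψ) = 1 := by rw [← hu, Units.inv_mul]
  have h2 : (ψ + S.t ψ) * u⁻¹.val = 1 := by rw [← hu, Units.mul_inv]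
  have h3 : ψ + η + S.t η + S.t (ψ + η + S.t η) = ψ + S.t ψ := by
    rw [map_add, map_add, S.t_t]
    have e1 : ψ + η + S.t η + (S.t ψ + S.t η + η) = ψ + S.t ψ + (η + η) + (S.t η + S.t η) := by abel
    rw [e1, S.b2, S.b2, add_zero, add_zero]
  rw [e_eq h1 h2, e_eq (μ := u⁻¹.val) (by rw [h3]; exact h1) (by rw [h3]; exact h2)]
  have := (S.sys hL).e_even (ψ := ψ) (μ := u⁻¹.val) h1 h2 η
  rw [add_assoc]
  exact this

theorem e_congr (hL : S.Cyc L) {ψ : B} (hψ : IsUnit (ψ + S.t ψ)) (P : Bˣ) :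
    S.e L (S.t P.val * ψ * P.val) = S.e L ψ + S.h L P := by
  obtain ⟨u, hu⟩ := hψ
  have h1 : u⁻¹.val * (ψ + S.t ψ) = 1 := by rw [← hu, Units.inv_mul]
  have h2 : (ψ + S.t ψ) * u⁻¹.val = 1 := by rw [← hu, Units.mul_inv]
  have t1 : S.t 1 = 1 := (S.sys hL).t_one
  have hq : S.t P.val * S.t P⁻¹.val = 1 := by rw [← S.t_mul, Units.inv_mul, t1]
  have hq' : S.t P⁻¹.val * S.t P.val = 1 := by rw [← S.t_mul, Units.mul_inv, t1]
  have h3 : S.t P.val * ψ * P.val + S.t (S.t P.val * ψ * P.val) = S.t P.val * (ψ + S.t ψ) * P.val := by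
    rw [S.t_mul, S.t_mul, S.t_t, mul_add, add_mul]
    congr 1
    rw [mul_assoc]
  rw [e_eq h1 h2, e_eq (μ := P⁻¹.val * u⁻¹.val * S.t P⁻¹.val) ?_ ?_]
  · exact (S.sys hL).e_congr (ψ := ψ) (μ := u⁻¹.val) (P := P.val) (Q := P⁻¹.val) h1 h2 P.mul_inv P.inv_mul
  · rw [h3]
    calc P⁻¹.val * u⁻¹.val * S.t P⁻¹.val * (S.t P.val * (ψ + S.t ψ) * P.val)
        = P⁻¹.val * (u⁻¹.val * ((S.t P⁻¹.val * S.t P.val) * (ψ + S.t ψ))) * P.val := by
          simp only [mul_assoc]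
      _ = 1 := by rw [hq', one_mul, h1, mul_one, Units.inv_mul]
  · rw [h3]
    calc S.t P.val * (ψ + S.t ψ) * P.val * (P⁻¹.val * u⁻¹.val * S.t P⁻¹.val)
        = S.t P.val * ((ψ + S.t ψ) * ((P.val * P⁻¹.val) * u⁻¹.val)) * S.t P⁻¹.val := by
          simp only [mul_assoc]
      _ = 1 := by rw [Units.mul_inv, one_mul, h2, mul_one, hq]

theorem h_mul (hL : S.Cyc L) (P R : Bˣ) : S.h L (P * R) = S.h L P + S.h L R := by
  have := (S.sys hL).h_mul (P := P.val) (Q := P⁻¹.val) (R := R.val) (T := R⁻¹.val) P.inv_mul R.mul_inv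
  unfold h
  rw [Units.val_mul, mul_inv_rev, Units.val_mul]
  exact this

theorem d_one' : S.d 1 = 0 := by
  unfold d
  rw [map_one, map_one]; exact S.t2 1

theorem h_one : S.h L 1 = 0 := by
  unfold h
  rw [Units.val_one, d_one', zero_mul, q_zero]; rfl

theorem h_inv (hL : S.Cyc L) (P : Bˣ) : S.h L P⁻¹ = S.h L P := by
  have h1 := h_mul hL P P⁻¹
  rw [mul_inv_cancel, h_one] at h1
  have h2 : S.h L P + S.h L P = 0 := (S.sys hL).v2 _
  have h3 : S.h L P + S.h L P⁻¹ = S.h L P + S.h L P := h1.symm.trans h2.symm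
  exact add_left_cancel h3

end Pre

end Pool.Agent.Lib.MP8a3537.K2
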