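import Mathlib

/-!
# The fan sum (MP_8a3537_gt, folder K2)

Paper: /team-store/MP_8a3537_gt_K2.md, end of section 4.  `T` is a trilinear functional on a ring `R` with values `[g k h = 1] w(1, g, g k)` on the
elements of a group `G`; `w` a symmetric invariant normalised cocycle.  The sum
`J = ∑ T(δ_i, Φ⁻¹_ij, δ_j^*) + T(ρ_i^*, Φ_ij, ρ_j)` is the value of `w` on the fan triangulation of the polygon `x_1 x_1 ... x_h x_h`.
-/

namespace Pool.Agent.Lib.MP8a3537.K2.Fan

open Finset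

variable {G V : Type*} [Group G] [AddCommGroup V]

/-- four terms -/
def S4 (x y : G) (f : G → G → V) : V := f 1 1 + f 1 y + (f x 1 + f x y)

theorem S4_add (x y : G) (f g : G → G → V) : S4 x y (fun a b => f a b + g a b) = S4 x y f + S4 x y g := by
  simp only [S4]; abel

theorem S4_sum {ι : Type*} (s : Finset ι) (x y : G) (f : ι → G → G → V) :
    S4 x y (fun a b => ∑ i ∈ s, f i a b) = ∑ i ∈ s, S4 x y (f i) := by
  simp only [S4, sum_add_distrib]

theorem S4_congr (x y : G) {f g : G → G → V} (h : ∀ a b, f a b = g a b) : S4 x y f = S4 x y g := by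
  simp only [S4, h]

theorem S4_comm (x y x' y' : G) (f : G → G → G → G → V) :
    S4 x y (fun a b => S4 x' y' (f a b)) = S4 x' y' (fun c d => S4 x y (fun a b => f a b c d)) := by
  simp only [S4]; abel

/-- the telescoping sum -/
theorem tele (hV : ∀ v : V, v + v = 0) (f : ℕ → V) (j : ℕ) : ∑ i ∈ range j, (f i + f (i + 1)) = f 0 + f j := by
  induction j with
  | zero => simp [hV]
  | succ j ih =>
    rw [sum_range_succ, ih]
    have := hV (f j)
    calc f 0 + f j + (f j + f (j + 1)) = f 0 + (f j + f j) + f (j + 1) := by abel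
      _ = f 0 + f (j + 1) := by rw [this, add_zero]

theorem tele2 (hV : ∀ v : V, v + v = 0) (f : ℕ → V) (i h : ℕ) (hi : i < h) :
    ∑ j ∈ Ico (i + 1) h, (f j + f (j + 1)) = f (i + 1) + f h := by
  induction h, (Nat.succ_le_of_lt hi) using Nat.le_induction with
  | base => simp [hV]
  | succ h hle ih =>
    rw [sum_Ico_succ_top hle, ih hle]
    have := hV (f h)
    calc f (i + 1) + f h + (f h + f (h + 1)) = f (i + 1) + (f h + f h) + f (h + 1) := by abel
      _ = f (i + 1) + f (h + 1) := by rw [this, add_zero]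

/-- `∑_(i<j<h)` in the two orders -/
theorem swap (h : ℕ) (f : ℕ → ℕ → V) : ∑ j ∈ range h, ∑ i ∈ range j, f i j = ∑ i ∈ range h, ∑ j ∈ Ico (i + 1) h, f i j := by
  apply sum_comm'
  intro i j
  simp only [mem_range, mem_Ico]
  omega

section

variable [DecidableEq G] (w : G → G → G → V) (hV : ∀ v : V, v + v = 0)
  (winv : ∀ g x y z, w (g * x) (g * y) (g * z) = w x y z) (w1 : ∀ x y z, w y x z = w x y z) (w2 : ∀ x y z, w x z y = w x y z)
  (w0 : ∀ x y, w x x y = 0) (wc : ∀ x y z t, w y z t + w x z t + w x y t + w x y z = 0)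

/-- the functional on group elements -/
def F (g k h : G) : V := if g * k * h = 1 then w 1 g (g * k) else 0

include hV winv w1 wc in
/-- the pointwise identity -/
theorem point (p q a b c d : G) : F w (p * a) (b * c) (d * q⁻¹) + F w b⁻¹ (a⁻¹ * (p⁻¹ * q) * d⁻¹) c⁻¹ =
    (if p * (a * b) * c * d = q then w 1 (p * (a * b)) (q * d⁻¹) else 0) + (if p * (a * b) * c * d = q then w 1 (p * a) (p * (a * b)) else 0) := by
  have e1 : (p * a * (b * c) * (d * q⁻¹) = 1) ↔ (p * (a * b) * c * d = q) := by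
    constructor
    · intro h
      have h2 : p * (a * b) * c * d * q⁻¹ = 1 := by rw [← h]; group
      exact mul_inv_eq_one.mp h2
    · intro h
      have h2 : p * (a * b) * c * d * q⁻¹ = 1 := by rw [h]; group
      rw [← h2]; group
  have e2 : (b⁻¹ * (a⁻¹ * (p⁻¹ * q) * d⁻¹) * c⁻¹ = 1) ↔ (p * (a * b) * c * d = q) := by
    constructor
    · intro h
      have h2 : p * (a * b) * (b⁻¹ * (a⁻¹ * (p⁻¹ * q) * d⁻¹) * c⁻¹) * c * d = q := by group
      rw [h, mul_one] at h2
      exact h2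
    · intro h
      rw [← h]; group
  unfold F
  simp only [e1, e2]
  split_ifs with h
  · have h3 : q * d⁻¹ = p * (a * b) * c := by rw [← h]; group
    have h4 : w 1 b⁻¹ (b⁻¹ * (a⁻¹ * (p⁻¹ * q) * d⁻¹)) = w (p * (a * b)) (p * a) (p * (a * b) * c) := by
      rw [← winv (p * (a * b)) 1 b⁻¹ _]
      congr 1
      · group
      · group
      · rw [← h]; group
    have h5 : w 1 (p * a) (p * a * (b * c)) = w 1 (p * a) (p * (a * b) * c) := by
      congr 1; group
    rw [h4, h5, h3]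
    have h6 := wc 1 (p * a) (p * (a * b)) (p * (a * b) * c)
    rw [w1 (p * a) (p * (a * b))]
    linear_combination (norm := abel) h6 - hV (w 1 (p * (a * b)) (p * (a * b) * c) + w 1 (p * a) (p * (a * b)))
  · simp

omit [DecidableEq G] in
/-- the first half, for fixed `c, d` -/
theorem half1a (x : ℕ → G) (B : ℕ → G) (h : ℕ) (hB : ∀ i < h, B (i + 1) = B i * (x i * x i)) (g : G → V) (i : ℕ) (hi : i < h) (hV : ∀ v : V, v + v = 0) :
    S4 (x i) (x i) (fun a b => g (B i * (a * b))) = g (B i) + g (B (i + 1)) := by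
  simp only [S4, one_mul, mul_one]
  rw [← hB i hi]
  linear_combination (norm := abel) hV (g (B i * x i))

include hV w0 w1 w2 winv in
theorem half1 (hG : ∀ g : G, g * g = 1 → g = 1) (x B : ℕ → G) (h : ℕ) (B0 : B 0 = 1) (hB : ∀ i < h, B (i + 1) = B i * (x i * x i))
    (j : ℕ) (hj : j < h) :
    ∑ i ∈ range j, S4 (x i) (x i) (fun a b => S4 (x j)⁻¹ (x j)⁻¹ (fun c d =>
      if B i * (a * b) * c * d = B j then w 1 (B i * (a * b)) (B j * d⁻¹) else 0)) = 0 := by
  have e1 : ∀ i, S4 (x i) (x i) (fun a b => S4 (x j)⁻¹ (x j)⁻¹ (fun c d =>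
      if B i * (a * b) * c * d = B j then w 1 (B i * (a * b)) (B j * d⁻¹) else 0)) =
      S4 (x j)⁻¹ (x j)⁻¹ (fun c d => S4 (x i) (x i) (fun a b =>
        (fun u => if u * c * d = B j then w 1 u (B j * d⁻¹) else 0) (B i * (a * b)))) := by
    intro i
    exact S4_comm _ _ _ _ (fun a b c d => if B i * (a * b) * c * d = B j then w 1 (B i * (a * b)) (B j * d⁻¹) else 0)
  simp only [e1]
  rw [← S4_sum]
  have e2 : ∀ c d, ∑ i ∈ range j, S4 (x i) (x i) (fun a b =>
        (fun u => if u * c * d = B j then w 1 u (B j * d⁻¹) else 0) (B i * (a * b))) =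
        (if B j * c * d = B j then w 1 (B j) (B j * d⁻¹) else 0) := by
    intro c d
    have e3 : ∀ i ∈ range j, S4 (x i) (x i) (fun a b =>
        (fun u => if u * c * d = B j then w 1 u (B j * d⁻¹) else 0) (B i * (a * b))) =
        (fun i => (if B i * c * d = B j then w 1 (B i) (B j * d⁻¹) else 0)) i +
        (fun i => (if B i * c * d = B j then w 1 (B i) (B j * d⁻¹) else 0)) (i + 1) := by
      intro i hi
      rw [mem_range] at hi
      exact half1a x B h hB (fun u => if u * c * d = B j then w 1 u (B j * d⁻¹) else 0) i (by omega) hV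
    rw [sum_congr rfl e3, tele hV]
    simp only [B0]
    rw [w0]
    simp
  rw [S4_congr _ _ e2]
  have f1 : w 1 (B j) (B j) = 0 := by
    have := winv (B j) (B j)⁻¹ 1 1
    rw [mul_inv_cancel, mul_one] at this
    rw [this, ← w1, ← w2, ← w1]
    exact w0 _ _
  have f2 : ∀ c d : G, (c = 1 ∨ c = (x j)⁻¹) → (d = 1 ∨ d = (x j)⁻¹) → (if B j * c * d = B j then w 1 (B j) (B j * d⁻¹) else 0) = 0 := by
    intro c d hc hd
    split_ifs with hcd
    · have h1 : c * d = 1 := by
        rw [mul_assoc] at hcd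
        exact mul_eq_left.mp hcd
      have h2 : d = 1 := by
        rcases hd with hd | hd
        · exact hd
        · rcases hc with hc | hc
          · rw [hc, one_mul] at h1
            exact h1
          · apply hG
            nth_rewrite 1 [hd]
            rw [← hc, h1]
      rw [h2, inv_one, mul_one, f1]
    · rfl
  simp only [S4]
  rw [f2 1 1 (Or.inl rfl) (Or.inl rfl), f2 1 _ (Or.inl rfl) (Or.inr rfl), f2 _ 1 (Or.inr rfl) (Or.inl rfl), f2 _ _ (Or.inr rfl) (Or.inr rfl)]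
  simp

include hV winv w0 w1 w2 in
theorem half2 (x B : ℕ → G) (h : ℕ) (Bh : B h = 1) (hB : ∀ i < h, B (i + 1) = B i * (x i * x i))
    (i : ℕ) (hi : i < h) :
    ∑ j ∈ Ico (i + 1) h, S4 (x i) (x i) (fun a b => S4 (x j)⁻¹ (x j)⁻¹ (fun c d =>
      if B i * (a * b) * c * d = B j then w 1 (B i * a) (B i * (a * b)) else 0)) = w 1 (B i * x i) (B (i + 1)) := by
  have f1 : ∀ y : G, w 1 y y = 0 := by
    intro y
    have := winv y y⁻¹ 1 1
    rw [mul_inv_cancel, mul_one] at this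
    rw [this, ← w1, ← w2, ← w1]
    exact w0 _ _
  have f3 : ∀ y : G, w 1 y 1 = 0 := by
    intro y
    rw [← w2]; exact w0 _ _
  rw [← S4_sum]
  have e1 : ∀ a b, ∑ j ∈ Ico (i + 1) h, S4 (x j)⁻¹ (x j)⁻¹ (fun c d =>
      if B i * (a * b) * c * d = B j then w 1 (B i * a) (B i * (a * b)) else 0) =
      (if B i * (a * b) = B (i + 1) then w 1 (B i * a) (B i * (a * b)) else 0) := by
    intro a b
    have e2 : ∀ j ∈ Ico (i + 1) h, S4 (x j)⁻¹ (x j)⁻¹ (fun c d =>
      if B i * (a * b) * c * d = B j then w 1 (B i * a) (B i * (a * b)) else 0) =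
      (fun j => if B i * (a * b) = B j then w 1 (B i * a) (B i * (a * b)) else 0) j +
      (fun j => if B i * (a * b) = B j then w 1 (B i * a) (B i * (a * b)) else 0) (j + 1) := by
      intro j hj
      rw [mem_Ico] at hj
      have e3 : (B i * (a * b) * (x j)⁻¹ * (x j)⁻¹ = B j) ↔ (B i * (a * b) = B (j + 1)) := by
        rw [hB j hj.2]
        constructor
        · intro hh
          rw [← hh]; group
        · intro hh
          rw [hh]; group
      simp only [S4, mul_one, e3]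
      linear_combination (norm := abel) hV (if B i * (a * b) * (x j)⁻¹ = B j then w 1 (B i * a) (B i * (a * b)) else 0)
    rw [sum_congr rfl e2, tele2 hV _ _ _ hi, Bh]
    have e4 : (if B i * (a * b) = 1 then w 1 (B i * a) (B i * (a * b)) else 0) = 0 := by
      split_ifs with h5
      · rw [h5, f3]
      · rfl
    simp only [e4, add_zero]
  rw [S4_congr _ _ e1]
  have e5 : ∀ a b : G, (a = 1 ∨ (b = 1 ∧ a = x i)) → (b = 1 ∨ b = x i) →
      (if B i * (a * b) = B (i + 1) then w 1 (B i * a) (B i * (a * b)) else 0) = 0 := by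
    intro a b ha hb
    split_ifs with h5
    · rw [hB i hi] at h5
      have h6 : a * b = x i * x i := mul_left_cancel h5
      have h7 : b = 1 ∨ (a = 1 ∧ b = x i) := by
        rcases ha with ha | ha
        · rcases hb with hb | hb
          · exact Or.inl hb
          · exact Or.inr ⟨ha, hb⟩
        · exact Or.inl ha.1
      rcases h7 with h7 | ⟨h7, h8⟩
      · rw [h7, mul_one, f1]
      · rw [h7, h8, one_mul] at h6
        have h9 : x i = 1 := by
          have := mul_left_cancel (h6.symm.trans (mul_one (x i)).symm)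
          exact this
        rw [h8, h9, mul_one, f1]
    · rfl
  simp only [S4]
  rw [e5 1 1 (Or.inl rfl) (Or.inl rfl), e5 1 _ (Or.inl rfl) (Or.inr rfl), e5 _ 1 (Or.inr ⟨rfl, rfl⟩) (Or.inl rfl), ← hB i hi, if_pos rfl]
  simp

include hV winv w0 w1 w2 wc in
/-- **the fan sum** -/
theorem fan {R : Type*} [Ring R] (ι : G →* R) (T : R → R → R → V)
    (T1 : ∀ a a' b c, T (a + a') b c = T a b c + T a' b c) (T2 : ∀ a b b' c, T a (b + b') c = T a b c + T a b' c)
    (T3 : ∀ a b c c', T a b (c + c') = T a b c + T a b c')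
    (hT : ∀ g k h : G, T (ι g) (ι k) (ι h) = if g * k * h = 1 then w 1 g (g * k) else 0)
    (hG : ∀ g : G, g * g = 1 → g = 1) (x B : ℕ → G) (h : ℕ) (B0 : B 0 = 1) (Bh : B h = 1) (hB : ∀ i < h, B (i + 1) = B i * (x i * x i)) :
    ∑ j ∈ range h, ∑ i ∈ range j,
      (T (ι (B i) * (1 + ι (x i))) ((1 + ι (x i)) * (1 + ι (x j)⁻¹)) ((1 + ι (x j)⁻¹) * ι (B j)⁻¹) +
        T (1 + ι (x i)⁻¹) ((1 + ι (x i)⁻¹) * ι ((B i)⁻¹ * B j) * (1 + ι (x j))) (1 + ι (x j))) +
    ∑ i ∈ range h, (T (ι (B i) * (1 + ι (x i))) (ι (x i)⁻¹) ((1 + ι (x i)⁻¹) * ι (B i)⁻¹) + T (1 + ι (x i)⁻¹) (ι (x i)) (1 + ι (x i))) =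
    ∑ i ∈ range h, (w 1 (B i) (B i * x i) + w 1 (B i * x i) (B (i + 1))) := by
  have f1 : ∀ y : G, w 1 y y = 0 := by
    intro y
    have := winv y y⁻¹ 1 1
    rw [mul_inv_cancel, mul_one] at this
    rw [this, ← w1, ← w2, ← w1]
    exact w0 _ _
  have f3 : ∀ y : G, w 1 y 1 = 0 := by
    intro y
    rw [← w2]; exact w0 _ _
  -- off the diagonal
  have hP : ∀ i j, T (ι (B i) * (1 + ι (x i))) ((1 + ι (x i)) * (1 + ι (x j)⁻¹)) ((1 + ι (x j)⁻¹) * ι (B j)⁻¹) +
        T (1 + ι (x i)⁻¹) ((1 + ι (x i)⁻¹) * ι ((B i)⁻¹ * B j) * (1 + ι (x j))) (1 + ι (x j)) =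
      S4 (x i) (x i) (fun a b => S4 (x j)⁻¹ (x j)⁻¹ (fun c d =>
        if B i * (a * b) * c * d = B j then w 1 (B i * (a * b)) (B j * d⁻¹) else 0)) +
      S4 (x i) (x i) (fun a b => S4 (x j)⁻¹ (x j)⁻¹ (fun c d =>
        if B i * (a * b) * c * d = B j then w 1 (B i * a) (B i * (a * b)) else 0)) := by
    intro i j
    rw [← S4_add]
    have e1 : ∀ a b, (S4 (x j)⁻¹ (x j)⁻¹ (fun c d => if B i * (a * b) * c * d = B j then w 1 (B i * (a * b)) (B j * d⁻¹) else 0)) +
        S4 (x j)⁻¹ (x j)⁻¹ (fun c d => if B i * (a * b) * c * d = B j then w 1 (B i * a) (B i * (a * b)) else 0) =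
        S4 (x j)⁻¹ (x j)⁻¹ (fun c d => T (ι (B i * a)) (ι (b * c)) (ι (d * (B j)⁻¹)) + T (ι b⁻¹) (ι (a⁻¹ * ((B i)⁻¹ * B j) * d⁻¹)) (ι c⁻¹)) := by
      intro a b
      rw [← S4_add]
      apply S4_congr
      intro c d
      rw [hT, hT]
      exact (point w hV winv w1 wc (B i) (B j) a b c d).symm
    rw [S4_congr _ _ e1]
    simp only [S4, mul_add, add_mul, one_mul, mul_one, inv_one, inv_inv, map_mul, map_one, T1, T2, T3, mul_assoc]
    abel
  simp only [hP]
  simp only [sum_add_distrib]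
  have h1 : ∑ j ∈ range h, ∑ i ∈ range j, S4 (x i) (x i) (fun a b => S4 (x j)⁻¹ (x j)⁻¹ (fun c d =>
        if B i * (a * b) * c * d = B j then w 1 (B i * (a * b)) (B j * d⁻¹) else 0)) = 0 := by
    apply sum_eq_zero
    intro j hj
    exact half1 w hV winv w1 w2 w0 hG x B h B0 hB j (mem_range.mp hj)
  have h2 : ∑ j ∈ range h, ∑ i ∈ range j, S4 (x i) (x i) (fun a b => S4 (x j)⁻¹ (x j)⁻¹ (fun c d =>
        if B i * (a * b) * c * d = B j then w 1 (B i * a) (B i * (a * b)) else 0)) = ∑ i ∈ range h, w 1 (B i * x i) (B (i + 1)) := by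
    rw [swap]
    apply sum_congr rfl
    intro i hi
    exact half2 w hV winv w1 w2 w0 x B h Bh hB i (mem_range.mp hi)
  have h3 : ∀ i, T (ι (B i) * (1 + ι (x i))) (ι (x i)⁻¹) ((1 + ι (x i)⁻¹) * ι (B i)⁻¹) = w 1 (B i) (B i * x i) := by
    intro i
    have e1 : T (ι (B i) * (1 + ι (x i))) (ι (x i)⁻¹) ((1 + ι (x i)⁻¹) * ι (B i)⁻¹) =
        (T (ι (B i)) (ι (x i)⁻¹) (ι (B i)⁻¹) + T (ι (B i)) (ι (x i)⁻¹) (ι ((x i)⁻¹ * (B i)⁻¹))) +
        (T (ι (B i * x i)) (ι (x i)⁻¹) (ι (B i)⁻¹) + T (ι (B i * x i)) (ι (x i)⁻¹) (ι ((x i)⁻¹ * (B i)⁻¹))) := by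
      simp only [mul_add, add_mul, one_mul, mul_one, map_mul, T1, T3]
    rw [e1, hT, hT, hT, hT]
    have g1 : (if B i * (x i)⁻¹ * (B i)⁻¹ = 1 then w 1 (B i) (B i * (x i)⁻¹) else 0) = 0 := by
      split_ifs with hh
      · have h5 : (x i)⁻¹ = 1 := by
          have : (B i)⁻¹ * (B i * (x i)⁻¹ * (B i)⁻¹) * B i = 1 := by rw [hh]; group
          rw [← this]; group
        rw [h5, mul_one, f1]
      · rfl
    have g2 : (if B i * (x i)⁻¹ * ((x i)⁻¹ * (B i)⁻¹) = 1 then w 1 (B i) (B i * (x i)⁻¹) else 0) = 0 := by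
      split_ifs with hh
      · have h4 : (x i)⁻¹ * (x i)⁻¹ = 1 := by
          have : (B i)⁻¹ * (B i * (x i)⁻¹ * ((x i)⁻¹ * (B i)⁻¹)) * B i = 1 := by rw [hh]; group
          rw [← this]; group
        have h5 : (x i)⁻¹ = 1 := hG _ h4
        rw [h5, mul_one, f1]
      · rfl
    have g3 : (if B i * x i * (x i)⁻¹ * (B i)⁻¹ = 1 then w 1 (B i * x i) (B i * x i * (x i)⁻¹) else 0) = w 1 (B i) (B i * x i) := by
      rw [if_pos (by group), mul_inv_cancel_right, w2]
    have g4 : (if B i * x i * (x i)⁻¹ * ((x i)⁻¹ * (B i)⁻¹) = 1 then w 1 (B i * x i) (B i * x i * (x i)⁻¹) else 0) = 0 := by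
      split_ifs with hh
      · have h5 : (x i)⁻¹ = 1 := by
          have : (B i)⁻¹ * (B i * x i * (x i)⁻¹ * ((x i)⁻¹ * (B i)⁻¹)) * B i = 1 := by rw [hh]; group
          rw [← this]; group
        rw [mul_assoc, mul_inv_cancel, mul_one, ← inv_inv (x i), h5, inv_one, mul_one, f1]
      · rfl
    rw [g1, g2, g3, g4]
    simp
  have h4 : ∀ i, T (1 + ι (x i)⁻¹) (ι (x i)) (1 + ι (x i)) = 0 := by
    intro i
    have e1 : T (1 + ι (x i)⁻¹) (ι (x i)) (1 + ι (x i)) =
        (T (ι 1) (ι (x i)) (ι 1) + T (ι 1) (ι (x i)) (ι (x i))) + (T (ι (x i)⁻¹) (ι (x i)) (ι 1) + T (ι (x i)⁻¹) (ι (x i)) (ι (x i))) := by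
      simp only [map_one, T1, T3]
    rw [e1, hT, hT, hT, hT]
    have g0 : ∀ y, w 1 1 y = 0 := fun y => w0 1 y
    simp only [g0, ite_self, inv_mul_cancel, f3, add_zero]
  rw [h1, h2, zero_add]
  simp only [h3, h4, sum_const_zero, add_zero]
  abel

end

end Pool.Agent.Lib.MP8a3537.K2.Fan
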