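import Pool.Agent.Lib.MP_8a3537_gt.K2.Words

/-!
# `H_2(G; F_2)` and the injectivity statement
-/

namespace Pool.Agent.Lib.MP8a3537.K2

open Matrix MonoidAlgebra Pool.Agent.Lib.MP8a3537.D1

section

variable (G : Type) [Group G]

/-- the bar differential `[g] ↦ 0`, `[g|h] ↦ [h] + [gh] + [g]` with coefficients `ℤ/2` -/
noncomputable def d2 : (G × G →₀ ZMod 2) →ₗ[ZMod 2] (G →₀ ZMod 2) :=
  Finsupp.lsum (ZMod 2) fun p => LinearMap.toSpanSingleton (ZMod 2) _
    (Finsupp.single p.2 1 + Finsupp.single (p.1 * p.2) 1 + Finsupp.single p.1 1)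

/-- the bar differential `[g|h|k] ↦ [h|k] + [gh|k] + [g|hk] + [g|h]` with coefficients `ℤ/2` -/
noncomputable def d3 : (G × G × G →₀ ZMod 2) →ₗ[ZMod 2] (G × G →₀ ZMod 2) :=
  Finsupp.lsum (ZMod 2) fun p => LinearMap.toSpanSingleton (ZMod 2) _
    (Finsupp.single (p.2.1, p.2.2) 1 + Finsupp.single (p.1 * p.2.1, p.2.2) 1 +
      Finsupp.single (p.1, p.2.1 * p.2.2) 1 + Finsupp.single (p.1, p.2.1) 1)

/-- the boundaries, as a subspace of the cycles -/
noncomputable def boundaries : Submodule (ZMod 2) (LinearMap.ker (d2 G)) :=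
  (LinearMap.range (d3 G)).submoduleOf (LinearMap.ker (d2 G))

/-- `H_2(G; ℤ/2)`: the homology of the bar complex -/
abbrev H2 : Type := LinearMap.ker (d2 G) ⧸ boundaries G

variable {G}

lemma d2_single (g h : G) : d2 G (Finsupp.single (g, h) 1)
    = Finsupp.single h 1 + Finsupp.single (g * h) 1 + Finsupp.single g 1 := by
  simp [d2]

lemma d3_single (g h k : G) : d3 G (Finsupp.single (g, h, k) 1)
    = Finsupp.single (h, k) 1 + Finsupp.single (g * h, k) 1 + Finsupp.single (g, h * k) 1 +
      Finsupp.single (g, h) 1 := by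
  simp [d3]

lemma two_fin {X : Type*} (x : X →₀ ZMod 2) : x + x = 0 := by
  ext a
  simp [CharTwo.add_self_eq_zero]

lemma d2_d3 (g h k : G) : d2 G (d3 G (Finsupp.single (g, h, k) 1)) = 0 := by
  rw [d3_single, map_add, map_add, map_add, d2_single, d2_single, d2_single, d2_single,
    mul_assoc]
  have e : ∀ a b c d e f : G →₀ ZMod 2,
      a + b + c + (a + d + e) + (b + d + f) + (c + e + f)
        = (a + a) + (b + b) + (c + c) + (d + d) + (e + e) + (f + f) := by
    intro a b c d e f; abel
  rw [e]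
  simp only [two_fin, add_zero]

/-- The polygon `x_0 x_0 x_1 x_1 ⋯ x_(h-1) x_(h-1)` as a bar 2-chain: it is triangulated from its
first vertex. -/
noncomputable def chain (x : ℕ → G) (h : ℕ) : G × G →₀ ZMod 2 :=
  ∑ i ∈ Finset.range h, (Finsupp.single (bd x i, x i) 1 + Finsupp.single (bd x i * x i, x i) 1)

lemma d2_chain (x : ℕ → G) (h : ℕ) :
    d2 G (chain x h) = Finsupp.single 1 1 + Finsupp.single (bd x h) 1 := by
  induction h with
  | zero =>
    have : (bd x 0) = 1 := rfl
    rw [this, two_fin]; simp [chain]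
  | succ n ih =>
    have h1 : chain x (n + 1) = chain x n
        + (Finsupp.single (bd x n, x n) 1 + Finsupp.single (bd x n * x n, x n) 1) := by
      unfold chain; rw [Finset.sum_range_succ]
    have h2 : bd x (n + 1) = bd x n * x n * x n := by
      show bd x n * (x n * x n) = _
      rw [mul_assoc]
    rw [h1, map_add, ih, map_add, d2_single, d2_single, h2]
    have e : ∀ a b c d e : G →₀ ZMod 2,
        a + b + (c + d + b + (c + e + d)) = a + e + ((b + b) + (c + c) + (d + d)) := by
      intro a b c d e; abel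
    rw [e]
    simp only [two_fin, add_zero]

/-- The class in `H_2(G; ℤ/2)` of a word with `x_0² x_1² ⋯ x_(h-1)² = 1`: the image of the
fundamental class of the closed surface obtained from the polygon. -/
noncomputable def wordClass (x : ℕ → G) (h : ℕ) (hx : bd x h = 1) : H2 G :=
  Submodule.Quotient.mk ⟨chain x h, by
    rw [LinearMap.mem_ker, d2_chain, hx, two_fin]⟩

/-- every functional on `H_2` is the pairing with a cocycle -/
theorem exists_cocycle (δ : H2 G →+ ZMod 2) : ∃ om : G → G → ZMod 2,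
    (∀ g h k, om g h + om (g * h) k = om h k + om g (h * k)) ∧
      ∀ (x : ℕ → G) (h : ℕ) (hx : bd x h = 1), δ (wordClass x h hx) = pairing om x h := by
  let δ' : H2 G →ₗ[ZMod 2] ZMod 2 := δ.toZModLinearMap 2
  obtain ⟨g, hg⟩ := LinearMap.exists_extend
    (δ'.comp (boundaries G).mkQ)
  have hg' : ∀ c : LinearMap.ker (d2 G), g c.1 = δ (Submodule.Quotient.mk c) := by
    intro c
    exact LinearMap.congr_fun hg c
  refine ⟨fun a b => g (Finsupp.single (a, b) 1), ?_, ?_⟩
  · intro a b c
    have h1 : g (d3 G (Finsupp.single (a, b, c) 1)) = 0 := by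
      have h2 := hg' ⟨d3 G (Finsupp.single (a, b, c) 1), by
        rw [LinearMap.mem_ker]; exact d2_d3 a b c⟩
      rw [h2]
      have h3 : (Submodule.Quotient.mk ⟨d3 G (Finsupp.single (a, b, c) 1), by
          rw [LinearMap.mem_ker]; exact d2_d3 a b c⟩ : H2 G) = 0 := by
        rw [Submodule.Quotient.mk_eq_zero]
        exact ⟨_, rfl⟩
      rw [h3, map_zero]
    rw [d3_single, map_add, map_add, map_add] at h1
    have e : ∀ p q r s : ZMod 2, p + q + r + s = 0 → s + q = p + r := by decide
    exact e _ _ _ _ h1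
  · intro x h hx
    have h2 := hg' ⟨chain x h, by rw [LinearMap.mem_ker, d2_chain, hx, two_fin]⟩
    rw [wordClass, ← h2]
    unfold chain pairing
    rw [map_sum]
    refine Finset.sum_congr rfl fun i _ => ?_
    rw [map_add]

end

section

variable (K G : Type) [CommRing K] [CharP K 2] [Group G]

open TensorProduct

/-- the class of `c` in `K / {z² + z}` -/
noncomputable def asMk (c : K) : AS K := QuotientAddGroup.mk' _ c

/-- the invariants which we need -/
def HasInvariants : Prop :=
  ∀ om : G → G → ZMod 2, (∀ g h k, om g h + om (g * h) k = om h k + om g (h * k)) →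
    ∃ E : Invariant K G (AS K), ∀ (x : ℕ → G) (h : ℕ), bd x h = 1 → ∀ a b : K,
      E.e (Fin h ⊕ Fin h) (PhiForm K x h a b) = if pairing om x h = 0 then 0 else asMk K (a * b)

/-- A form over `R`, as a form over `R[G]`. -/
def IsConst {R G : Type} [CommRing R] [Group G] (c : NForm R G) : Prop :=
  ∃ c0 : Matrix c.κ c.κ R, c.mat = c0.map (MonoidAlgebra.single 1)

/-- The reduction of `ψ` to `K[G]` is the form `Φ_x ⊗ [a, b]`, up to the numbering of the base. -/
def IsLift {R K G : Type} [CommRing R] [CommRing K] [Group G] (f : R →+* K) (ψ : NForm R G)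
    (x : ℕ → G) (h : ℕ) (a b : K) : Prop :=
  ∃ σ : ψ.κ ≃ Fin h ⊕ Fin h,
    ψ.mat.map (MonoidAlgebra.mapRingHom G f) = (PhiForm K x h a b).submatrix σ σ

end

end Pool.Agent.Lib.MP8a3537.K2
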