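import Mathlib

/-!
# Symmetric representatives of 2-cocycles (MP_8a3537_gt, folder K2, section 3 of the paper)

`G` a group without elements of order two, `om` a 2-cocycle `G × G → ZMod 2`.  There is a homogeneous cocycle
`w : G³ → ZMod 2`, invariant under left translation, symmetric, zero on repeated arguments, which has the same value as `om`
on the words `x₁ x₁ x₂ x₂ ...`.
-/

namespace Pool.Agent.Lib.MP8a3537.K2

/-- a set which contains exactly one of `g`, `g⁻¹` for all `g ≠ 1` -/
theorem exists_half {G : Type*} [Group G] (hG : ∀ g : G, g * g = 1 → g = 1) :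
    ∃ P : G → Prop, ∀ g : G, g ≠ 1 → (P g ↔ ¬ P g⁻¹) := by
  classical
  obtain ⟨r, hr⟩ : ∃ r : G → G → Prop, IsWellOrder G r := ⟨_, WellOrderingRel.isWellOrder⟩
  refine ⟨fun g => r g g⁻¹, fun g hg => ?_⟩
  have hne : g ≠ g⁻¹ := by
    intro h
    apply hg
    apply hG
    calc g * g = g * g⁻¹ := by rw [← h]
      _ = 1 := mul_inv_cancel g
  simp only [inv_inv]
  constructor
  · intro h h'
    exact asymm_of r h h'
  · intro h
    rcases trichotomous_of r g g⁻¹ with h1 | h1 | h1
    · exact h1
    · exact absurd h1 hne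
    · exact absurd h1 h

theorem z2 (a : ZMod 2) : a + a = 0 := CharTwo.add_self_eq_zero a

section
variable {G : Type*} [Group G]

/-- the homogeneous normalised cocycle of `om` -/
def hom3 (om : G → G → ZMod 2) (x y z : G) : ZMod 2 := om (x⁻¹ * y) (y⁻¹ * z) + om 1 1

variable {om : G → G → ZMod 2} (hom : ∀ g h k, om g h + om (g * h) k = om h k + om g (h * k))

include hom

theorem om_one_left (h : G) : om 1 h = om 1 1 := by
  have h1 := hom 1 1 h
  rw [one_mul, one_mul] at h1
  have : om 1 1 + om 1 h = om 1 h + om 1 h := h1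
  exact (add_right_cancel this).symm

theorem om_one_right (g : G) : om g 1 = om 1 1 := by
  have h1 := hom g 1 1
  rw [mul_one, one_mul] at h1
  have : om g 1 + om g 1 = om 1 1 + om g 1 := h1
  exact add_right_cancel this

theorem hom3_left (x z : G) : hom3 om x x z = 0 := by
  unfold hom3
  rw [inv_mul_cancel, om_one_left hom]
  exact z2 _

theorem hom3_right (x z : G) : hom3 om x z z = 0 := by
  unfold hom3
  rw [inv_mul_cancel, om_one_right hom]
  exact z2 _

omit hom in
theorem hom3_inv (g x y z : G) : hom3 om (g * x) (g * y) (g * z) = hom3 om x y z := by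
  unfold hom3
  congr 2 <;> group

theorem hom3_cocycle (x y z t : G) :
    hom3 om y z t + hom3 om x z t + hom3 om x y t + hom3 om x y z = 0 := by
  unfold hom3
  have h := hom (x⁻¹ * y) (y⁻¹ * z) (z⁻¹ * t)
  have e1 : x⁻¹ * y * (y⁻¹ * z) = x⁻¹ * z := by group
  have e2 : y⁻¹ * z * (z⁻¹ * t) = y⁻¹ * t := by group
  rw [e1, e2] at h
  generalize om (x⁻¹ * y) (y⁻¹ * z) = a at *
  generalize om (x⁻¹ * z) (z⁻¹ * t) = b at *
  generalize om (y⁻¹ * z) (z⁻¹ * t) = c at *
  generalize om (x⁻¹ * y) (y⁻¹ * t) = d at *
  generalize om 1 1 = e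
  revert a b c d e
  decide

theorem hom3_flip (x y : G) : hom3 om y x y = hom3 om x y x := by
  have h := hom3_cocycle hom x y x y
  rw [hom3_left hom, hom3_right hom, add_zero, add_zero] at h
  have h2 := z2 (hom3 om x y x)
  exact add_right_cancel (h.trans h2.symm)

end

/-- section 3 of the paper: a symmetric representative, with the same value on words `x₀ x₀ x₁ x₁ ...` -/
theorem exists_sym {G : Type*} [Group G] (hG : ∀ g : G, g * g = 1 → g = 1) (om : G → G → ZMod 2)
    (hom : ∀ g h k, om g h + om (g * h) k = om h k + om g (h * k)) :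
    ∃ w : G → G → G → ZMod 2, (∀ g x y z, w (g * x) (g * y) (g * z) = w x y z) ∧
      (∀ x y z, w y x z = w x y z) ∧ (∀ x y z, w x z y = w x y z) ∧ (∀ x y, w x x y = 0) ∧
      (∀ x y z t, w y z t + w x z t + w x y t + w x y z = 0) ∧
      ∀ (h : ℕ) (x B : ℕ → G), B 0 = 1 → (∀ i < h, B (i + 1) = B i * (x i * x i)) → B h = 1 →
        ∑ i ∈ Finset.range h, (w 1 (B i) (B i * x i) + w 1 (B i * x i) (B (i + 1))) =
          ∑ i ∈ Finset.range h, (om (B i) (x i) + om (B i * x i) (x i)) := by
  classical
  obtain ⟨P, hP⟩ := exists_half hG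
  -- the cochain `b`
  obtain ⟨β, hβ⟩ : ∃ β : G → ZMod 2, β = fun g => if g = 1 ∨ P g then 0 else hom3 om 1 g 1 := ⟨_, rfl⟩
  have hβ1 : β 1 = 0 := by rw [hβ]; simp
  have hinv : ∀ x y : G, hom3 om x y x = hom3 om 1 (x⁻¹ * y) 1 := by
    intro x y
    have := hom3_inv (om := om) x⁻¹ x y x
    rw [inv_mul_cancel] at this
    exact this.symm
  have hββ : ∀ x y : G, β (x⁻¹ * y) + β (y⁻¹ * x) = hom3 om x y x := by
    intro x y
    rcases eq_or_ne (x⁻¹ * y) 1 with h | h
    · have hxy : y = x := by
        have := congrArg (x * ·) h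
        simpa using this
      subst hxy
      rw [inv_mul_cancel, hβ1, hom3_left hom, add_zero]
    · have h' : y⁻¹ * x ≠ 1 := by
        intro e
        apply h
        have := congrArg (·⁻¹) e
        simpa using this
      have hinvg : (x⁻¹ * y)⁻¹ = y⁻¹ * x := by group
      have hPP := hP _ h
      rw [hinvg] at hPP
      rw [hβ]
      simp only [h, h', false_or]
      by_cases hp : P (x⁻¹ * y)
      · have hn : ¬ P (y⁻¹ * x) := hPP.1 hp
        rw [if_pos hp, if_neg hn, zero_add, ← hinv, hom3_flip hom]
      · have hn : P (y⁻¹ * x) := by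
          by_contra hc
          exact hp (hPP.2 hc)
        rw [if_neg hp, if_pos hn, add_zero, ← hinv]
  obtain ⟨w, hw⟩ : ∃ w : G → G → G → ZMod 2, w = fun x y z =>
      hom3 om x y z + β (x⁻¹ * y) + β (y⁻¹ * z) + β (x⁻¹ * z) := ⟨_, rfl⟩
  have w_left : ∀ x y, w x x y = 0 := by
    intro x y
    rw [hw]
    simp only
    rw [inv_mul_cancel, hβ1, hom3_left hom, zero_add, zero_add]
    exact z2 _
  have w_right : ∀ x y, w x y y = 0 := by
    intro x y
    rw [hw]
    simp only
    rw [inv_mul_cancel, hβ1, hom3_right hom, zero_add, add_zero]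
    exact z2 _
  have w_mid : ∀ x y, w x y x = 0 := by
    intro x y
    rw [hw]
    simp only
    rw [inv_mul_cancel, hβ1, add_zero, add_assoc, hββ]
    exact z2 _
  have w_coc : ∀ x y z t, w y z t + w x z t + w x y t + w x y z = 0 := by
    intro x y z t
    have h := hom3_cocycle hom x y z t
    rw [hw]
    simp only
    generalize hom3 om y z t = a at *
    generalize hom3 om x z t = b at *
    generalize hom3 om x y t = c at *
    generalize hom3 om x y z = d at *
    generalize β (y⁻¹ * z) = e1
    generalize β (z⁻¹ * t) = e2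
    generalize β (y⁻¹ * t) = e3
    generalize β (x⁻¹ * z) = e4
    generalize β (x⁻¹ * t) = e5
    generalize β (x⁻¹ * y) = e6
    have : a + e1 + e2 + e3 + (b + e4 + e2 + e5) + (c + e6 + e3 + e5) + (d + e6 + e1 + e4) =
      (a + b + c + d) + (e1 + e1) + (e2 + e2) + (e3 + e3) + (e4 + e4) + (e5 + e5) + (e6 + e6) := by ring
    rw [this, h]
    simp only [z2, add_zero]
  refine ⟨w, ?_, ?_, ?_, w_left, w_coc, ?_⟩
  · intro g x y z
    rw [hw]
    simp only
    have c1 : (g * x)⁻¹ * (g * y) = x⁻¹ * y := by group
    have c2 : (g * y)⁻¹ * (g * z) = y⁻¹ * z := by group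
    have c3 : (g * x)⁻¹ * (g * z) = x⁻¹ * z := by group
    rw [hom3_inv, c1, c2, c3]
  · intro x y z
    have h := w_coc x y x z
    rw [w_left, w_mid, add_zero, add_zero] at h
    exact add_right_cancel (h.trans (z2 (w x y z)).symm)
  · intro x y z
    have h := w_coc x y z y
    rw [w_mid, w_right, zero_add, add_zero] at h
    exact add_right_cancel (h.trans (z2 (w x y z)).symm)
  · intro h x B hB0 hB hBh
    have step : ∀ i < h, w 1 (B i) (B i * x i) + w 1 (B i * x i) (B (i + 1)) =
        (om (B i) (x i) + om (B i * x i) (x i)) + (β (B i) + β (B (i + 1))) := by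
      intro i hi
      rw [hB i hi, hw]
      simp only [hom3]
      have e1 : (B i)⁻¹ * (B i * x i) = x i := by group
      have e2 : (B i * x i)⁻¹ * (B i * (x i * x i)) = x i := by group
      rw [e1, e2]
      simp only [inv_one, one_mul]
      generalize om (B i) (x i) = a
      generalize om (B i * x i) (x i) = b
      generalize om 1 1 = c
      generalize β (B i) = e1
      generalize β (x i) = e2
      generalize β (B i * x i) = e3
      generalize β (B i * (x i * x i)) = e4
      have : a + c + e1 + e2 + e3 + (b + c + e3 + e2 + e4) =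
        a + b + (e1 + e4) + (c + c) + (e2 + e2) + (e3 + e3) := by ring
      rw [this, z2, z2, z2]
      simp
    have key : ∀ m ≤ h, ∑ i ∈ Finset.range m, (w 1 (B i) (B i * x i) + w 1 (B i * x i) (B (i + 1))) =
        ∑ i ∈ Finset.range m, (om (B i) (x i) + om (B i * x i) (x i)) + (β (B 0) + β (B m)) := by
      intro m
      induction m with
      | zero => intro _; simp [z2]
      | succ m ih =>
        intro hm
        rw [Finset.sum_range_succ, Finset.sum_range_succ, ih (by omega), step m (by omega)]
        generalize ∑ i ∈ Finset.range m, (om (B i) (x i) + om (B i * x i) (x i)) = s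
        generalize om (B m) (x m) + om (B m * x m) (x m) = a
        generalize β (B 0) = e0
        generalize β (B m) = e1
        generalize β (B (m + 1)) = e2
        have : s + (e0 + e1) + (a + (e1 + e2)) = s + a + (e0 + e2) + (e1 + e1) := by ring
        rw [this, z2, add_zero]
    rw [key h le_rfl, hB0, hBh, z2, add_zero]

end Pool.Agent.Lib.MP8a3537.K2
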