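import Pool.Agent.Lib.MP_8a3537_gt.K2.Simple
import Pool.Agent.Lib.MP_8a3537_gt.K2.Homology
import Pool.Agent.Lib.MP_8a3537_gt.K2.Sym

/-!
# The degree two theorem
-/

namespace Pool.Agent.Lib.MP8a3537.K2

open Matrix MonoidAlgebra Pool.Agent.Lib.MP8a3537.D1 TensorProduct

section

variable {K G : Type} [CommRing K] [CharP K 2] [Group G]

lemma z2_idem (a : ZMod 2) : a * a = a := by revert a; decide

/-- a symmetric homogeneous cocycle in inhomogeneous notation -/
noncomputable def symC (w : G → G → G → ZMod 2)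
    (hinv : ∀ g x y z, w (g * x) (g * y) (g * z) = w x y z)
    (h12 : ∀ x y z, w y x z = w x y z) (h23 : ∀ x y z, w x z y = w x y z)
    (h0 : ∀ x y, w x x y = 0)
    (hc : ∀ x y z t, w y z t + w x z t + w x y t + w x y z = 0) : SymC K G where
  w g h := ZMod.castHom (dvd_refl 2) K (w 1 g (g * h))
  one_w g := by rw [h0, map_zero]
  w_one g := by
    have : w 1 g (g * 1) = 0 := by
      rw [mul_one, ← h12, ← h23, h0]
    rw [this, map_zero]
  w_inv g := by
    have : w 1 g (g * g⁻¹) = 0 := by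
      rw [mul_inv_cancel, ← h23, h0]
    rw [this, map_zero]
  cyc g h := by
    congr 1
    have h1 := hinv g 1 h (h * (g * h)⁻¹)
    have h2 : g * (h * (g * h)⁻¹) = 1 := by group
    rw [h2, mul_one, h23, h12] at h1
    rw [← h1, h12, h23, h12]
  inv g h := by
    congr 1
    have h1 := hinv (g * h) 1 h⁻¹ (h⁻¹ * g⁻¹)
    have h2 : g * h * (h⁻¹ * g⁻¹) = 1 := by group
    have h3 : g * h * h⁻¹ = g := by group
    rw [h2, h3, mul_one] at h1
    rw [← h1, h12, h23, h12]
  cocyc g h k := by
    have h1 := hinv g 1 h (h * k)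
    have h2 := hc 1 g (g * h) (g * h * k)
    have h3 : g * (h * k) = g * h * k := by group
    rw [h3, mul_one] at h1
    have h4 : w 1 g (g * (h * k)) = w 1 g (g * h * k) := by rw [h3]
    rw [h4, ← h1, ← map_add, ← map_add, ← map_add, h2, map_zero]
  idem g h := by
    rw [← map_mul, z2_idem]

/-- the value of the invariants on the forms `Φ_x ⊗ [a, b]` -/
def HasValues (K G : Type) [CommRing K] [CharP K 2] [Group G]
    (hG : ∀ g : G, g * g = 1 → g = 1) : Prop :=
  ∀ (c : SymC K G) (x : ℕ → G) (h : ℕ), bd x h = 1 → ∀ a b : K,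
    (inv2 c hG).e (Fin h ⊕ Fin h) (PhiForm K x h a b)
      = asMk K ((∑ i ∈ Finset.range h, (c.w (bd x i) (x i) + c.w (bd x i * x i) (x i))) * (a * b))

theorem hasInvariants_of_values (hG : ∀ g : G, g * g = 1 → g = 1) (hv : HasValues K G hG) :
    HasInvariants K G := by
  intro om hom
  obtain ⟨w, w1, w2, w3, w4, w5, w6⟩ := exists_sym hG om hom
  refine ⟨inv2 (symC w w1 w2 w3 w4 w5) hG, fun x h hx a b => ?_⟩
  rw [hv _ x h hx a b]
  have h1 := w6 h x (bd x) rfl (fun i _ => rfl) hx
  have h2 : ∑ i ∈ Finset.range h, ((symC w w1 w2 w3 w4 w5 : SymC K G).w (bd x i) (x i)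
      + (symC w w1 w2 w3 w4 w5 : SymC K G).w (bd x i * x i) (x i))
      = ZMod.castHom (dvd_refl 2) K (pairing om x h) := by
    unfold pairing
    rw [← h1, map_sum]
    refine Finset.sum_congr rfl fun i _ => ?_
    rw [map_add]
    congr 1
    show ZMod.castHom (dvd_refl 2) K (w 1 (bd x i * x i) (bd x i * x i * x i))
      = ZMod.castHom (dvd_refl 2) K (w 1 (bd x i * x i) (bd x i * (x i * x i)))
    rw [mul_assoc (bd x i) (x i) (x i)]
  rw [h2]
  have h3 : ∀ p : ZMod 2, asMk K (ZMod.castHom (dvd_refl 2) K p * (a * b))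
      = if p = 0 then 0 else asMk K (a * b) := by
    intro p
    have : p = 0 ∨ p = 1 := by revert p; decide
    rcases this with rfl | rfl
    · rw [map_zero, zero_mul, if_pos rfl]
      exact map_zero (QuotientAddGroup.mk' (wp K).range)
    · rw [map_one, one_mul, if_neg one_ne_zero]
  exact h3 _

end

end Pool.Agent.Lib.MP8a3537.K2
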