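import Pool.Agent.Lib.MP_8a3537_gt.D1.Mat
import Pool.Agent.Lib.MP_8a3537_gt.D1.Tensor

/-!
# The group `L_0^s(R[G])`

Definitions for the degree two theorem of MP_8a3537_gt.  `R` is a commutative ring, `G` a group,
`A = R[G]` with the involution `∑ a_g g ↦ ∑ a_g g⁻¹`.
-/

namespace Pool.Agent.Lib.MP8a3537.K2

open Matrix MonoidAlgebra Pool.Agent.Lib.MP8a3537.D1

section Forms

variable (R G : Type) [CommRing R] [Group G]

/-- The simple invertible matrices over `R[G]`: the group generated by the elementary matrices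
`1 + a e_ij` (`i ≠ j`), the invertible matrices over `R` and the diagonal matrices with entries
in `G`. -/
noncomputable def Simple (κ : Type) [Fintype κ] [DecidableEq κ] : Subgroup (Matrix κ κ (MonoidAlgebra R G))ˣ :=
  Subgroup.closure {u | (∃ (i j : κ) (a : MonoidAlgebra R G), i ≠ j ∧
      u.val = 1 + Matrix.single i j a) ∨
    (∃ c : Matrix κ κ R, u.val = c.map (MonoidAlgebra.single 1)) ∨
    (∃ g : κ → G, u.val = Matrix.diagonal (fun i => MonoidAlgebra.single (g i) 1))}

/-- A nonsingular quadratic form on the free based module `R[G]^κ`: the class of the matrix `mat`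
modulo matrices `η - η^*`, with `mat + mat^*` invertible. -/
structure NForm where
  κ : Type
  [fin : Fintype κ]
  [dec : DecidableEq κ]
  mat : Matrix κ κ (MonoidAlgebra R G)
  nonsing : IsUnit (mat + dual mat)

attribute [instance] NForm.fin NForm.dec

/-- The relations of `L_0^s(R[G])`. -/
inductive Rel : FreeAbelianGroup (NForm R G) → Prop
  /-- orthogonal sums -/
  | sum (ψ φ θ : NForm R G) (σ : θ.κ ≃ ψ.κ ⊕ φ.κ)
      (h : θ.mat = (Matrix.fromBlocks ψ.mat 0 0 φ.mat).submatrix σ σ) :
      Rel (FreeAbelianGroup.of θ - FreeAbelianGroup.of ψ - FreeAbelianGroup.of φ)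
  /-- simple changes of the base, and addition of `η - η^*` -/
  | iso (ψ φ : NForm R G) (σ : φ.κ ≃ ψ.κ) (u : (Matrix ψ.κ ψ.κ (MonoidAlgebra R G))ˣ)
      (hu : u ∈ Simple R G ψ.κ) (η : Matrix ψ.κ ψ.κ (MonoidAlgebra R G))
      (h : φ.mat = (dual u.val * ψ.mat * u.val + η - dual η).submatrix σ σ) :
      Rel (FreeAbelianGroup.of φ - FreeAbelianGroup.of ψ)
  /-- hyperbolic forms -/
  | hyp (ψ : NForm R G) (κ : Type) (σ : ψ.κ ≃ κ ⊕ κ) (_ : DecidableEq κ)
      (h : ψ.mat = (hyp R G κ).submatrix σ σ) : Rel (FreeAbelianGroup.of ψ)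

/-- `L_0^s(R[G])`: the Witt group of nonsingular quadratic forms on free based `R[G]`-modules,
with simple changes of the base. -/
def L0s : Type 1 := FreeAbelianGroup (NForm R G) ⧸ AddSubgroup.closure {x | Rel R G x}

noncomputable instance : AddCommGroup (L0s R G) :=
  inferInstanceAs (AddCommGroup (FreeAbelianGroup (NForm R G) ⧸ AddSubgroup.closure {x | Rel R G x}))

variable {R G}

/-- The class of a nonsingular form in `L_0^s(R[G])`. -/
noncomputable def NForm.cls (ψ : NForm R G) : L0s R G :=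
  QuotientAddGroup.mk' _ (FreeAbelianGroup.of ψ)

variable {K : Type} [CommRing K]

/-- An invariant of nonsingular forms which is additive and does not see even changes and forms
over `K`, and changes under a change `u` of the base by `h(u)`, where `h` is a homomorphism which
is zero on simple matrices. -/
structure Invariant (K G V : Type) [CommRing K] [Group G] [AddCommGroup V] where
  e : (κ : Type) → [Fintype κ] → [DecidableEq κ] → Matrix κ κ (MonoidAlgebra K G) → V
  h : (κ : Type) → [Fintype κ] → [DecidableEq κ] → (Matrix κ κ (MonoidAlgebra K G))ˣ →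
    V
  h_mul : ∀ (κ : Type) [Fintype κ] [DecidableEq κ] (u v : (Matrix κ κ (MonoidAlgebra K G))ˣ),
    h κ (u * v) = h κ u + h κ v
  h_simple : ∀ (κ : Type) [Fintype κ] [DecidableEq κ] (u : (Matrix κ κ (MonoidAlgebra K G))ˣ),
    u ∈ Simple K G κ → h κ u = 0
  reindex : ∀ (κ μ : Type) [Fintype κ] [DecidableEq κ] [Fintype μ] [DecidableEq μ]
    (σ : κ ≃ μ) (ψ : Matrix μ μ (MonoidAlgebra K G)), IsUnit (ψ + dual ψ) →
      e κ (ψ.submatrix σ σ) = e μ ψ
  sum : ∀ (κ μ : Type) [Fintype κ] [DecidableEq κ] [Fintype μ] [DecidableEq μ]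
    (ψ : Matrix κ κ (MonoidAlgebra K G)) (φ : Matrix μ μ (MonoidAlgebra K G)),
      IsUnit (ψ + dual ψ) → IsUnit (φ + dual φ) →
        e (κ ⊕ μ) (Matrix.fromBlocks ψ 0 0 φ) = e κ ψ + e μ φ
  even : ∀ (κ : Type) [Fintype κ] [DecidableEq κ] (ψ η : Matrix κ κ (MonoidAlgebra K G)),
    IsUnit (ψ + dual ψ) → e κ (ψ + η + dual η) = e κ ψ
  base : ∀ (κ : Type) [Fintype κ] [DecidableEq κ] (ψ : Matrix κ κ (MonoidAlgebra K G))
    (u : (Matrix κ κ (MonoidAlgebra K G))ˣ), IsUnit (ψ + dual ψ) →
      e κ (dual u.val * ψ * u.val) = e κ ψ + h κ u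
  const : ∀ (κ : Type) [Fintype κ] [DecidableEq κ] (c : Matrix κ κ K),
    e κ (c.map (MonoidAlgebra.single 1)) = 0

section

lemma dual_submatrix {m n k l : Type*} (x : Matrix m n (MonoidAlgebra K G)) (f : k → m)
    (g : l → n) : dual (x.submatrix f g) = (dual x).submatrix g f := by
  ext1 i j
  simp [dual]

variable [CharP K 2]

lemma nonsing_even {κ : Type*} [Fintype κ] [DecidableEq κ] (ψ η : Matrix κ κ (MonoidAlgebra K G)) :
    (ψ + η + dual η) + dual (ψ + η + dual η) = ψ + dual ψ := by
  have h2 : ∀ x : Matrix κ κ (MonoidAlgebra K G), x + x = 0 := by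
    intro x
    ext1 i j
    have h : (2 : K) = 0 := CharP.cast_eq_zero K 2
    rw [Matrix.add_apply, Matrix.zero_apply, ← two_smul K (x i j), h, zero_smul]
  rw [dual_add, dual_add, dual_dual]
  have : ψ + η + dual η + (dual ψ + dual η + η) = (ψ + dual ψ) + (η + η) + (dual η + dual η) := by
    abel
  rw [this, h2, h2, add_zero, add_zero]

omit [CharP K 2] in
lemma nonsing_base {κ : Type*} [Fintype κ] [DecidableEq κ] (ψ : Matrix κ κ (MonoidAlgebra K G))
    (u : (Matrix κ κ (MonoidAlgebra K G))ˣ) (h : IsUnit (ψ + dual ψ)) :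
    IsUnit (dual u.val * ψ * u.val + dual (dual u.val * ψ * u.val)) := by
  have h1 : dual u.val * ψ * u.val + dual (dual u.val * ψ * u.val)
      = dual u.val * (ψ + dual ψ) * u.val := by
    rw [dual_mul, dual_mul, dual_dual, ← Matrix.mul_assoc, Matrix.mul_add, Matrix.add_mul]
  rw [h1]
  have h2 : IsUnit (dual u.val) := by
    refine ⟨⟨dual u.val, dual u⁻¹.val, ?_, ?_⟩, rfl⟩
    · rw [← dual_mul, Units.inv_mul, dual_one]
    · rw [← dual_mul, Units.mul_inv, dual_one]
  exact (h2.mul h).mul u.isUnit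

omit [CharP K 2] in
/-- the homomorphism `R[G] → K[G]` of group rings -/
lemma conj_map (f : R →+* K) (x : MonoidAlgebra R G) :
    conj (MonoidAlgebra.mapRingHom G f x) = MonoidAlgebra.mapRingHom G f (conj x) := by
  induction x using MonoidAlgebra.induction_linear with
  | zero => rw [map_zero, conj_zero, conj_zero, map_zero]
  | add x y hx hy => rw [map_add, conj_add, conj_add, map_add, hx, hy]
  | single g r =>
    rw [MonoidAlgebra.mapRingHom_single, conj_single, conj_single, MonoidAlgebra.mapRingHom_single]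

omit [CharP K 2] in
lemma dual_map (f : R →+* K) {m n : Type*} (x : Matrix m n (MonoidAlgebra R G)) :
    dual (x.map (MonoidAlgebra.mapRingHom G f)) = (dual x).map (MonoidAlgebra.mapRingHom G f) := by
  ext1 i j
  exact conj_map f (x j i)

omit [CharP K 2] in
lemma isUnit_map (f : R →+* K) {κ : Type*} [Fintype κ] [DecidableEq κ]
    (ψ : Matrix κ κ (MonoidAlgebra R G)) (h : IsUnit (ψ + dual ψ)) :
    IsUnit (ψ.map (MonoidAlgebra.mapRingHom G f) + dual (ψ.map (MonoidAlgebra.mapRingHom G f))) := by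
  rw [dual_map]
  have h1 := h.map (MonoidAlgebra.mapRingHom G f).mapMatrix
  rwa [map_add] at h1

omit [CharP K 2] in
lemma simple_map (f : R →+* K) {κ : Type} [Fintype κ] [DecidableEq κ]
    (u : (Matrix κ κ (MonoidAlgebra R G))ˣ) (hu : u ∈ Simple R G κ) :
    Units.map (MonoidAlgebra.mapRingHom G f).mapMatrix.toMonoidHom u ∈ Simple K G κ := by
  have h : Simple R G κ ≤ (Simple K G κ).comap
      (Units.map (MonoidAlgebra.mapRingHom G f).mapMatrix.toMonoidHom) := by
    unfold Simple
    rw [Subgroup.closure_le]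
    rintro v (⟨i, j, a, hij, hv⟩ | ⟨x, hv⟩ | ⟨g, hv⟩)
    · refine Subgroup.subset_closure (Or.inl ⟨i, j, MonoidAlgebra.mapRingHom G f a, hij, ?_⟩)
      show (MonoidAlgebra.mapRingHom G f).mapMatrix v.val = _
      rw [hv, map_add, map_one]
      congr 1
      exact Matrix.map_single _ _ _ (MonoidAlgebra.mapRingHom G f)
    · refine Subgroup.subset_closure (Or.inr (Or.inl ⟨x.map f, ?_⟩))
      show (MonoidAlgebra.mapRingHom G f).mapMatrix v.val = _
      rw [hv]
      ext1 i j
      exact MonoidAlgebra.mapRingHom_single _ _ _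
    · refine Subgroup.subset_closure (Or.inr (Or.inr ⟨g, ?_⟩))
      show (MonoidAlgebra.mapRingHom G f).mapMatrix v.val = _
      rw [hv]
      ext1 i j
      show MonoidAlgebra.mapRingHom G f (Matrix.diagonal _ i j) = _
      by_cases hij : i = j
      · subst hij
        rw [Matrix.diagonal_apply_eq, Matrix.diagonal_apply_eq, MonoidAlgebra.mapRingHom_single,
          map_one]
      · rw [Matrix.diagonal_apply_ne _ hij, Matrix.diagonal_apply_ne _ hij, map_zero]
  exact h hu

/-- an invariant with values in a group `V` defines a homomorphism on `L_0^s(R[G])` -/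
theorem Invariant.lift {V : Type} [AddCommGroup V] (f : R →+* K) (E : Invariant K G V) :
    ∃ F : L0s R G →+ V, (∀ ψ : NForm R G,
      F ψ.cls = E.e ψ.κ (ψ.mat.map (MonoidAlgebra.mapRingHom G f))) ∧
      ∀ (ψ φ : NForm R G) (σ : φ.κ ≃ ψ.κ) (u : (Matrix ψ.κ ψ.κ (MonoidAlgebra R G))ˣ)
        (η : Matrix ψ.κ ψ.κ (MonoidAlgebra R G)),
        φ.mat = (dual u.val * ψ.mat * u.val + η - dual η).submatrix σ σ →
        F φ.cls = F ψ.cls + E.h ψ.κ
          (Units.map (MonoidAlgebra.mapRingHom G f).mapMatrix.toMonoidHom u) := by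
  obtain ⟨m, hm⟩ : ∃ m, MonoidAlgebra.mapRingHom G f = m := ⟨_, rfl⟩
  have hbase : ∀ (ψ φ : NForm R G) (σ : φ.κ ≃ ψ.κ) (u : (Matrix ψ.κ ψ.κ (MonoidAlgebra R G))ˣ)
      (η : Matrix ψ.κ ψ.κ (MonoidAlgebra R G)),
      φ.mat = (dual u.val * ψ.mat * u.val + η - dual η).submatrix σ σ →
      E.e φ.κ (φ.mat.map m) = E.e ψ.κ (ψ.mat.map m) + E.h ψ.κ
        (Units.map (MonoidAlgebra.mapRingHom G f).mapMatrix.toMonoidHom u) := by
    intro ψ φ σ u η h
    have h2 : ∀ y : Matrix ψ.κ ψ.κ (MonoidAlgebra K G), y + y = 0 := by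
      intro y
      ext1 i j
      have h : (2 : K) = 0 := CharP.cast_eq_zero K 2
      rw [Matrix.add_apply, Matrix.zero_apply, ← two_smul K (y i j), h, zero_smul]
    obtain ⟨v, hv⟩ : ∃ v, Units.map (MonoidAlgebra.mapRingHom G f).mapMatrix.toMonoidHom u = v :=
      ⟨_, rfl⟩
    have hv2 : v.val = u.val.map m := by rw [← hv, ← hm]; rfl
    have h' : φ.mat.map m = (dual v.val * (ψ.mat.map m) * v.val + η.map m
        + dual (η.map m)).submatrix σ σ := by
      have h3 : (dual u.val * ψ.mat * u.val + η - dual η).map m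
          = dual v.val * (ψ.mat.map m) * v.val + η.map m + dual (η.map m) := by
        have h4 := dual_map f u.val
        have h5 := dual_map f η
        rw [hm] at h4 h5
        have h6 : m.mapMatrix (dual u.val * ψ.mat * u.val + η - dual η)
            = m.mapMatrix (dual u.val) * m.mapMatrix ψ.mat * m.mapMatrix u.val
              + m.mapMatrix η - m.mapMatrix (dual η) := by
          rw [map_sub, map_add, map_mul, map_mul]
        rw [hv2, h4, h5]
        have h7 := h2 ((dual η).map m)
        refine h6.trans ?_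
        show (dual u.val).map m * ψ.mat.map m * u.val.map m + η.map m - (dual η).map m = _
        rw [sub_eq_add_neg, neg_eq_of_add_eq_zero_left h7]
      rw [h, ← Matrix.submatrix_map, h3]
    have h0 := isUnit_map f ψ.mat ψ.nonsing
    rw [hm] at h0
    have h1 := nonsing_base (ψ.mat.map m) v h0
    rw [h', E.reindex _ _ σ _ (by rw [nonsing_even]; exact h1), E.even _ _ _ h1,
      E.base _ _ _ h0, hv]
  let f0 : FreeAbelianGroup (NForm R G) →+ V :=
    FreeAbelianGroup.lift fun ψ => E.e ψ.κ (ψ.mat.map m)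
  have hf0 : ∀ ψ : NForm R G, f0 (FreeAbelianGroup.of ψ) = E.e ψ.κ (ψ.mat.map m) := fun ψ =>
    FreeAbelianGroup.lift_apply_of _ _
  have h : AddSubgroup.closure {x | Rel R G x} ≤ f0.ker := by
    rw [AddSubgroup.closure_le]
    intro x hx
    rw [SetLike.mem_coe, AddMonoidHom.mem_ker]
    cases hx with
    | sum ψ φ θ σ h =>
      have h' : θ.mat.map m
          = (Matrix.fromBlocks (ψ.mat.map m) 0 0 (φ.mat.map m)).submatrix σ σ := by
        rw [h, ← Matrix.submatrix_map, Matrix.fromBlocks_map]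
        congr 2
        · ext1 i j; exact map_zero m
        · ext1 i j; exact map_zero m
      rw [map_sub, map_sub, hf0, hf0, hf0, h']
      have h1 := isUnit_map f ψ.mat ψ.nonsing
      have h2 := isUnit_map f φ.mat φ.nonsing
      rw [hm] at h1 h2
      have hn : IsUnit (Matrix.fromBlocks (ψ.mat.map m) 0 0 (φ.mat.map m)
          + dual (Matrix.fromBlocks (ψ.mat.map m) 0 0 (φ.mat.map m))) := by
        obtain ⟨a, ha⟩ := h1
        obtain ⟨b, hb⟩ := h2
        rw [dual_fromBlocks, dual_zero, dual_zero, Matrix.fromBlocks_add, add_zero, add_zero,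
          ← ha, ← hb]
        refine ⟨⟨Matrix.fromBlocks a.val 0 0 b.val, Matrix.fromBlocks a⁻¹.val 0 0 b⁻¹.val,
          ?_, ?_⟩, rfl⟩
        · rw [Matrix.fromBlocks_multiply]; simp
        · rw [Matrix.fromBlocks_multiply]; simp
      rw [E.reindex _ _ σ _ hn, E.sum _ _ _ _ h1 h2]
      abel
    | iso ψ φ σ u hu η h =>
      rw [map_sub, hf0, hf0, hbase ψ φ σ u η h, E.h_simple _ _ (simple_map f u hu), add_zero,
        sub_self]
    | hyp ψ κ σ dec h =>
      have : Fintype κ := by
        have : Fintype (κ ⊕ κ) := Fintype.ofEquiv _ σ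
        exact Fintype.ofInjective (Sum.inl : κ → κ ⊕ κ) Sum.inl_injective
      have h' : ψ.mat.map m = (hyp K G κ).submatrix σ σ := by
        rw [h, ← Matrix.submatrix_map]
        congr 1
        unfold hyp
        rw [Matrix.fromBlocks_map]
        congr 1
        · ext1 i j; exact map_zero m
        · ext1 i j
          rw [Matrix.map_apply]
          by_cases hij : i = j
          · subst hij; rw [Matrix.one_apply_eq, Matrix.one_apply_eq, map_one]
          · rw [Matrix.one_apply_ne hij, Matrix.one_apply_ne hij, map_zero]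
        · ext1 i j; exact map_zero m
        · ext1 i j; exact map_zero m
      rw [hf0, h']
      have hc : hyp K G κ = (Matrix.fromBlocks (0 : Matrix κ κ K) (1 : Matrix κ κ K) 0 0).map
          (MonoidAlgebra.single 1) := by
        unfold hyp
        rw [Matrix.fromBlocks_map]
        congr 1
        · ext i j; simp
        · ext1 i j
          rw [Matrix.map_apply]
          by_cases hij : i = j
          · subst hij; rw [Matrix.one_apply_eq, Matrix.one_apply_eq, MonoidAlgebra.one_def]
          · rw [Matrix.one_apply_ne hij, Matrix.one_apply_ne hij, MonoidAlgebra.single_zero]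
        · ext i j; simp
        · ext i j; simp
      have hu2 : IsUnit (hyp K G κ + dual (hyp K G κ)) := by
        unfold hyp
        rw [dual_fromBlocks, Matrix.fromBlocks_add, dual_zero, dual_one]
        simp only [add_zero, zero_add]
        refine ⟨⟨Matrix.fromBlocks 0 1 1 0, Matrix.fromBlocks 0 1 1 0, ?_, ?_⟩, rfl⟩
        · rw [Matrix.fromBlocks_multiply]; simp
        · rw [Matrix.fromBlocks_multiply]; simp
      rw [E.reindex _ _ σ _ hu2, hc]
      exact E.const _ _
  have h1 : ∀ ψ : NForm R G, (QuotientAddGroup.lift _ f0 h : L0s R G →+ V) ψ.cls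
      = E.e ψ.κ (ψ.mat.map m) := fun ψ => hf0 ψ
  refine ⟨QuotientAddGroup.lift _ f0 h, fun ψ => ?_, fun ψ φ σ u η hφ => ?_⟩
  · rw [hm]
    exact h1 ψ
  · exact (h1 φ).trans ((hbase ψ φ σ u η hφ).trans (congrArg (· + _) (h1 ψ).symm))

end

end Forms

end Pool.Agent.Lib.MP8a3537.K2
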