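import Pool.Agent.Lib.MP_8a3537_gt.K2.Bd

/-!
# Words with product of squares one detect the second cohomology (MP_8a3537_gt, folder K2)

`G` a group, `om` a 2-cocycle `G × G → ZMod 2`.  The value of `om` on the polygon `x₀ x₀ x₁ x₁ ...` (a closed surface when
`x₀² x₁² ... = 1`) vanishes for all such words only if `om` is a coboundary.
-/

namespace Pool.Agent.Lib.MP8a3537.K2

/-- the set underlying the central extension -/
@[ext] structure Ext (G : Type*) where
  /-- the element of the group -/
  g : G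
  /-- the central coordinate -/
  a : ZMod 2

section
variable {G : Type*} [Group G]

theorem bd_congr {x y : ℕ → G} {n : ℕ} (h : ∀ i < n, x i = y i) : ∀ i ≤ n, bd x i = bd y i := by
  intro i
  induction i with
  | zero => intro _; rfl
  | succ i ih =>
    intro hi
    show bd x i * (x i * x i) = bd y i * (y i * y i)
    rw [ih (by omega), h i (by omega)]

theorem pairing_congr {om : G → G → ZMod 2} {x y : ℕ → G} {n : ℕ} (h : ∀ i < n, x i = y i) :
    pairing om x n = pairing om y n := by
  unfold pairing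
  refine Finset.sum_congr rfl fun i hi => ?_
  have hi' : i < n := Finset.mem_range.1 hi
  rw [bd_congr h i hi'.le, h i hi']

/-- one more letter -/
theorem exists_snoc (om : G → G → ZMod 2) (x : ℕ → G) (n : ℕ) (y : G) :
    ∃ x' : ℕ → G, bd x' (n + 1) = bd x n * (y * y) ∧
      pairing om x' (n + 1) = pairing om x n + (om (bd x n) y + om (bd x n * y) y) := by
  refine ⟨Function.update x n y, ?_, ?_⟩
  · show bd (Function.update x n y) n * (Function.update x n y n * Function.update x n y n) = _
    rw [Function.update_self, bd_congr (y := x) (n := n) (fun i hi => Function.update_of_ne (by omega) _ _) n le_rfl]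
  · have h1 : pairing om (Function.update x n y) n = pairing om x n :=
      pairing_congr fun i hi => Function.update_of_ne (by omega) _ _
    unfold pairing at h1 ⊢
    rw [Finset.sum_range_succ, h1, Function.update_self,
      bd_congr (y := x) (n := n) (fun i hi => Function.update_of_ne (by omega) _ _) n le_rfl]

variable (om : G → G → ZMod 2) (hom : ∀ g h k, om g h + om (g * h) k = om h k + om g (h * k))

include hom in
theorem om_l (h : G) : om 1 h = om 1 1 := by
  have h1 := hom 1 1 h
  rw [one_mul, one_mul] at h1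
  exact (add_right_cancel h1).symm

include hom in
theorem om_r (g : G) : om g 1 = om 1 1 := by
  have h1 := hom g 1 1
  rw [mul_one, one_mul] at h1
  exact add_right_cancel h1

/-- the central extension of `G` by `ZMod 2` with the cocycle `om` (normalised) -/
@[reducible] def extGroup : Group (Ext G) :=
  letI : Mul (Ext G) := ⟨fun e f => ⟨e.g * f.g, e.a + f.a + (om e.g f.g + om 1 1)⟩⟩
  letI : One (Ext G) := ⟨⟨1, 0⟩⟩
  letI : Inv (Ext G) := ⟨fun e => ⟨e.g⁻¹, e.a + (om e.g⁻¹ e.g + om 1 1)⟩⟩
  Group.ofLeftAxioms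
    (by
      rintro ⟨g, a⟩ ⟨h, b⟩ ⟨k, c⟩
      refine Ext.ext (mul_assoc _ _ _) ?_
      show a + b + (om g h + om 1 1) + c + (om (g * h) k + om 1 1) = a + (b + c + (om h k + om 1 1)) + (om g (h * k) + om 1 1)
      linear_combination hom g h k)
    (by
      rintro ⟨g, a⟩
      refine Ext.ext (one_mul _) ?_
      show 0 + a + (om 1 g + om 1 1) = a
      rw [om_l om hom g, CharTwo.add_self_eq_zero]; ring)
    (by
      rintro ⟨g, a⟩
      refine Ext.ext (inv_mul_cancel _) ?_
      show a + (om g⁻¹ g + om 1 1) + a + (om g⁻¹ g + om 1 1) = 0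
      have h1 := CharTwo.add_self_eq_zero a
      have h2 := CharTwo.add_self_eq_zero (om g⁻¹ g + om 1 1)
      linear_combination h1 + h2)

include hom in
/-- if `om` is not a coboundary, there is a word with product of squares one on which it is not zero -/
theorem nondeg (hno : ¬ ∃ f : G → ZMod 2, ∀ g h, om g h = f g + f h + f (g * h)) :
    ∃ (n : ℕ) (x : ℕ → G), bd x n = 1 ∧ pairing om x n = 1 := by
  classical
  let _ : Group (Ext G) := extGroup om hom
  have mul_g : ∀ e f : Ext G, (e * f).g = e.g * f.g := fun _ _ => rfl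
  have mul_a : ∀ e f : Ext G, (e * f).a = e.a + f.a + (om e.g f.g + om 1 1) := fun _ _ => rfl
  have one_g : (1 : Ext G).g = 1 := rfl
  have one_a : (1 : Ext G).a = 0 := rfl
  -- the subgroup generated by squares
  set sq : Set (Ext G) := Set.range fun e : Ext G => e * e with hsq
  have hconj : ∀ y ∈ Group.conjugatesOfSet sq, ∃ c : Ext G, y = c * c := by
    intro y hy
    obtain ⟨a, ⟨e, rfl⟩, hc⟩ := Group.mem_conjugatesOfSet_iff.1 hy
    obtain ⟨c, rfl⟩ := isConj_iff.1 hc
    exact ⟨c * e * c⁻¹, by group⟩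
  have key : ∀ e ∈ Subgroup.normalClosure sq, ∃ (n : ℕ) (x : ℕ → G), e.g = bd x n ∧ e.a = pairing om x n := by
    have step : ∀ e c : Ext G, (∃ (n : ℕ) (x : ℕ → G), e.g = bd x n ∧ e.a = pairing om x n) →
        ∃ (n : ℕ) (x : ℕ → G), (e * (c * c)).g = bd x n ∧ (e * (c * c)).a = pairing om x n := by
      rintro e c ⟨n, x, h1, h2⟩
      obtain ⟨x', h3, h4⟩ := exists_snoc om x n c.g
      refine ⟨n + 1, x', ?_, ?_⟩
      · rw [mul_g, mul_g, h1, h3]
      · rw [mul_a, mul_a, mul_g, h4, h1, h2]
        have h5 := CharTwo.add_self_eq_zero c.a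
        have h6 := hom (bd x n) c.g c.g
        have h7 := CharTwo.add_self_eq_zero (om 1 1)
        linear_combination h5 - h6 + h7
    intro e he
    rw [Subgroup.normalClosure] at he
    induction he using Subgroup.closure_induction_right with
    | one => exact ⟨0, fun _ => 1, rfl, by rw [one_a]; rfl⟩
    | mul_right x _ y hy ih =>
      obtain ⟨c, rfl⟩ := hconj y hy
      exact step x c ih
    | mul_inv_cancel x _ y hy ih =>
      obtain ⟨c, rfl⟩ := hconj y hy
      have : (c * c)⁻¹ = c⁻¹ * c⁻¹ := by group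
      rw [this]
      exact step x c⁻¹ ih
  by_cases hz : (⟨1, 1⟩ : Ext G) ∈ Subgroup.normalClosure sq
  · obtain ⟨n, x, h1, h2⟩ := key _ hz
    exact ⟨n, x, h1.symm, h2.symm⟩
  · exfalso
    apply hno
    -- the quotient is a vector space over `F₂`
    have hsquare : ∀ q : Ext G ⧸ Subgroup.normalClosure sq, q * q = 1 := by
      intro q
      obtain ⟨e, rfl⟩ := QuotientGroup.mk_surjective q
      rw [← QuotientGroup.mk_mul, QuotientGroup.eq_one_iff]
      exact Subgroup.subset_normalClosure ⟨e, rfl⟩
    have hcomm : ∀ a b : Ext G ⧸ Subgroup.normalClosure sq, a * b = b * a := by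
      intro a b
      have ha : a⁻¹ = a := inv_eq_of_mul_eq_one_left (hsquare a)
      have hb : b⁻¹ = b := inv_eq_of_mul_eq_one_left (hsquare b)
      have hab : (a * b)⁻¹ = a * b := inv_eq_of_mul_eq_one_left (hsquare (a * b))
      rw [← hab, mul_inv_rev, ha, hb]
    let _ : CommGroup (Ext G ⧸ Subgroup.normalClosure sq) := { (inferInstance : Group (Ext G ⧸ Subgroup.normalClosure sq)) with mul_comm := hcomm }
    let _ : Module (ZMod 2) (Additive (Ext G ⧸ Subgroup.normalClosure sq)) := AddCommGroup.zmodModule (by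
      intro q
      rw [two_nsmul]
      exact hsquare q.toMul)
    have hz' : Additive.ofMul ((⟨1, 1⟩ : Ext G) : Ext G ⧸ Subgroup.normalClosure sq) ≠ 0 := by
      intro h
      apply hz
      rw [← QuotientGroup.eq_one_iff]
      exact h
    have := mt (Module.forall_dual_apply_eq_zero_iff (ZMod 2) (Additive.ofMul ((⟨1, 1⟩ : Ext G) : Ext G ⧸ Subgroup.normalClosure sq))).1 hz'
    push Not at this
    obtain ⟨φ, hφ⟩ := this
    have hφ1 : φ (Additive.ofMul ((⟨1, 1⟩ : Ext G) : Ext G ⧸ Subgroup.normalClosure sq)) = 1 := by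
      have : ∀ c : ZMod 2, c ≠ 0 → c = 1 := by decide
      exact this _ hφ
    refine ⟨fun g => φ (Additive.ofMul ((⟨g, 0⟩ : Ext G) : Ext G ⧸ Subgroup.normalClosure sq)) + om 1 1, fun g h => ?_⟩
    have hadd : ∀ e f : Ext G, φ (Additive.ofMul ((e * f : Ext G) : Ext G ⧸ Subgroup.normalClosure sq)) =
        φ (Additive.ofMul (e : Ext G ⧸ Subgroup.normalClosure sq)) + φ (Additive.ofMul (f : Ext G ⧸ Subgroup.normalClosure sq)) := by
      intro e f
      rw [← map_add]
      rfl
    have hcen : ∀ (g : G) (a : ZMod 2), φ (Additive.ofMul ((⟨g, a⟩ : Ext G) : Ext G ⧸ Subgroup.normalClosure sq)) =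
        φ (Additive.ofMul ((⟨g, 0⟩ : Ext G) : Ext G ⧸ Subgroup.normalClosure sq)) + a := by
      intro g a
      have h1 : ∀ c : ZMod 2, c = 0 ∨ c = 1 := by decide
      rcases h1 a with h | h
      · rw [h, add_zero]
      · rw [h]
        have h2 : (⟨g, 1⟩ : Ext G) = ⟨g, 0⟩ * ⟨1, 1⟩ := by
          refine Ext.ext ?_ ?_
          · rw [mul_g]; exact (mul_one g).symm
          · rw [mul_a]
            show (1 : ZMod 2) = 0 + 1 + (om g 1 + om 1 1)
            rw [om_r om hom g, CharTwo.add_self_eq_zero]; ring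
        rw [h2, hadd, hφ1]
    have h3 := hadd ⟨g, 0⟩ ⟨h, 0⟩
    have h4 : (⟨g, 0⟩ * ⟨h, 0⟩ : Ext G) = ⟨g * h, om g h + om 1 1⟩ := by
      refine Ext.ext rfl ?_
      rw [mul_a]
      show 0 + 0 + (om g h + om 1 1) = _
      ring
    rw [h4, hcen] at h3
    have h5 := CharTwo.add_self_eq_zero (om 1 1)
    have h6 := CharTwo.add_self_eq_zero (φ (Additive.ofMul ((⟨g * h, 0⟩ : Ext G) : Ext G ⧸ Subgroup.normalClosure sq)))
    linear_combination h3 - h5 - h5 - h6
end

end Pool.Agent.Lib.MP8a3537.K2
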