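import Mathlib

/-!
# The triangular matrices `Φ_x` (MP_8a3537_gt, folder K2, section 4 of the paper)

`R` a ring with involution, `2 = 0`, `x_i` units with `x_i^* = x_i⁻¹`, `B_0 = 1`, `B_(i+1) = B_i x_i²`.
-/

namespace Pool.Agent.Lib.MP8a3537.K2

open Matrix Finset

/-- data: `x_i`, `B_i` in a ring with involution of characteristic two -/
structure Word (R : Type*) [Ring R] [StarRing R] where
  x : ℕ → R
  B : ℕ → R
  two : ∀ a : R, a + a = 0
  xs : ∀ i, x i * star (x i) = 1
  sx : ∀ i, star (x i) * x i = 1
  B0 : B 0 = 1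
  BS : ∀ i, B (i + 1) = B i * x i * x i

namespace Word

variable {R : Type*} [Ring R] [StarRing R] (w : Word R)

include w in
theorem eq_of_add {a b : R} (h : a + b = 0) : a = b :=
  add_right_cancel (h.trans (w.two b).symm)

theorem Bs (i : ℕ) : w.B i * star (w.B i) = 1 := by
  induction i with
  | zero => rw [w.B0]; simp
  | succ i ih =>
    rw [w.BS, star_mul, star_mul]
    calc w.B i * w.x i * w.x i * (star (w.x i) * (star (w.x i) * star (w.B i)))
        = w.B i * (w.x i * (w.x i * star (w.x i)) * star (w.x i)) * star (w.B i) := by noncomm_ring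
      _ = 1 := by rw [w.xs, mul_one, w.xs, mul_one, ih]

theorem sB (i : ℕ) : star (w.B i) * w.B i = 1 := by
  induction i with
  | zero => rw [w.B0]; simp
  | succ i ih =>
    rw [w.BS, star_mul, star_mul]
    calc star (w.x i) * (star (w.x i) * star (w.B i)) * (w.B i * w.x i * w.x i)
        = star (w.x i) * (star (w.x i) * (star (w.B i) * w.B i) * w.x i) * w.x i := by noncomm_ring
      _ = 1 := by rw [ih, mul_one, w.sx, mul_one, w.sx]

/-- `ρ_i = 1 + x_i` -/
def rho (i : ℕ) : R := 1 + w.x i

/-- `δ_i = B_i (1 + x_i)` -/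
def del (i : ℕ) : R := w.B i * (1 + w.x i)

/-- the entries of `Φ` -/
def phi (i j : ℕ) : R := if i = j then w.x i else if i < j then star (w.del i) * w.del j else 0

/-- the entries of `Φ⁻¹` -/
def the (i j : ℕ) : R := if i = j then star (w.x i) else if i < j then w.rho i * star (w.rho j) else 0

theorem phi_self (i : ℕ) : w.phi i i = w.x i := by simp [phi]

theorem phi_lt {i j : ℕ} (h : i < j) : w.phi i j = star (w.del i) * w.del j := by
  simp [phi, h, h.ne]

theorem phi_gt {i j : ℕ} (h : j < i) : w.phi i j = 0 := by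
  simp [phi, h.ne', h.le]

theorem the_self (i : ℕ) : w.the i i = star (w.x i) := by simp [the]

theorem the_lt {i j : ℕ} (h : i < j) : w.the i j = w.rho i * star (w.rho j) := by
  simp [the, h, h.ne]

theorem the_gt {i j : ℕ} (h : j < i) : w.the i j = 0 := by
  simp [the, h.ne', h.le]

theorem sq_rho (i : ℕ) : (1 + w.x i) * (1 + w.x i) = 1 + w.x i * w.x i := by
  have : (1 + w.x i) * (1 + w.x i) = 1 + w.x i * w.x i + (w.x i + w.x i) := by noncomm_ring
  rw [this, w.two, add_zero]

theorem del_rho (i : ℕ) : w.del i * w.rho i = w.B i + w.B (i + 1) := by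
  rw [del, rho, mul_assoc, w.sq_rho, w.BS]; noncomm_ring

theorem star_del (i : ℕ) : star (w.del i) = (1 + star (w.x i)) * star (w.B i) := by
  rw [del, star_mul, star_add, star_one]

theorem star_rho (i : ℕ) : star (w.rho i) = 1 + star (w.x i) := by
  rw [rho, star_add, star_one]

theorem sdel_B (i : ℕ) : star (w.del i) * w.B i = 1 + star (w.x i) := by
  rw [star_del, mul_assoc, w.sB, mul_one]

theorem sdel_BS (i : ℕ) : star (w.del i) * w.B (i + 1) = w.x i * w.rho i := by
  rw [w.BS, ← mul_assoc, ← mul_assoc, sdel_B, rho]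
  calc (1 + star (w.x i)) * w.x i * w.x i = w.x i * w.x i + (star (w.x i) * w.x i) * w.x i := by
        noncomm_ring
    _ = w.x i * (1 + w.x i) := by rw [w.sx]; noncomm_ring

theorem del_xs (i : ℕ) : w.del i * star (w.x i) = w.B i * star (w.rho i) := by
  rw [del, star_rho, mul_assoc, add_mul, w.xs, one_mul, add_comm]

/-- partial row sums of `Φ ρ` -/
theorem sum_phi_rho (i : ℕ) : ∀ k, i < k → ∑ j ∈ range k, w.phi i j * w.rho j = star (w.del i) * w.B k := by
  intro k hk
  induction k, hk using Nat.le_induction with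
  | base =>
    rw [Nat.succ_eq_add_one, sum_range_succ, phi_self, sdel_BS]
    rw [Finset.sum_eq_zero, zero_add]
    intro j hj
    rw [w.phi_gt (mem_range.1 hj), zero_mul]
  | succ k hk ih =>
    rw [sum_range_succ, ih, w.phi_lt (by omega), mul_assoc, del_rho, mul_add, ← add_assoc, w.two,
      zero_add]

/-- partial column sums of `ρ^* Φ` -/
theorem sum_rho_phi_lt (j : ℕ) : ∑ i ∈ range j, star (w.rho i) * w.phi i j = (1 + star (w.B j)) * w.del j := by
  have h : ∀ k ≤ j, ∑ i ∈ range k, star (w.rho i) * w.phi i j = (1 + star (w.B k)) * w.del j := by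
    intro k hk
    induction k with
    | zero => rw [sum_range_zero, w.B0, star_one, w.two, zero_mul]
    | succ k ih =>
      rw [sum_range_succ, ih (by omega), w.phi_lt (by omega), ← mul_assoc, ← star_mul, del_rho,
        ← add_mul]
      congr 1
      rw [star_add]
      have : 1 + star (w.B k) + (star (w.B k) + star (w.B (k + 1)))
        = (star (w.B k) + star (w.B k)) + (1 + star (w.B (k + 1))) := by abel
      rw [this, w.two, zero_add]
  exact h j le_rfl

theorem sum_rho_phi (j : ℕ) : ∑ i ∈ range (j + 1), star (w.rho i) * w.phi i j = w.del j := by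
  rw [sum_range_succ, sum_rho_phi_lt, phi_self, add_mul, one_mul]
  have h1 : star (w.B j) * w.del j = 1 + w.x j := by rw [del, ← mul_assoc, w.sB, one_mul]
  have h2 : star (w.rho j) * w.x j = 1 + w.x j := by
    rw [star_rho, add_mul, w.sx, one_mul, add_comm]
  rw [h1, h2, add_assoc, w.two, add_zero]

/-- partial row sums of `Θ δ^*` -/
theorem sum_the_del (i : ℕ) : ∀ k, i < k → ∑ j ∈ range k, w.the i j * star (w.del j) = w.rho i * star (w.B k) := by
  have key : star (w.x i) * star (w.del i) = w.rho i * star (w.B (i + 1)) := by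
    rw [star_del, w.BS, star_mul, star_mul, rho]
    calc star (w.x i) * ((1 + star (w.x i)) * star (w.B i))
        = star (w.x i) * (star (w.x i) * star (w.B i)) + star (w.x i) * star (w.B i) := by
          noncomm_ring
      _ = star (w.x i) * (star (w.x i) * star (w.B i))
          + (w.x i * star (w.x i)) * (star (w.x i) * star (w.B i)) := by rw [w.xs, one_mul]
      _ = _ := by noncomm_ring
  intro k hk
  induction k, hk using Nat.le_induction with
  | base =>
    rw [Nat.succ_eq_add_one, sum_range_succ, the_self, key, Finset.sum_eq_zero, zero_add]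
    intro j hj
    rw [w.the_gt (mem_range.1 hj), zero_mul]
  | succ k hk ih =>
    rw [sum_range_succ, ih, w.the_lt (by omega), mul_assoc, ← star_mul, del_rho, star_add, mul_add,
      ← add_assoc, w.two, zero_add]

/-- `Φ Θ = 1` -/
theorem phi_the (h i k : ℕ) (hi : i < h) (hk : k < h) :
    ∑ j ∈ range h, w.phi i j * w.the j k = if i = k then 1 else 0 := by
  have h1 : ∑ j ∈ range h, w.phi i j * w.the j k = ∑ j ∈ range (k + 1), w.phi i j * w.the j k := by
    symm
    apply Finset.sum_subset (range_subset_range.2 (by omega))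
    intro j _ hj
    rw [w.the_gt (by simpa using hj), mul_zero]
  rw [h1, sum_range_succ, the_self]
  have h2 : ∑ j ∈ range k, w.phi i j * w.the j k = (∑ j ∈ range k, w.phi i j * w.rho j) * star (w.rho k) := by
    rw [Finset.sum_mul]
    refine Finset.sum_congr rfl fun j hj => ?_
    rw [w.the_lt (mem_range.1 hj), mul_assoc]
  rw [h2]
  rcases lt_trichotomy i k with hik | hik | hik
  · rw [w.sum_phi_rho i k hik, w.phi_lt hik, mul_assoc, mul_assoc, del_xs, w.two, if_neg hik.ne]
  · subst hik
    rw [Finset.sum_eq_zero, zero_mul, zero_add, phi_self, w.xs, if_pos rfl]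
    intro j hj
    rw [w.phi_gt (mem_range.1 hj), zero_mul]
  · rw [Finset.sum_eq_zero, zero_mul, zero_add, w.phi_gt hik, zero_mul, if_neg hik.ne']
    intro j hj
    rw [w.phi_gt (lt_trans (mem_range.1 hj) hik), zero_mul]

/-- `Θ Φ = 1` -/
theorem the_phi (h i k : ℕ) (hi : i < h) (hk : k < h) :
    ∑ j ∈ range h, w.the i j * w.phi j k = if i = k then 1 else 0 := by
  have h1 : ∑ j ∈ range h, w.the i j * w.phi j k = ∑ j ∈ range (k + 1), w.the i j * w.phi j k := by
    symm
    apply Finset.sum_subset (range_subset_range.2 (by omega))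
    intro j _ hj
    rw [w.phi_gt (by simpa using hj), mul_zero]
  rw [h1, sum_range_succ, phi_self]
  have h2 : ∑ j ∈ range k, w.the i j * w.phi j k = (∑ j ∈ range k, w.the i j * star (w.del j)) * w.del k := by
    rw [Finset.sum_mul]
    refine Finset.sum_congr rfl fun j hj => ?_
    rw [w.phi_lt (mem_range.1 hj), mul_assoc]
  rw [h2]
  rcases lt_trichotomy i k with hik | hik | hik
  · have h3 : star (w.B k) * w.del k = 1 + w.x k := by rw [del, ← mul_assoc, w.sB, one_mul]
    have h4 : star (w.rho k) * w.x k = 1 + w.x k := by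
      rw [star_rho, add_mul, w.sx, one_mul, add_comm]
    rw [w.sum_the_del i k hik, w.the_lt hik, mul_assoc, mul_assoc, h3, h4, w.two, if_neg hik.ne]
  · subst hik
    rw [Finset.sum_eq_zero, zero_mul, zero_add, the_self, w.sx, if_pos rfl]
    intro j hj
    rw [w.the_gt (mem_range.1 hj), zero_mul]
  · rw [Finset.sum_eq_zero, zero_mul, zero_add, w.the_gt hik, zero_mul, if_neg hik.ne']
    intro j hj
    rw [w.the_gt (lt_trans (mem_range.1 hj) hik), zero_mul]

/-- `Φ + Φ^* = δ^* δ` -/
theorem phi_add_star (i j : ℕ) : w.phi i j + star (w.phi j i) = star (w.del i) * w.del j := by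
  rcases lt_trichotomy i j with hij | hij | hij
  · rw [w.phi_lt hij, w.phi_gt hij, star_zero, add_zero]
  · subst hij
    rw [phi_self, star_del, del]
    calc w.x i + star (w.x i) = (1 + 1) + w.x i + star (w.x i) := by rw [w.two, zero_add]
      _ = 1 + w.x i + star (w.x i) + star (w.x i) * w.x i := by rw [w.sx]; abel
      _ = (1 + star (w.x i)) * (1 + w.x i) := by noncomm_ring
      _ = (1 + star (w.x i)) * (star (w.B i) * w.B i) * (1 + w.x i) := by rw [w.sB, mul_one]
      _ = _ := by noncomm_ring
  · rw [w.phi_gt hij, w.phi_lt hij, star_mul, star_star, zero_add]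

/-- `δ ρ = 1 + B_h` -/
theorem sum_del_rho (h : ℕ) : ∑ i ∈ range h, w.del i * w.rho i = 1 + w.B h := by
  induction h with
  | zero => rw [sum_range_zero, w.B0, w.two]
  | succ k ih =>
    rw [sum_range_succ, ih, del_rho]
    have : 1 + w.B k + (w.B k + w.B (k + 1)) = (w.B k + w.B k) + (1 + w.B (k + 1)) := by abel
    rw [this, w.two, zero_add]

end Word

end Pool.Agent.Lib.MP8a3537.K2
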