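import Pool.Agent.Lib.MP_8a3537_gt.K2.L0
import Pool.Agent.Lib.MP_8a3537_gt.K2.PhiAlg
import Pool.Agent.Lib.MP_8a3537_gt.K2.Nondeg

/-!
# The forms `Φ_x ⊗ q` of a word with `x_0² x_1² ⋯ x_(h-1)² = 1`
-/

namespace Pool.Agent.Lib.MP8a3537.K2

open Matrix MonoidAlgebra Pool.Agent.Lib.MP8a3537.D1

section

variable (K : Type) {G : Type} [CommRing K] [Group G]

/-- the element `g` of `K[G]` -/
noncomputable abbrev grp (g : G) : MonoidAlgebra K G := MonoidAlgebra.single g 1

/-- The upper triangular matrix `Φ_x` of a word `x_0, ..., x_(h-1)`: `x_i` on the diagonal and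
`(1 + x_i⁻¹) B_i⁻¹ B_j (1 + x_j)` above it, with `B_i = x_0² ⋯ x_(i-1)²`. -/
noncomputable def Phi (x : ℕ → G) (h : ℕ) : Matrix (Fin h) (Fin h) (MonoidAlgebra K G) :=
  Matrix.of fun i j =>
    if i = j then grp K (x i)
    else if i < j then
      (1 + grp K (x i)⁻¹) * grp K ((bd x i)⁻¹ * bd x j) * (1 + grp K (x j))
    else 0

/-- The quadratic form `Φ_x ⊗ [a, b]`, where `[a, b]` is the form `a u² + u v + b v²` with the Arf
invariant `a b`. -/
noncomputable def PhiForm (x : ℕ → G) (h : ℕ) (a b : K) :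
    Matrix (Fin h ⊕ Fin h) (Fin h ⊕ Fin h) (MonoidAlgebra K G) :=
  Matrix.fromBlocks (a • Phi K x h) (Phi K x h) 0 (b • Phi K x h)

end

section

variable (K G : Type) [CommRing K] [Group G]

/-- the star ring structure of `K[G]` -/
@[reducible] noncomputable def starMA : StarRing (MonoidAlgebra K G) where
  star := conj
  star_involutive := conj_conj
  star_mul := conj_mul
  star_add := conj_add

variable {G}

/-- the word, as data for the matrix algebra -/
noncomputable def wordOf [CharP K 2] (x : ℕ → G) :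
    @Word (MonoidAlgebra K G) _ (starMA K G) :=
  letI := starMA K G
  { x := fun i => grp K (x i)
    B := fun i => grp K (bd x i)
    two := by
      intro a
      have h : (2 : K) = 0 := CharP.cast_eq_zero K 2
      rw [← two_smul K a, h, zero_smul]
    xs := by
      intro i
      show grp K (x i) * conj (grp K (x i)) = 1
      rw [conj_single, MonoidAlgebra.single_mul_single, mul_inv_cancel, mul_one,
        MonoidAlgebra.one_def]
    sx := by
      intro i
      show conj (grp K (x i)) * grp K (x i) = 1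
      rw [conj_single, MonoidAlgebra.single_mul_single, inv_mul_cancel, mul_one,
        MonoidAlgebra.one_def]
    B0 := by rw [MonoidAlgebra.one_def]; rfl
    BS := by
      intro i
      show grp K (bd x (i + 1)) = grp K (bd x i) * grp K (x i) * grp K (x i)
      rw [MonoidAlgebra.single_mul_single, MonoidAlgebra.single_mul_single, mul_one, mul_one,
        mul_assoc]
      rfl }

variable [CharP K 2]

omit [CharP K 2] in
lemma conj_grp (g : G) : conj (grp K g) = grp K g⁻¹ := conj_single g 1

lemma Phi_apply (x : ℕ → G) (h : ℕ) (i j : Fin h) :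
    Phi K x h i j = @Word.phi _ _ (starMA K G) (wordOf K x) i j := by
  let _ := starMA K G
  unfold Phi Word.phi
  rw [Matrix.of_apply]
  by_cases hij : i = j
  · subst hij
    rw [if_pos rfl, if_pos rfl]; rfl
  · have hij' : ¬ (i : ℕ) = j := fun h => hij (Fin.ext h)
    rw [if_neg hij, if_neg hij']
    by_cases hlt : i < j
    · have hlt' : (i : ℕ) < j := hlt
      rw [if_pos hlt, if_pos hlt']
      show _ = conj (grp K (bd x i) * (1 + grp K (x i))) * (grp K (bd x j) * (1 + grp K (x j)))
      rw [D1.conj_mul, conj_add, conj_one, conj_grp, conj_grp, mul_assoc (1 + grp K (x i)⁻¹)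
        (grp K (bd x ↑i)⁻¹), ← mul_assoc (grp K (bd x ↑i)⁻¹), MonoidAlgebra.single_mul_single,
        mul_one, mul_assoc]
    · have hlt' : ¬ (i : ℕ) < j := hlt
      rw [if_neg hlt, if_neg hlt']

/-- the inverse of `Φ` -/
noncomputable def Theta (x : ℕ → G) (h : ℕ) : Matrix (Fin h) (Fin h) (MonoidAlgebra K G) :=
  letI := starMA K G
  Matrix.of fun i j => (wordOf K x).the i j

/-- `N = ρ δ` -/
noncomputable def Nmat (x : ℕ → G) (h : ℕ) : Matrix (Fin h) (Fin h) (MonoidAlgebra K G) :=
  letI := starMA K G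
  Matrix.of fun i j => (wordOf K x).rho i * (wordOf K x).del j

theorem Phi_Theta (x : ℕ → G) (h : ℕ) : Phi K x h * Theta K x h = 1 := by
  let _ := starMA K G
  ext1 i j
  rw [Matrix.mul_apply]
  have h1 := (wordOf K x).phi_the h i j i.2 j.2
  rw [← Fin.sum_univ_eq_sum_range (fun l => (wordOf K x).phi i l * (wordOf K x).the l j)] at h1
  have h2 : ∑ l, Phi K x h i l * Theta K x h l j
      = ∑ l : Fin h, (wordOf K x).phi i l * (wordOf K x).the l j :=
    Finset.sum_congr rfl fun l _ => by rw [Phi_apply]; rfl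
  rw [h2, h1, Matrix.one_apply]
  exact if_congr (Fin.ext_iff.symm) rfl rfl

theorem Theta_Phi (x : ℕ → G) (h : ℕ) : Theta K x h * Phi K x h = 1 := by
  let _ := starMA K G
  ext1 i j
  rw [Matrix.mul_apply]
  have h1 := (wordOf K x).the_phi h i j i.2 j.2
  rw [← Fin.sum_univ_eq_sum_range (fun l => (wordOf K x).the i l * (wordOf K x).phi l j)] at h1
  have h2 : ∑ l, Theta K x h i l * Phi K x h l j
      = ∑ l : Fin h, (wordOf K x).the i l * (wordOf K x).phi l j :=
    Finset.sum_congr rfl fun l _ => by rw [Phi_apply]; rfl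
  rw [h2, h1, Matrix.one_apply]
  exact if_congr (Fin.ext_iff.symm) rfl rfl

/-- `N² = 0` if the product of the squares is one -/
theorem Nmat_sq (x : ℕ → G) (h : ℕ) (hx : bd x h = 1) : Nmat K x h * Nmat K x h = 0 := by
  let _ := starMA K G
  ext1 i j
  rw [Matrix.mul_apply, Matrix.zero_apply]
  have h1 : ∀ l : Fin h, Nmat K x h i l * Nmat K x h l j
      = (wordOf K x).rho i * ((wordOf K x).del l * (wordOf K x).rho l) * (wordOf K x).del j := by
    intro l
    show (wordOf K x).rho i * (wordOf K x).del l * ((wordOf K x).rho l * (wordOf K x).del j) = _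
    noncomm_ring
  rw [Finset.sum_congr rfl fun l _ => h1 l, ← Finset.sum_mul, ← Finset.mul_sum,
    Fin.sum_univ_eq_sum_range (fun l => (wordOf K x).del l * (wordOf K x).rho l),
    (wordOf K x).sum_del_rho]
  have h2 : (wordOf K x).B h = 1 := by
    show grp K (bd x h) = 1
    rw [hx, MonoidAlgebra.one_def]
  rw [h2, (wordOf K x).two, mul_zero, zero_mul]

/-- `Φ N = Φ + Φ^*` if the product of the squares is one -/
theorem Phi_Nmat (x : ℕ → G) (h : ℕ) (hx : bd x h = 1) :
    Phi K x h * Nmat K x h = Phi K x h + dual (Phi K x h) := by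
  let _ := starMA K G
  ext1 i j
  rw [Matrix.mul_apply, Matrix.add_apply]
  have h1 : ∀ l : Fin h, Phi K x h i l * Nmat K x h l j
      = ((wordOf K x).phi i l * (wordOf K x).rho l) * (wordOf K x).del j := by
    intro l
    rw [Phi_apply]
    show (wordOf K x).phi i l * ((wordOf K x).rho l * (wordOf K x).del j) = _
    noncomm_ring
  have h2 : (wordOf K x).B h = 1 := by
    show grp K (bd x h) = 1
    rw [hx, MonoidAlgebra.one_def]
  rw [Finset.sum_congr rfl fun l _ => h1 l, ← Finset.sum_mul,
    Fin.sum_univ_eq_sum_range (fun l => (wordOf K x).phi i l * (wordOf K x).rho l),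
    (wordOf K x).sum_phi_rho i h i.2, h2, mul_one, ← (wordOf K x).phi_add_star i j, Phi_apply]
  congr 1
  show _ = conj (Phi K x h j i)
  rw [Phi_apply]
  rfl

theorem dual_Phi (x : ℕ → G) (h : ℕ) (hx : bd x h = 1) :
    dual (Phi K x h) = Phi K x h * (1 + Nmat K x h) := by
  have h2 : ∀ y : Matrix (Fin h) (Fin h) (MonoidAlgebra K G), y + y = 0 := by
    intro y
    ext1 i j
    have h : (2 : K) = 0 := CharP.cast_eq_zero K 2
    rw [Matrix.add_apply, Matrix.zero_apply, ← two_smul K (y i j), h, zero_smul]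
  rw [Matrix.mul_add, Matrix.mul_one, Phi_Nmat K x h hx, ← add_assoc, h2, zero_add]

/-- The forms `Φ_x ⊗ [a, b]` are nonsingular if the product of the squares is one. -/
theorem PhiForm_nonsing (x : ℕ → G) (h : ℕ) (hx : bd x h = 1) (a b : K) :
    IsUnit (PhiForm K x h a b + dual (PhiForm K x h a b)) := by
  have h2 : ∀ y : Matrix (Fin h) (Fin h) (MonoidAlgebra K G), y + y = 0 := by
    intro y
    ext1 i j
    have h : (2 : K) = 0 := CharP.cast_eq_zero K 2
    rw [Matrix.add_apply, Matrix.zero_apply, ← two_smul K (y i j), h, zero_smul]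
  have hs : ∀ (c : K) (y : Matrix (Fin h) (Fin h) (MonoidAlgebra K G)),
      dual (c • y) = c • dual y := by
    intro c y
    ext1 i j
    show conj (c • y j i) = c • conj (y j i)
    induction y j i using MonoidAlgebra.induction_linear with
    | zero => simp [conj_zero]
    | add u v hu hv => rw [smul_add, conj_add, hu, hv, conj_add, smul_add]
    | single g r => rw [MonoidAlgebra.smul_single, conj_single, conj_single,
        MonoidAlgebra.smul_single]
  obtain ⟨N, hN⟩ : ∃ N, Nmat K x h = N := ⟨_, rfl⟩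
  obtain ⟨P, hP⟩ : ∃ P, Phi K x h = P := ⟨_, rfl⟩
  obtain ⟨T, hT⟩ : ∃ T, Theta K x h = T := ⟨_, rfl⟩
  have hNN := Nmat_sq K x h hx
  have hd := dual_Phi K x h hx
  have hPN := Phi_Nmat K x h hx
  have hPT := Phi_Theta K x h
  have hTP := Theta_Phi K x h
  rw [hN] at hNN hd hPN
  rw [hP] at hd hPN hPT hTP
  rw [hT] at hPT hTP
  have e : PhiForm K x h a b + dual (PhiForm K x h a b)
      = Matrix.fromBlocks P 0 0 P * Matrix.fromBlocks (a • N) 1 (1 + N) (b • N) := by
    rw [PhiForm, hP, dual_fromBlocks, Matrix.fromBlocks_add, Matrix.fromBlocks_multiply, hs, hs,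
      dual_zero, ← smul_add, ← smul_add, ← hPN, hd]
    simp only [Matrix.zero_mul, Matrix.mul_one, add_zero, zero_add, Matrix.mul_smul, smul_zero]
  rw [e]
  refine IsUnit.mul ?_ ?_
  · refine ⟨⟨Matrix.fromBlocks P 0 0 P, Matrix.fromBlocks T 0 0 T, ?_, ?_⟩, rfl⟩
    · rw [Matrix.fromBlocks_multiply, hPT]; simp
    · rw [Matrix.fromBlocks_multiply, hTP]; simp
  · refine ⟨⟨Matrix.fromBlocks (a • N) 1 (1 + N) (b • N),
      Matrix.fromBlocks (b • N) (1 + N) 1 (a • N), ?_, ?_⟩, rfl⟩
    · rw [Matrix.fromBlocks_multiply, ← Matrix.fromBlocks_one]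
      congr 1
      · simp [Matrix.smul_mul, Matrix.mul_smul, hNN]
      · simp [Matrix.smul_mul, Matrix.mul_smul, Matrix.mul_add, hNN, ← smul_add, h2]
      · simp [Matrix.smul_mul, Matrix.mul_smul, Matrix.add_mul, hNN, ← smul_add, h2]
      · have e1 : (1 + N) * (1 + N) = 1 + (N + N) + N * N := by noncomm_ring
        rw [Matrix.smul_mul, Matrix.mul_smul, hNN, e1, h2, hNN]
        simp
    · rw [Matrix.fromBlocks_multiply, ← Matrix.fromBlocks_one]
      congr 1
      · have e1 : (1 + N) * (1 + N) = 1 + (N + N) + N * N := by noncomm_ring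
        rw [Matrix.smul_mul, Matrix.mul_smul, hNN, e1, h2, hNN]
        simp
      · simp [Matrix.smul_mul, Matrix.mul_smul, Matrix.add_mul, hNN, ← smul_add, h2]
      · simp [Matrix.smul_mul, Matrix.mul_smul, Matrix.mul_add, hNN, ← smul_add, h2]
      · simp [Matrix.smul_mul, Matrix.mul_smul, hNN]

/-- The form `Φ_x ⊗ [a, b]`, as a nonsingular form. -/
noncomputable def PhiN (x : ℕ → G) (h : ℕ) (hx : bd x h = 1) (a b : K) : NForm K G where
  κ := Fin h ⊕ Fin h
  mat := PhiForm K x h a b
  nonsing := PhiForm_nonsing K x h hx a b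

end

end Pool.Agent.Lib.MP8a3537.K2
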