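import Pool.Agent.Lib.MP_8a3537_gt.K2.PhiZ
import Pool.Agent.Lib.MP_8a3537_gt.K2.Words
import Pool.Agent.Lib.MP_8a3537_gt.D1.Gen

/-!
# Lifts of the forms `Φ_x ⊗ [1, 1]` to the integral group ring

The golden ratio `e` with `e² = e + 1` acts on `ℤ²`; `T = 1 + 2 e = e³` has norm `-1`.
-/

namespace Pool.Agent.Lib.MP8a3537.K2

open Matrix MonoidAlgebra Pool.Agent.Lib.MP8a3537.D1

namespace LiftZ

/-- the skew form -/
def Lam : Matrix (Fin 2) (Fin 2) ℤ := !![0, 1; -1, 0]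

/-- the golden ratio -/
def ee : Matrix (Fin 2) (Fin 2) ℤ := !![0, 1; 1, 1]

/-- the third power of the golden ratio -/
def TT : Matrix (Fin 2) (Fin 2) ℤ := !![1, 2; 2, 3]

/-- its inverse -/
def Ti : Matrix (Fin 2) (Fin 2) ℤ := !![-3, 2; 2, -1]

/-- the involution on integral matrices -/
def sZ (c : Matrix (Fin 2) (Fin 2) ℤ) : Matrix (Fin 2) (Fin 2) ℤ := (-Lam) * cᵀ * Lam

/-- the monodromies -/
def mono (i : ℕ) : Matrix (Fin 2) (Fin 2) ℤ := if Even i then TT else Ti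

/-- their products -/
def prodm (i : ℕ) : Matrix (Fin 2) (Fin 2) ℤ := if Even i then 1 else TT * TT

lemma Lam_mul : Lam * (-Lam) = 1 := by decide
lemma mul_Lam : (-Lam) * Lam = 1 := by decide
lemma Lam_t : Lamᵀ = -Lam := by decide

lemma mono_cases (i : ℕ) : mono i = TT ∨ mono i = Ti := by
  unfold mono; split_ifs
  · exact Or.inl rfl
  · exact Or.inr rfl

lemma mono_s (i : ℕ) : mono i * sZ (mono i) = -1 := by
  rcases mono_cases i with h | h <;> rw [h] <;> decide

lemma s_mono (i : ℕ) : sZ (mono i) * mono i = -1 := by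
  rcases mono_cases i with h | h <;> rw [h] <;> decide

lemma prodm_succ (i : ℕ) : prodm (i + 1) = prodm i * mono i * mono i := by
  unfold prodm mono
  by_cases h : Even i
  · have h' : ¬ Even (i + 1) := by rw [Nat.even_add_one]; exact fun h2 => h2 h
    rw [if_neg h', if_pos h, if_pos h, one_mul]
  · have h' : Even (i + 1) := by rw [Nat.even_add_one]; exact h
    rw [if_pos h', if_neg h, if_neg h]; decide

lemma prodm_cases (i : ℕ) : prodm i = 1 ∨ prodm i = TT * TT := by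
  unfold prodm; split_ifs
  · exact Or.inl rfl
  · exact Or.inr rfl

lemma ee_mono (i : ℕ) : ee * mono i = mono i * ee := by
  rcases mono_cases i with h | h <;> rw [h] <;> decide

lemma ee_s_mono (i : ℕ) : ee * sZ (mono i) = sZ (mono i) * ee := by
  rcases mono_cases i with h | h <;> rw [h] <;> decide

lemma ee_prodm (i : ℕ) : ee * prodm i = prodm i * ee := by
  rcases prodm_cases i with h | h <;> rw [h] <;> decide

lemma ee_s_prodm (i : ℕ) : ee * sZ (prodm i) = sZ (prodm i) * ee := by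
  rcases prodm_cases i with h | h <;> rw [h] <;> decide

lemma sZ_ee : sZ ee = 1 - ee := by decide

/-- reduction modulo two -/
def red2 (c : Matrix (Fin 2) (Fin 2) ℤ) : Matrix (Fin 2) (Fin 2) (ZMod 2) := c.map (Int.cast)

lemma red2_mono (i : ℕ) : red2 (mono i) = 1 := by
  rcases mono_cases i with h | h <;> rw [h] <;> decide

lemma red2_s_mono (i : ℕ) : red2 (sZ (mono i)) = 1 := by
  rcases mono_cases i with h | h <;> rw [h] <;> decide

lemma red2_prodm (i : ℕ) : red2 (prodm i) = 1 := by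
  rcases prodm_cases i with h | h <;> rw [h] <;> decide

lemma red2_s_prodm (i : ℕ) : red2 (sZ (prodm i)) = 1 := by
  rcases prodm_cases i with h | h <;> rw [h] <;> decide

section

variable {G : Type} [Group G]

/-- the involution -/
noncomputable def sA (x : Matrix (Fin 2) (Fin 2) (MonoidAlgebra ℤ G)) :
    Matrix (Fin 2) (Fin 2) (MonoidAlgebra ℤ G) := cm 1 (-Lam) * dual x * cm 1 Lam

lemma cmL : cm (1 : G) Lam * cm 1 (-Lam) = 1 := by
  rw [cm_mul, mul_one, Lam_mul, cm_one]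

lemma cmL' : cm (1 : G) (-Lam) * cm 1 Lam = 1 := by
  rw [cm_mul, mul_one, mul_Lam, cm_one]

lemma sA_cm (g : G) (c : Matrix (Fin 2) (Fin 2) ℤ) : sA (cm g c) = cm g⁻¹ (sZ c) := by
  rw [sA, dual_cm, cm_mul, cm_mul, one_mul, mul_one]
  rfl

lemma sA_mul (x y : Matrix (Fin 2) (Fin 2) (MonoidAlgebra ℤ G)) :
    sA (x * y) = sA y * sA x := by
  unfold sA
  rw [dual_mul]
  calc cm 1 (-Lam) * (dual y * dual x) * cm 1 Lam
      = cm 1 (-Lam) * dual y * 1 * dual x * cm 1 Lam := by noncomm_ring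
    _ = cm 1 (-Lam) * dual y * (cm (1 : G) Lam * cm 1 (-Lam)) * dual x * cm 1 Lam := by rw [cmL]
    _ = _ := by noncomm_ring

lemma sA_sA (x : Matrix (Fin 2) (Fin 2) (MonoidAlgebra ℤ G)) : sA (sA x) = x := by
  unfold sA
  rw [dual_mul, dual_mul, dual_dual, dual_cm, dual_cm, inv_one]
  have h1 : cm (1 : G) (-Lam) * cm 1 Lamᵀ = -1 := by
    rw [cm_mul, mul_one]
    have : (-Lam) * Lamᵀ = -1 := by decide
    rw [this]
    have h := cm_add (1 : G) (1 : Matrix (Fin 2) (Fin 2) ℤ) (-1)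
    rw [add_neg_cancel, cm_zero, cm_one] at h
    exact (neg_eq_of_add_eq_zero_right h.symm).symm
  have h2 : cm (1 : G) (-Lam)ᵀ * cm 1 Lam = -1 := by
    rw [cm_mul, mul_one]
    have : (-Lam)ᵀ * Lam = -1 := by decide
    rw [this]
    have h := cm_add (1 : G) (1 : Matrix (Fin 2) (Fin 2) ℤ) (-1)
    rw [add_neg_cancel, cm_zero, cm_one] at h
    exact (neg_eq_of_add_eq_zero_right h.symm).symm
  calc cm 1 (-Lam) * (cm 1 Lamᵀ * (x * cm 1 (-Lam)ᵀ)) * cm 1 Lam
      = (cm (1 : G) (-Lam) * cm 1 Lamᵀ) * x * (cm 1 (-Lam)ᵀ * cm 1 Lam) := by noncomm_ring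
    _ = x := by rw [h1, h2]; noncomm_ring

lemma cm_neg_one : cm (1 : G) (-1 : Matrix (Fin 2) (Fin 2) ℤ) = -1 := by
  have h := cm_add (1 : G) (1 : Matrix (Fin 2) (Fin 2) ℤ) (-1)
  rw [add_neg_cancel, cm_zero, cm_one] at h
  exact (neg_eq_of_add_eq_zero_right h.symm).symm

/-- the word with monodromies -/
noncomputable def word (x : ℕ → G) : SWord (Matrix (Fin 2) (Fin 2) (MonoidAlgebra ℤ G)) where
  s := sA
  s_add a b := by unfold sA; rw [dual_add, mul_add, add_mul]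
  s_mul := sA_mul
  s_s := sA_sA
  s_one := by unfold sA; rw [dual_one, mul_one, cmL']
  x i := cm (x i) (mono i)
  B i := cm (bd x i) (prodm i)
  xs i := by rw [sA_cm, cm_mul, mul_inv_cancel, mono_s, cm_neg_one]
  sx i := by rw [sA_cm, cm_mul, inv_mul_cancel, s_mono, cm_neg_one]
  B0 := by
    show cm (1 : G) (prodm 0) = 1
    have : prodm 0 = 1 := by unfold prodm; rw [if_pos (by decide)]
    rw [this, cm_one]
  BS i := by
    show cm (bd x i * (x i * x i)) (prodm (i + 1)) = _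
    rw [prodm_succ, cm_mul, cm_mul, mul_assoc (bd x i)]

lemma mem_cent (g : G) (c : Matrix (Fin 2) (Fin 2) ℤ) (h : ee * c = c * ee) :
    cm g c ∈ Subring.centralizer {cm (1 : G) ee} := by
  rw [Subring.mem_centralizer_iff]
  rintro _ rfl
  rw [cm_mul, cm_mul, h, one_mul, mul_one]

lemma mem_x (x : ℕ → G) (i : ℕ) : (word x).x i ∈ Subring.centralizer {cm (1 : G) ee} :=
  mem_cent _ _ (ee_mono i)

lemma mem_sx (x : ℕ → G) (i : ℕ) :
    (word x).s ((word x).x i) ∈ Subring.centralizer {cm (1 : G) ee} := by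
  show sA (cm (x i) (mono i)) ∈ _
  rw [sA_cm]
  exact mem_cent _ _ (ee_s_mono i)

lemma mem_B (x : ℕ → G) (i : ℕ) : (word x).B i ∈ Subring.centralizer {cm (1 : G) ee} :=
  mem_cent _ _ (ee_prodm i)

lemma mem_sB (x : ℕ → G) (i : ℕ) :
    (word x).s ((word x).B i) ∈ Subring.centralizer {cm (1 : G) ee} := by
  show sA (cm (bd x i) (prodm i)) ∈ _
  rw [sA_cm]
  exact mem_cent _ _ (ee_s_prodm i)

lemma mem_del (x : ℕ → G) (i : ℕ) : (word x).del i ∈ Subring.centralizer {cm (1 : G) ee} :=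
  mul_mem (mem_B x i) (add_mem (one_mem _) (mem_x x i))

lemma mem_sdel (x : ℕ → G) (i : ℕ) :
    (word x).s ((word x).del i) ∈ Subring.centralizer {cm (1 : G) ee} := by
  rw [SWord.s_del]
  exact mul_mem (add_mem (one_mem _) (mem_sx x i)) (mem_sB x i)

lemma mem_phi (x : ℕ → G) (i j : ℕ) :
    (word x).phi i j ∈ Subring.centralizer {cm (1 : G) ee} := by
  unfold SWord.phi
  split_ifs
  · exact mem_x x i
  · exact mul_mem (mem_sdel x i) (mem_del x j)
  · exact zero_mem _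

lemma comm_of_mem {y : Matrix (Fin 2) (Fin 2) (MonoidAlgebra ℤ G)}
    (h : y ∈ Subring.centralizer {cm (1 : G) ee}) : cm 1 ee * y = y * cm 1 ee :=
  (Subring.mem_centralizer_iff.1 h) _ rfl

/-- the lift, as a matrix of 2-by-2 matrices -/
noncomputable def liftA (x : ℕ → G) (h : ℕ) :
    Matrix (Fin h) (Fin h) (Matrix (Fin 2) (Fin 2) (MonoidAlgebra ℤ G)) :=
  Matrix.of fun i j => cm 1 Lam * ((word x).phi i j * cm 1 ee)

/-- the lift -/
noncomputable def lift (x : ℕ → G) (h : ℕ) :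
    Matrix (Fin h × Fin 2) (Fin h × Fin 2) (MonoidAlgebra ℤ G) :=
  Matrix.comp _ _ _ _ _ (liftA x h)

lemma dual_cmL (y : Matrix (Fin 2) (Fin 2) (MonoidAlgebra ℤ G)) :
    dual (cm 1 Lam * y) = -(cm 1 Lam * sA y) := by
  rw [dual_mul, dual_cm, inv_one, Lam_t]
  unfold sA
  have h1 : cm (1 : G) (-Lam) = -cm 1 Lam := by
    have h := cm_add (1 : G) Lam (-Lam)
    rw [add_neg_cancel, cm_zero] at h
    exact (neg_eq_of_add_eq_zero_right h.symm).symm
  calc dual y * cm 1 (-Lam) = -(1 * dual y * cm 1 Lam) := by rw [h1]; noncomm_ring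
    _ = -((cm (1 : G) Lam * cm 1 (-Lam)) * dual y * cm 1 Lam) := by rw [cmL]
    _ = _ := by noncomm_ring

lemma isUnit_lift (x : ℕ → G) (h : ℕ) (hx : bd x h = 1) (he : Even h) :
    IsUnit (lift x h + dual (lift x h)) := by
  have h1 : lift x h + dual (lift x h) = Matrix.compRingEquiv (Fin h) (Fin 2) (MonoidAlgebra ℤ G)
      (Matrix.scalar (Fin h) (cm 1 Lam) * (Matrix.of fun i j : Fin h =>
        (word x).phi i j * cm 1 ee - (word x).s ((word x).phi j i * cm 1 ee))) := by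
    ext1 ik jl
    obtain ⟨i, k⟩ := ik
    obtain ⟨j, l⟩ := jl
    have h2 : dual (lift x h) (i, k) (j, l)
        = dual (cm 1 Lam * ((word x).phi j i * cm 1 ee)) k l := rfl
    rw [Matrix.add_apply, h2, dual_cmL, Matrix.compRingEquiv_apply, Matrix.comp_apply,
      Matrix.scalar_apply, Matrix.diagonal_mul]
    show (cm (1 : G) Lam * ((word x).phi i j * cm (1 : G) ee) :
        Matrix (Fin 2) (Fin 2) (MonoidAlgebra ℤ G)) k l + _
      = (cm (1 : G) Lam * ((word x).phi i j * cm (1 : G) ee - sA ((word x).phi j i * cm (1 : G) ee)) :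
        Matrix (Fin 2) (Fin 2) (MonoidAlgebra ℤ G)) k l
    rw [mul_sub, Matrix.sub_apply, Matrix.neg_apply, sub_eq_add_neg]
  rw [h1]
  refine IsUnit.map _ (IsUnit.mul ?_ ?_)
  · refine IsUnit.map _ ?_
    exact ⟨⟨cm 1 Lam, cm 1 (-Lam), cmL, cmL'⟩, rfl⟩
  · refine (word x).isUnit_sub h ?_ _ ?_ ?_ ?_
    · show cm (bd x h) (prodm h) = 1
      have : prodm h = 1 := by unfold prodm; rw [if_pos he]
      rw [hx, this, cm_one]
    · intro i j
      exact comm_of_mem (mem_phi x i j)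
    · intro i j
      exact comm_of_mem (mul_mem (sub_mem (mem_x x i) (one_mem _)) (mem_del x j))
    · show sA (cm 1 ee) = 1 - cm 1 ee
      rw [sA_cm, inv_one, sZ_ee]
      have h := cm_add (1 : G) (1 - ee) ee
      rw [sub_add_cancel, cm_one] at h
      exact eq_sub_of_add_eq h.symm

/-- the reduction modulo two of matrices over `ℤ[G]` -/
noncomputable def rr : Matrix (Fin 2) (Fin 2) (MonoidAlgebra ℤ G) →+*
    Matrix (Fin 2) (Fin 2) (MonoidAlgebra (ZMod 2) G) :=
  (MonoidAlgebra.mapRingHom G (Int.castRingHom (ZMod 2))).mapMatrix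

lemma rr_cm (g : G) (c : Matrix (Fin 2) (Fin 2) ℤ) : rr (cm g c) = cm g (red2 c) := by
  ext1 i j
  exact MonoidAlgebra.mapRingHom_single _ _ _

lemma cm_scalar (g : G) : cm g (1 : Matrix (Fin 2) (Fin 2) (ZMod 2))
    = Matrix.scalar (Fin 2) (grp (ZMod 2) g) := by
  ext1 i j
  rw [Matrix.scalar_apply, cm, Matrix.map_apply]
  by_cases h : i = j
  · subst h; rw [Matrix.one_apply_eq, Matrix.diagonal_apply_eq]
  · rw [Matrix.one_apply_ne h, Matrix.diagonal_apply_ne _ h, MonoidAlgebra.single_zero]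

lemma rr_phi (x : ℕ → G) (h : ℕ) (i j : Fin h) :
    rr ((word x).phi i j) = Matrix.scalar (Fin 2) (Phi (ZMod 2) x h i j) := by
  have hX : ∀ i, rr ((word x).x i) = Matrix.scalar (Fin 2) (grp (ZMod 2) (x i)) := by
    intro i
    show rr (cm (x i) (mono i)) = _
    rw [rr_cm, red2_mono, cm_scalar]
  have hB : ∀ i, rr ((word x).B i) = Matrix.scalar (Fin 2) (grp (ZMod 2) (bd x i)) := by
    intro i
    show rr (cm (bd x i) (prodm i)) = _
    rw [rr_cm, red2_prodm, cm_scalar]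
  have hsX : ∀ i, rr ((word x).s ((word x).x i)) = Matrix.scalar (Fin 2) (grp (ZMod 2) (x i)⁻¹) := by
    intro i
    show rr (sA (cm (x i) (mono i))) = _
    rw [sA_cm, rr_cm, red2_s_mono, cm_scalar]
  have hsB : ∀ i, rr ((word x).s ((word x).B i))
      = Matrix.scalar (Fin 2) (grp (ZMod 2) (bd x i)⁻¹) := by
    intro i
    show rr (sA (cm (bd x i) (prodm i))) = _
    rw [sA_cm, rr_cm, red2_s_prodm, cm_scalar]
  unfold SWord.phi Phi
  rw [Matrix.of_apply]
  by_cases hij : i = j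
  · subst hij
    rw [if_pos rfl, if_pos rfl, hX]
  · have hij' : ¬ (i : ℕ) = j := fun h => hij (Fin.ext h)
    rw [if_neg hij, if_neg hij']
    by_cases hlt : i < j
    · have hlt' : (i : ℕ) < j := hlt
      rw [if_pos hlt, if_pos hlt', SWord.s_del, SWord.del, map_mul, map_mul, map_mul, map_add,
        map_add, map_one, hX, hB, hsX, hsB, ← map_one (Matrix.scalar (Fin 2)), ← map_add,
        ← map_add, ← map_mul, ← map_mul, ← map_mul]
      congr 1
      rw [mul_assoc (1 + grp (ZMod 2) (x i)⁻¹) (grp (ZMod 2) (bd x ↑i)⁻¹),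
        ← mul_assoc (grp (ZMod 2) (bd x ↑i)⁻¹), MonoidAlgebra.single_mul_single, mul_one,
        ← mul_assoc]
    · have hlt' : ¬ (i : ℕ) < j := hlt
      rw [if_neg hlt, if_neg hlt', map_zero, map_zero]

/-- the numbering of the base -/
def sg (h : ℕ) : Fin h × Fin 2 ≃ Fin h ⊕ Fin h where
  toFun p := if p.2 = 0 then Sum.inl p.1 else Sum.inr p.1
  invFun := Sum.elim (fun i => (i, 0)) (fun i => (i, 1))
  left_inv := by
    rintro ⟨i, k⟩
    fin_cases k <;> rfl
  right_inv := by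
    rintro (i | i) <;> rfl

lemma lift_red (x : ℕ → G) (h : ℕ) :
    (lift x h).map (MonoidAlgebra.mapRingHom G (Int.castRingHom (ZMod 2)))
      = (PhiForm (ZMod 2) x h 1 1).submatrix (sg h) (sg h) := by
  ext1 ik jl
  obtain ⟨i, k⟩ := ik
  obtain ⟨j, l⟩ := jl
  have h1 : ((lift x h).map (MonoidAlgebra.mapRingHom G (Int.castRingHom (ZMod 2)))) (i, k) (j, l)
      = (rr (cm 1 Lam * ((word x).phi i j * cm 1 ee))) k l := rfl
  have h2 : rr (cm (1 : G) Lam * ((word x).phi i j * cm 1 ee))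
      = cm 1 (red2 Lam) * (Matrix.scalar (Fin 2) (Phi (ZMod 2) x h i j) * cm 1 (red2 ee)) := by
    rw [map_mul, map_mul, rr_cm, rr_cm, rr_phi]
  rw [h1, h2]
  have hL : red2 Lam = !![0, 1; 1, 0] := by decide
  have hE : red2 ee = !![0, 1; 1, 1] := by decide
  obtain ⟨p, hp⟩ : ∃ p, Phi (ZMod 2) x h i j = p := ⟨_, rfl⟩
  rw [hL, hE, hp]
  have h3 : (PhiForm (ZMod 2) x h 1 1).submatrix (sg h) (sg h) (i, k) (j, l)
      = PhiForm (ZMod 2) x h 1 1 (sg h (i, k)) (sg h (j, l)) := rfl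
  rw [h3, PhiForm]
  fin_cases k <;> fin_cases l
  · show _ = Matrix.fromBlocks _ _ _ _ (Sum.inl i) (Sum.inl j)
    rw [Matrix.fromBlocks_apply₁₁, one_smul, hp]
    simp [cm, Matrix.mul_apply, Fin.sum_univ_two, ← MonoidAlgebra.one_def]
  · show _ = Matrix.fromBlocks _ _ _ _ (Sum.inl i) (Sum.inr j)
    rw [Matrix.fromBlocks_apply₁₂, hp]
    simp [cm, Matrix.mul_apply, Fin.sum_univ_two, ← MonoidAlgebra.one_def]
  · show _ = Matrix.fromBlocks _ _ _ _ (Sum.inr i) (Sum.inl j)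
    rw [Matrix.fromBlocks_apply₂₁, Matrix.zero_apply]
    simp [cm, Matrix.mul_apply, Fin.sum_univ_two, ← MonoidAlgebra.one_def]
  · show _ = Matrix.fromBlocks _ _ _ _ (Sum.inr i) (Sum.inr j)
    rw [Matrix.fromBlocks_apply₂₂, one_smul, hp]
    simp [cm, Matrix.mul_apply, Fin.sum_univ_two, ← MonoidAlgebra.one_def]

end

end LiftZ

end Pool.Agent.Lib.MP8a3537.K2
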