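import Pool.Agent.Lib.MP_8a3537_gt.K2.Homology

/-!
# Every class in `H_2(G; F_2)` is the class of a word
-/

namespace Pool.Agent.Lib.MP8a3537.K2

open MonoidAlgebra

section

variable {G : Type} [Group G]

/-- the concatenation of two words -/
def concat (x : ℕ → G) (h : ℕ) (y : ℕ → G) : ℕ → G := fun i => if i < h then x i else y (i - h)

lemma bd_concat_lt (x : ℕ → G) (h : ℕ) (y : ℕ → G) (i : ℕ) (hi : i ≤ h) :
    bd (concat x h y) i = bd x i :=
  bd_congr (n := h) (fun _ hi => if_pos hi) i hi

lemma bd_concat (x : ℕ → G) (h : ℕ) (y : ℕ → G) (i : ℕ) :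
    bd (concat x h y) (h + i) = bd x h * bd y i := by
  induction i with
  | zero =>
    rw [add_zero, bd_concat_lt _ _ _ _ le_rfl]
    exact (mul_one _).symm
  | succ i ih =>
    show bd (concat x h y) (h + i) * (concat x h y (h + i) * concat x h y (h + i))
      = bd x h * (bd y i * (y i * y i))
    have h1 : concat x h y (h + i) = y i := by
      unfold concat
      rw [if_neg (by omega), Nat.add_sub_cancel_left]
    rw [ih, h1, mul_assoc]

lemma chain_concat (x : ℕ → G) (h : ℕ) (hx : bd x h = 1) (y : ℕ → G) (k : ℕ) :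
    chain (concat x h y) (h + k) = chain x h + chain y k := by
  unfold chain
  rw [Finset.sum_range_add]
  congr 1
  · refine Finset.sum_congr rfl fun i hi => ?_
    have hi' : i < h := Finset.mem_range.1 hi
    have h1 : concat x h y i = x i := if_pos hi'
    rw [bd_concat_lt _ _ _ _ hi'.le, h1]
  · refine Finset.sum_congr rfl fun i _ => ?_
    have h1 : concat x h y (h + i) = y i := by
      unfold concat
      rw [if_neg (by omega), Nat.add_sub_cancel_left]
    rw [bd_concat, hx, one_mul, h1]

lemma wordClass_concat (x : ℕ → G) (h : ℕ) (hx : bd x h = 1) (y : ℕ → G) (k : ℕ)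
    (hy : bd y k = 1) : wordClass (concat x h y) (h + k) (by rw [bd_concat, hx, hy, one_mul])
      = wordClass x h hx + wordClass y k hy := by
  unfold wordClass
  rw [← Submodule.Quotient.mk_add]
  congr 1
  exact Subtype.ext (chain_concat x h hx y k)

/-- the classes of words -/
def wordClasses (G : Type) [Group G] : AddSubgroup (H2 G) where
  carrier := {z | ∃ (x : ℕ → G) (h : ℕ) (hx : bd x h = 1), wordClass x h hx = z}
  zero_mem' := by
    refine ⟨fun _ => 1, 0, rfl, ?_⟩
    unfold wordClass
    rw [Submodule.Quotient.mk_eq_zero]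
    exact ⟨0, by simp [chain]⟩
  add_mem' := by
    rintro _ _ ⟨x, h, hx, rfl⟩ ⟨y, k, hy, rfl⟩
    exact ⟨concat x h y, h + k, by rw [bd_concat, hx, hy, one_mul], wordClass_concat x h hx y k hy⟩
  neg_mem' := by
    rintro _ ⟨x, h, hx, rfl⟩
    refine ⟨x, h, hx, ?_⟩
    unfold wordClass
    rw [← Submodule.Quotient.mk_neg]
    congr 1
    refine Subtype.ext ?_
    show chain x h = -chain x h
    exact eq_neg_of_add_eq_zero_left (two_fin _)

/-- **Every class in `H_2(G; F_2)` is the class of a word.** -/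
theorem exists_word (z : H2 G) : ∃ (x : ℕ → G) (h : ℕ) (hx : bd x h = 1), wordClass x h hx = z := by
  by_contra hz
  have hz' : z ∉ (wordClasses G).toZModSubmodule 2 := hz
  obtain ⟨δ, hδ1, hδ2⟩ := Submodule.exists_le_ker_of_notMem hz'
  have hδ3 : ∀ (x : ℕ → G) (h : ℕ) (hx : bd x h = 1), δ (wordClass x h hx) = 0 :=
    fun x h hx => hδ2 ⟨x, h, hx, rfl⟩
  obtain ⟨g, hg⟩ := LinearMap.exists_extend (δ.comp (boundaries G).mkQ)
  have hg' : ∀ c : LinearMap.ker (d2 G), g c.1 = δ (Submodule.Quotient.mk c) := by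
    intro c
    exact LinearMap.congr_fun hg c
  -- the cocycle
  have hom : ∀ a b c : G, g (Finsupp.single (a, b) 1) + g (Finsupp.single (a * b, c) 1)
      = g (Finsupp.single (b, c) 1) + g (Finsupp.single (a, b * c) 1) := by
    intro a b c
    have h1 : g (d3 G (Finsupp.single (a, b, c) 1)) = 0 := by
      have h2 := hg' ⟨d3 G (Finsupp.single (a, b, c) 1), by
        rw [LinearMap.mem_ker]; exact d2_d3 a b c⟩
      rw [h2]
      have h3 : (Submodule.Quotient.mk ⟨d3 G (Finsupp.single (a, b, c) 1), by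
          rw [LinearMap.mem_ker]; exact d2_d3 a b c⟩ : H2 G) = 0 := by
        rw [Submodule.Quotient.mk_eq_zero]
        exact ⟨_, rfl⟩
      rw [h3, map_zero]
    rw [d3_single, map_add, map_add, map_add] at h1
    have e : ∀ p q r s : ZMod 2, p + q + r + s = 0 → s + q = p + r := by decide
    exact e _ _ _ _ h1
  -- it vanishes on the words
  have hp : ∀ (x : ℕ → G) (h : ℕ), bd x h = 1 →
      pairing (fun a b => g (Finsupp.single (a, b) 1)) x h = 0 := by
    intro x h hx
    have h2 := hg' ⟨chain x h, by rw [LinearMap.mem_ker, d2_chain, hx, two_fin]⟩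
    have h3 := hδ3 x h hx
    rw [wordClass, ← h2] at h3
    rw [← h3]
    unfold chain pairing
    rw [map_sum]
    refine Finset.sum_congr rfl fun i _ => ?_
    rw [map_add]
  -- it is a coboundary
  obtain ⟨f, hf⟩ : ∃ f : G → ZMod 2, ∀ a b : G,
      g (Finsupp.single (a, b) 1) = f a + f b + f (a * b) := by
    by_contra hno
    obtain ⟨n, x, h1, h2⟩ := nondeg (fun a b => g (Finsupp.single (a, b) 1)) hom hno
    rw [hp x n h1] at h2
    exact zero_ne_one h2
  -- and the functional is zero
  have hF : g = (Finsupp.lsum (ZMod 2) fun a => LinearMap.toSpanSingleton (ZMod 2) (ZMod 2) (f a)).comp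
      (d2 G) := by
    refine Finsupp.lhom_ext' fun p => LinearMap.ext_ring ?_
    obtain ⟨a, b⟩ := p
    show g (Finsupp.single (a, b) 1) = (Finsupp.lsum (ZMod 2)
      fun a => LinearMap.toSpanSingleton (ZMod 2) (ZMod 2) (f a)) (d2 G (Finsupp.single (a, b) 1))
    rw [hf, d2_single, map_add, map_add]
    simp
    ring
  obtain ⟨c, rfl⟩ := Submodule.Quotient.mk_surjective _ z
  apply hδ1
  rw [← hg' c, hF, LinearMap.comp_apply, LinearMap.mem_ker.1 c.2, map_zero]

end

end Pool.Agent.Lib.MP8a3537.K2
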