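import Pool.Agent.Lib.MP_8a3537_gt.K2.Value
import Pool.Agent.Lib.MP_8a3537_gt.K2.Surj
import Pool.Agent.Lib.MP_8a3537_gt.K2.LiftZ

/-!
# The degree two theorem: assembly of the parts
-/

namespace Pool.Agent.Lib.MP8a3537.K2

open Matrix MonoidAlgebra Pool.Agent.Lib.MP8a3537.D1 TensorProduct

section

variable {R K G : Type} [CommRing R] [CommRing K] [CharP K 2] [Group G]

/-- the homomorphisms on `L_0^s(R[G])` -/
theorem exists_hom (hG : ∀ g : G, g * g = 1 → g = 1) (f : R →+* K) (om : G → G → ZMod 2)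
    (hom : ∀ g h k, om g h + om (g * h) k = om h k + om g (h * k)) :
    ∃ (e : L0s R G →+ AS K)
      (d : (κ : Type) → [Fintype κ] → [DecidableEq κ] →
        (Matrix κ κ (MonoidAlgebra R G))ˣ →* Multiplicative (AS K)),
      (∀ (ψ : NForm R G) (x : ℕ → G) (h : ℕ) (a b : K), bd x h = 1 → IsLift f ψ x h a b →
        e ψ.cls = if pairing om x h = 0 then 0 else asMk K (a * b)) ∧
      (∀ c : NForm R G, IsConst c → e c.cls = 0) ∧
      (∀ (κ : Type) [Fintype κ] [DecidableEq κ] (u : (Matrix κ κ (MonoidAlgebra R G))ˣ),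
        u ∈ Simple R G κ → d κ u = 1) ∧
      (∀ (ψ φ : NForm R G) (σ : φ.κ ≃ ψ.κ) (u : (Matrix ψ.κ ψ.κ (MonoidAlgebra R G))ˣ)
        (η : Matrix ψ.κ ψ.κ (MonoidAlgebra R G)),
        φ.mat = (dual u.val * ψ.mat * u.val + η - dual η).submatrix σ σ →
        e φ.cls = e ψ.cls + Multiplicative.toAdd (d ψ.κ u)) := by
  obtain ⟨E, hE⟩ := hasInvariants_of_values (K := K) hG (hasValues hG) om hom
  obtain ⟨F, hF1, hF2⟩ := E.lift f
  refine ⟨F, fun κ _ _ =>
    { toFun := fun u => Multiplicative.ofAdd (E.h κ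
        (Units.map (MonoidAlgebra.mapRingHom G f).mapMatrix.toMonoidHom u))
      map_one' := ?_
      map_mul' := ?_ }, ?_, ?_, ?_, ?_⟩
  · rw [map_one, E.h_simple κ 1 (one_mem _), ofAdd_zero]
  · intro u v
    rw [map_mul, E.h_mul, ofAdd_add]
  · intro ψ x h a b hx ⟨σ, hσ⟩
    rw [hF1, hσ, E.reindex _ _ σ _ (PhiForm_nonsing K x h hx a b), hE x h hx a b]
  · intro c ⟨c0, hc⟩
    have h1 : c.mat.map (MonoidAlgebra.mapRingHom G f)
        = (c0.map f).map (MonoidAlgebra.single (1 : G)) := by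
      rw [hc]
      ext1 i j
      exact MonoidAlgebra.mapRingHom_single _ _ _
    rw [hF1, h1, E.const]
  · intro κ _ _ u hu
    exact congrArg Multiplicative.ofAdd (E.h_simple κ _ (simple_map f u hu))
  · intro ψ φ σ u η h
    exact hF2 ψ φ σ u η h

/-- injectivity -/
theorem injective (hG : ∀ g : G, g * g = 1 → g = 1) (f : R →+* K) (r : ℕ)
    (ψ : Fin r → NForm R G) (x : Fin r → ℕ → G) (h : Fin r → ℕ)
    (hx : ∀ j, bd (x j) (h j) = 1) (a b : Fin r → K) (c : NForm R G)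
    (hl : ∀ j, IsLift f (ψ j) (x j) (h j) (a j) (b j)) (hc : IsConst c)
    (hz : ∑ j, (ψ j).cls + c.cls = 0) :
    ∑ j, wordClass (x j) (h j) (hx j) ⊗ₜ[ℤ] asMk K (a j * b j) = 0 := by
  refine tensor_zero (V := AS K) ?_ _ _ ?_
  · intro v
    obtain ⟨z, rfl⟩ := QuotientAddGroup.mk'_surjective _ v
    rw [← map_add, CharTwo.add_self_eq_zero, map_zero]
  · intro δ
    obtain ⟨om, hom, hδ⟩ := exists_cocycle δ
    obtain ⟨e, -, he1, he2, -⟩ := exists_hom hG f om hom
    have h1 := congrArg e hz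
    rw [map_add, map_sum, map_zero, he2 c hc, add_zero] at h1
    refine Eq.trans (Finset.sum_congr rfl fun j _ => ?_) h1
    rw [hδ, he1 (ψ j) (x j) (h j) (a j) (b j) (hx j) (hl j)]

omit [CharP K 2] in
lemma wordClass_one (x : ℕ → G) (h : ℕ) (hx : bd x h = 1) :
    ∃ hx' : bd (concat x h (fun _ => 1)) (h + 1) = 1,
      wordClass (concat x h (fun _ => 1)) (h + 1) hx' = wordClass x h hx := by
  have h1 : bd (fun _ => (1 : G)) 1 = 1 := by
    show (1 : G) * (1 * 1) = 1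
    rw [one_mul, one_mul]
  refine ⟨by rw [bd_concat, hx, h1, one_mul], ?_⟩
  rw [wordClass_concat x h hx _ 1 h1]
  have h2 : wordClass (fun _ => (1 : G)) 1 h1 = 0 := by
    unfold wordClass
    rw [Submodule.Quotient.mk_eq_zero]
    refine ⟨0, ?_⟩
    rw [map_zero]
    symm
    show chain (fun _ => (1 : G)) 1 = 0
    unfold chain
    rw [Finset.sum_range_one]
    have : bd (fun _ => (1 : G)) 0 = 1 := rfl
    rw [this, one_mul, two_fin]
  rw [h2, add_zero]

/-- every class is the class of a word of even length -/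
theorem exists_word_even (z : H2 G) :
    ∃ (x : ℕ → G) (h : ℕ) (hx : bd x h = 1), Even h ∧ wordClass x h hx = z := by
  obtain ⟨x, h, hx, hz⟩ := exists_word z
  by_cases he : Even h
  · exact ⟨x, h, hx, he, hz⟩
  · obtain ⟨hx', h1⟩ := wordClass_one x h hx
    exact ⟨_, h + 1, hx', Nat.even_add_one.2 he, h1.trans hz⟩

/-- the forms `Φ_x ⊗ [a, b]` over `K[G]` -/
theorem exists_form (x : ℕ → G) (h : ℕ) (hx : bd x h = 1) (a b : K) :
    ∃ ψ : NForm K G, IsLift (RingHom.id K) ψ x h a b := by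
  refine ⟨PhiN K x h hx a b, Equiv.refl _, ?_⟩
  rw [MonoidAlgebra.mapRingHom_id]
  show (PhiForm K x h a b).map (RingHom.id _) = (PhiForm K x h a b).submatrix id id
  ext1 i j
  rfl

/-- their lifts to `ℤ[G]` -/
theorem exists_lift (x : ℕ → G) (h : ℕ) (hx : bd x h = 1) (he : Even h) :
    ∃ ψ : NForm ℤ G, IsLift (Int.castRingHom (ZMod 2)) ψ x h 1 1 :=
  ⟨{ κ := Fin h × Fin 2
     mat := LiftZ.lift x h
     nonsing := LiftZ.isUnit_lift x h hx he }, LiftZ.sg h, LiftZ.lift_red x h⟩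

end

end Pool.Agent.Lib.MP8a3537.K2
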