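import Mathlib

/-!
# The triangular matrices `Φ` with signs (MP_8a3537_gt, folder K2)

`A` a ring with involution `s`, `x_i` with `x_i s(x_i) = -1`, `B_0 = 1`, `B_(i+1) = B_i x_i²`.
-/

namespace Pool.Agent.Lib.MP8a3537.K2

open Matrix Finset

/-- data: `x_i`, `B_i` in a ring with involution -/
structure SWord (A : Type*) [Ring A] where
  s : A → A
  s_add : ∀ a b, s (a + b) = s a + s b
  s_mul : ∀ a b, s (a * b) = s b * s a
  s_s : ∀ a, s (s a) = a
  s_one : s 1 = 1
  x : ℕ → A
  B : ℕ → A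
  xs : ∀ i, x i * s (x i) = -1
  sx : ∀ i, s (x i) * x i = -1
  B0 : B 0 = 1
  BS : ∀ i, B (i + 1) = B i * x i * x i

namespace SWord

variable {A : Type*} [Ring A] (w : SWord A)

theorem s_zero : w.s 0 = 0 := by
  have := w.s_add 0 0
  rw [add_zero] at this
  exact left_eq_add.1 this

theorem s_neg (a : A) : w.s (-a) = -w.s a := by
  have := w.s_add a (-a)
  rw [add_neg_cancel, s_zero] at this
  exact (neg_eq_of_add_eq_zero_right this.symm).symm

theorem s_sub (a b : A) : w.s (a - b) = w.s a - w.s b := by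
  rw [sub_eq_add_neg, w.s_add, s_neg, ← sub_eq_add_neg]

theorem Bs (i : ℕ) : w.B i * w.s (w.B i) = 1 := by
  induction i with
  | zero => rw [w.B0, w.s_one, mul_one]
  | succ i ih =>
    rw [w.BS, w.s_mul, w.s_mul]
    calc w.B i * w.x i * w.x i * (w.s (w.x i) * (w.s (w.x i) * w.s (w.B i)))
        = w.B i * (w.x i * (w.x i * w.s (w.x i)) * w.s (w.x i)) * w.s (w.B i) := by noncomm_ring
      _ = w.B i * (w.x i * (-1) * w.s (w.x i)) * w.s (w.B i) := by rw [w.xs]
      _ = w.B i * (-(w.x i * w.s (w.x i))) * w.s (w.B i) := by noncomm_ring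
      _ = 1 := by rw [w.xs, neg_neg, mul_one, ih]

theorem sB (i : ℕ) : w.s (w.B i) * w.B i = 1 := by
  induction i with
  | zero => rw [w.B0, w.s_one, mul_one]
  | succ i ih =>
    rw [w.BS, w.s_mul, w.s_mul]
    calc w.s (w.x i) * (w.s (w.x i) * w.s (w.B i)) * (w.B i * w.x i * w.x i)
        = w.s (w.x i) * (w.s (w.x i) * (w.s (w.B i) * w.B i) * w.x i) * w.x i := by noncomm_ring
      _ = w.s (w.x i) * (w.s (w.x i) * w.x i) * w.x i := by rw [ih, mul_one]
      _ = w.s (w.x i) * (-1) * w.x i := by rw [w.sx]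
      _ = -(w.s (w.x i) * w.x i) := by noncomm_ring
      _ = 1 := by rw [w.sx, neg_neg]

/-- `ρ_i = x_i - 1` -/
def rho (i : ℕ) : A := w.x i - 1

/-- `δ_i = B_i (1 + x_i)` -/
def del (i : ℕ) : A := w.B i * (1 + w.x i)

/-- the entries of `Φ` -/
def phi (i j : ℕ) : A := if i = j then w.x i else if i < j then w.s (w.del i) * w.del j else 0

/-- the entries of `Φ⁻¹` -/
def the (i j : ℕ) : A :=
  if i = j then -w.s (w.x i) else if i < j then w.rho i * w.s (w.rho j) else 0

theorem phi_self (i : ℕ) : w.phi i i = w.x i := by simp [phi]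

theorem phi_lt {i j : ℕ} (h : i < j) : w.phi i j = w.s (w.del i) * w.del j := by
  simp [phi, h, h.ne]

theorem phi_gt {i j : ℕ} (h : j < i) : w.phi i j = 0 := by
  simp [phi, h.ne', h.le]

theorem the_self (i : ℕ) : w.the i i = -w.s (w.x i) := by simp [the]

theorem the_lt {i j : ℕ} (h : i < j) : w.the i j = w.rho i * w.s (w.rho j) := by
  simp [the, h, h.ne]

theorem the_gt {i j : ℕ} (h : j < i) : w.the i j = 0 := by
  simp [the, h.ne', h.le]

theorem del_rho (i : ℕ) : w.del i * w.rho i = w.B (i + 1) - w.B i := by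
  rw [del, rho, w.BS]; noncomm_ring

theorem s_del (i : ℕ) : w.s (w.del i) = (1 + w.s (w.x i)) * w.s (w.B i) := by
  rw [del, w.s_mul, w.s_add, w.s_one]

theorem s_rho (i : ℕ) : w.s (w.rho i) = w.s (w.x i) - 1 := by
  rw [rho, s_sub, w.s_one]

theorem sdel_B (i : ℕ) : w.s (w.del i) * w.B i = 1 + w.s (w.x i) := by
  rw [s_del, mul_assoc, w.sB, mul_one]

theorem sdel_BS (i : ℕ) : w.s (w.del i) * w.B (i + 1) = w.x i * w.rho i := by
  rw [w.BS, ← mul_assoc, ← mul_assoc, sdel_B, rho]
  calc (1 + w.s (w.x i)) * w.x i * w.x i = w.x i * w.x i + (w.s (w.x i) * w.x i) * w.x i := by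
        noncomm_ring
    _ = w.x i * (w.x i - 1) := by rw [w.sx]; noncomm_ring

theorem del_xs (i : ℕ) : w.del i * w.s (w.x i) = w.B i * w.s (w.rho i) := by
  rw [del, s_rho, mul_assoc, add_mul, w.xs, one_mul, sub_eq_add_neg]

/-- partial row sums of `Φ ρ` -/
theorem sum_phi_rho (i : ℕ) : ∀ k, i < k → ∑ j ∈ range k, w.phi i j * w.rho j = w.s (w.del i) * w.B k := by
  intro k hk
  induction k, hk using Nat.le_induction with
  | base =>
    rw [Nat.succ_eq_add_one, sum_range_succ, phi_self, sdel_BS]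
    rw [Finset.sum_eq_zero, zero_add]
    intro j hj
    rw [w.phi_gt (mem_range.1 hj), zero_mul]
  | succ k hk ih =>
    rw [sum_range_succ, ih, w.phi_lt (by omega), mul_assoc, del_rho]
    noncomm_ring

/-- partial row sums of `Θ δ^*` -/
theorem sum_the_del (i : ℕ) : ∀ k, i < k → ∑ j ∈ range k, w.the i j * w.s (w.del j) = w.rho i * w.s (w.B k) := by
  have key : -w.s (w.x i) * w.s (w.del i) = w.rho i * w.s (w.B (i + 1)) := by
    rw [s_del, w.BS, w.s_mul, w.s_mul, rho]
    calc -w.s (w.x i) * ((1 + w.s (w.x i)) * w.s (w.B i))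
        = (-1) * (w.s (w.x i) * w.s (w.B i)) - w.s (w.x i) * (w.s (w.x i) * w.s (w.B i)) := by
          noncomm_ring
      _ = (w.x i * w.s (w.x i)) * (w.s (w.x i) * w.s (w.B i))
          - w.s (w.x i) * (w.s (w.x i) * w.s (w.B i)) := by rw [w.xs]
      _ = _ := by noncomm_ring
  intro k hk
  induction k, hk using Nat.le_induction with
  | base =>
    rw [Nat.succ_eq_add_one, sum_range_succ, the_self, key, Finset.sum_eq_zero, zero_add]
    intro j hj
    rw [w.the_gt (mem_range.1 hj), zero_mul]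
  | succ k hk ih =>
    rw [sum_range_succ, ih, w.the_lt (by omega), mul_assoc, ← w.s_mul, del_rho, s_sub]
    noncomm_ring

/-- `Φ Θ = 1` -/
theorem phi_the (h i k : ℕ) (hi : i < h) (hk : k < h) :
    ∑ j ∈ range h, w.phi i j * w.the j k = if i = k then 1 else 0 := by
  have h1 : ∑ j ∈ range h, w.phi i j * w.the j k = ∑ j ∈ range (k + 1), w.phi i j * w.the j k := by
    symm
    apply Finset.sum_subset (range_subset_range.2 (by omega))
    intro j _ hj
    rw [w.the_gt (by simpa using hj), mul_zero]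
  rw [h1, sum_range_succ, the_self]
  have h2 : ∑ j ∈ range k, w.phi i j * w.the j k = (∑ j ∈ range k, w.phi i j * w.rho j) * w.s (w.rho k) := by
    rw [Finset.sum_mul]
    refine Finset.sum_congr rfl fun j hj => ?_
    rw [w.the_lt (mem_range.1 hj), mul_assoc]
  rw [h2]
  rcases lt_trichotomy i k with hik | hik | hik
  · rw [w.sum_phi_rho i k hik, w.phi_lt hik, if_neg hik.ne]
    have := w.del_xs k
    calc w.s (w.del i) * w.B k * w.s (w.rho k) + w.s (w.del i) * w.del k * -w.s (w.x k)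
        = w.s (w.del i) * (w.B k * w.s (w.rho k)) - w.s (w.del i) * (w.del k * w.s (w.x k)) := by
          noncomm_ring
      _ = 0 := by rw [this, sub_self]
  · subst hik
    rw [Finset.sum_eq_zero, zero_mul, zero_add, phi_self, mul_neg, w.xs, neg_neg, if_pos rfl]
    intro j hj
    rw [w.phi_gt (mem_range.1 hj), zero_mul]
  · rw [Finset.sum_eq_zero, zero_mul, zero_add, w.phi_gt hik, zero_mul, if_neg hik.ne']
    intro j hj
    rw [w.phi_gt (lt_trans (mem_range.1 hj) hik), zero_mul]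

/-- `Θ Φ = 1` -/
theorem the_phi (h i k : ℕ) (hi : i < h) (hk : k < h) :
    ∑ j ∈ range h, w.the i j * w.phi j k = if i = k then 1 else 0 := by
  have h1 : ∑ j ∈ range h, w.the i j * w.phi j k = ∑ j ∈ range (k + 1), w.the i j * w.phi j k := by
    symm
    apply Finset.sum_subset (range_subset_range.2 (by omega))
    intro j _ hj
    rw [w.phi_gt (by simpa using hj), mul_zero]
  rw [h1, sum_range_succ, phi_self]
  have h2 : ∑ j ∈ range k, w.the i j * w.phi j k = (∑ j ∈ range k, w.the i j * w.s (w.del j)) * w.del k := by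
    rw [Finset.sum_mul]
    refine Finset.sum_congr rfl fun j hj => ?_
    rw [w.phi_lt (mem_range.1 hj), mul_assoc]
  rw [h2]
  rcases lt_trichotomy i k with hik | hik | hik
  · have h3 : w.s (w.B k) * w.del k = 1 + w.x k := by rw [del, ← mul_assoc, w.sB, one_mul]
    have h4 : w.s (w.rho k) * w.x k = -1 - w.x k := by
      rw [s_rho, sub_mul, w.sx, one_mul]
    rw [w.sum_the_del i k hik, w.the_lt hik, mul_assoc, mul_assoc, h3, h4, if_neg hik.ne]
    noncomm_ring
  · subst hik
    rw [Finset.sum_eq_zero, zero_mul, zero_add, the_self, neg_mul, w.sx, neg_neg, if_pos rfl]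
    intro j hj
    rw [w.the_gt (mem_range.1 hj), zero_mul]
  · rw [Finset.sum_eq_zero, zero_mul, zero_add, w.the_gt hik, zero_mul, if_neg hik.ne']
    intro j hj
    rw [w.the_gt (lt_trans (mem_range.1 hj) hik), zero_mul]

/-- `Φ + Φ^* = δ^* δ` -/
theorem phi_add_s (i j : ℕ) : w.phi i j + w.s (w.phi j i) = w.s (w.del i) * w.del j := by
  rcases lt_trichotomy i j with hij | hij | hij
  · rw [w.phi_lt hij, w.phi_gt hij, s_zero, add_zero]
  · subst hij
    rw [phi_self, s_del, del]
    calc w.x i + w.s (w.x i) = 1 + w.x i + w.s (w.x i) + w.s (w.x i) * w.x i := by rw [w.sx]; abel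
      _ = (1 + w.s (w.x i)) * (1 + w.x i) := by noncomm_ring
      _ = (1 + w.s (w.x i)) * (w.s (w.B i) * w.B i) * (1 + w.x i) := by rw [w.sB, mul_one]
      _ = _ := by noncomm_ring
  · rw [w.phi_gt hij, w.phi_lt hij, w.s_mul, w.s_s, zero_add]

/-- `δ ρ = B_h - 1` -/
theorem sum_del_rho (h : ℕ) : ∑ i ∈ range h, w.del i * w.rho i = w.B h - 1 := by
  induction h with
  | zero => rw [sum_range_zero, w.B0, sub_self]
  | succ k ih =>
    rw [sum_range_succ, ih, del_rho]
    abel

/-! ### Matrices -/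

/-- `Φ` -/
def Phi (h : ℕ) : Matrix (Fin h) (Fin h) A := Matrix.of fun i j => w.phi i j

/-- `Θ` -/
def The (h : ℕ) : Matrix (Fin h) (Fin h) A := Matrix.of fun i j => w.the i j

/-- `N = ρ δ` -/
def N (h : ℕ) : Matrix (Fin h) (Fin h) A := Matrix.of fun i j => w.rho i * w.del j

theorem Phi_The (h : ℕ) : w.Phi h * w.The h = 1 := by
  ext1 i j
  rw [Matrix.mul_apply, Matrix.one_apply]
  have h1 := w.phi_the h i j i.2 j.2
  rw [← Fin.sum_univ_eq_sum_range (fun l => w.phi i l * w.the l j)] at h1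
  exact h1.trans (if_congr (Fin.ext_iff.symm) rfl rfl)

theorem The_Phi (h : ℕ) : w.The h * w.Phi h = 1 := by
  ext1 i j
  rw [Matrix.mul_apply, Matrix.one_apply]
  have h1 := w.the_phi h i j i.2 j.2
  rw [← Fin.sum_univ_eq_sum_range (fun l => w.the i l * w.phi l j)] at h1
  exact h1.trans (if_congr (Fin.ext_iff.symm) rfl rfl)

theorem N_N (h : ℕ) (hB : w.B h = 1) : w.N h * w.N h = 0 := by
  ext1 i j
  rw [Matrix.mul_apply, Matrix.zero_apply]
  have h1 : ∀ l : Fin h, w.N h i l * w.N h l j = w.rho i * (w.del l * w.rho l) * w.del j := by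
    intro l
    show w.rho i * w.del l * (w.rho l * w.del j) = _
    noncomm_ring
  rw [Finset.sum_congr rfl fun l _ => h1 l, ← Finset.sum_mul, ← Finset.mul_sum,
    Fin.sum_univ_eq_sum_range (fun l => w.del l * w.rho l), w.sum_del_rho, hB, sub_self,
    mul_zero, zero_mul]

theorem Phi_N (h : ℕ) (hB : w.B h = 1) (i j : Fin h) :
    (w.Phi h * w.N h) i j = w.s (w.del i) * w.del j := by
  rw [Matrix.mul_apply]
  have h1 : ∀ l : Fin h, w.Phi h i l * w.N h l j = (w.phi i l * w.rho l) * w.del j := by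
    intro l
    show w.phi i l * (w.rho l * w.del j) = _
    noncomm_ring
  rw [Finset.sum_congr rfl fun l _ => h1 l, ← Finset.sum_mul,
    Fin.sum_univ_eq_sum_range (fun l => w.phi i l * w.rho l), w.sum_phi_rho i h i.2, hB, mul_one]

/-- For a central `e` with `e + s(e) = 1` the matrix `Φ e - (Φ e)^*` is invertible. -/
theorem isUnit_sub (h : ℕ) (hB : w.B h = 1) (e : A) (he : ∀ i j, e * w.phi i j = w.phi i j * e)
    (he2 : ∀ i j, e * (w.rho i * w.del j) = w.rho i * w.del j * e)
    (he1 : w.s e = 1 - e) :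
    IsUnit (Matrix.of fun i j : Fin h => w.phi i j * e - w.s (w.phi j i * e)) := by
  have hE : ∀ y : Matrix (Fin h) (Fin h) A, (∀ i j, e * y i j = y i j * e) →
      Matrix.scalar (Fin h) e * y = y * Matrix.scalar (Fin h) e := by
    intro y hy
    ext1 i j
    rw [Matrix.scalar_apply, Matrix.diagonal_mul, Matrix.mul_diagonal, hy]
  obtain ⟨E, hE'⟩ : ∃ E, Matrix.scalar (Fin h) e = E := ⟨_, rfl⟩
  rw [hE'] at hE
  have hN := w.N_N h hB
  have hEN : E * w.N h = w.N h * E := hE _ (fun i j => he2 i j)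
  have hEP : E * w.Phi h = w.Phi h * E := hE _ (fun i j => he i j)
  have h1 : (Matrix.of fun i j : Fin h => w.phi i j * e - w.s (w.phi j i * e))
      = w.Phi h * (1 - w.N h * (1 - E)) := by
    have h2 : w.Phi h * (1 - w.N h * (1 - E))
        = w.Phi h - (w.Phi h * w.N h) * (1 - E) := by noncomm_ring
    rw [h2]
    ext1 i j
    have h3 : ((w.Phi h * w.N h) * (1 - E)) i j = w.s (w.del i) * w.del j * (1 - e) := by
      rw [mul_sub, mul_one, Matrix.sub_apply, w.Phi_N h hB, ← hE', Matrix.scalar_apply,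
        Matrix.mul_diagonal, w.Phi_N h hB, mul_sub, mul_one]
    rw [Matrix.sub_apply, h3]
    show w.phi i j * e - w.s (w.phi j i * e) = w.phi i j - w.s (w.del i) * w.del j * (1 - e)
    rw [← w.phi_add_s, w.s_mul, he1]
    have h4 : (1 - e) * w.s (w.phi j i) = w.s (w.phi j i) * (1 - e) := by
      have h5 := congrArg w.s (he j i)
      rw [w.s_mul, w.s_mul, he1] at h5
      exact h5.symm
    rw [h4]
    noncomm_ring
  rw [h1]
  refine IsUnit.mul ⟨⟨w.Phi h, w.The h, w.Phi_The h, w.The_Phi h⟩, rfl⟩ ?_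
  have h6 : w.N h * (1 - E) * (w.N h * (1 - E)) = 0 := by
    have : w.N h * (1 - E) * (w.N h * (1 - E)) = w.N h * w.N h * (1 - E) * (1 - E) := by
      have h7 : (1 - E) * w.N h = w.N h * (1 - E) := by rw [sub_mul, mul_sub, one_mul, mul_one, hEN]
      calc w.N h * (1 - E) * (w.N h * (1 - E)) = w.N h * ((1 - E) * w.N h) * (1 - E) := by
            noncomm_ring
        _ = _ := by rw [h7]; noncomm_ring
    rw [this, hN, zero_mul, zero_mul]
  refine ⟨⟨1 - w.N h * (1 - E), 1 + w.N h * (1 - E), ?_, ?_⟩, rfl⟩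
  · have : (1 - w.N h * (1 - E)) * (1 + w.N h * (1 - E))
        = 1 - w.N h * (1 - E) * (w.N h * (1 - E)) := by noncomm_ring
    rw [this, h6, sub_zero]
  · have : (1 + w.N h * (1 - E)) * (1 - w.N h * (1 - E))
        = 1 - w.N h * (1 - E) * (w.N h * (1 - E)) := by noncomm_ring
    rw [this, h6, sub_zero]

end SWord

end Pool.Agent.Lib.MP8a3537.K2
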