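import Pool.Agent.Lib.MP_8a3537_gt.K2.Val
import Pool.Agent.Lib.MP_8a3537_gt.K2.PhiAlg
import Pool.Agent.Lib.MP_8a3537_gt.K2.Words
import Pool.Agent.Lib.MP_8a3537_gt.K2.Fan
import Pool.Agent.Lib.MP_8a3537_gt.K2.Nondeg
import Pool.Agent.Lib.MP_8a3537_gt.K2.Sym

/-!
# The value on the forms `Φ_x ⊗ (a 1; 0 b)` (MP_8a3537_gt, folder K2, section 4 of the paper)
-/

namespace Pool.Agent.Lib.MP8a3537.K2

open Matrix MonoidAlgebra Finset

section

variable {K G : Type} [CommRing K] [Group G]

/-- the involution of `K[G]` -/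
@[instance_reducible] noncomputable def starR : StarRing (MonoidAlgebra K G) where
  star := Base.t K G
  star_involutive := Base.t_t
  star_mul := Base.t_mul
  star_add := map_add _

attribute [local instance] starR

theorem star_single (g : G) (a : K) : star (single g a : MonoidAlgebra K G) = single g⁻¹ a := Base.t_single g a

/-- the word `x` in the ring `K[G]` -/
noncomputable def word (hK : ∀ z : K, z + z = 0) (x : ℕ → G) : Word (MonoidAlgebra K G) where
  x i := single (x i) 1
  B i := single (bd x i) 1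
  two := Base.add_self_of hK
  xs i := by rw [star_single, single_mul_single, mul_inv_cancel, mul_one]; rfl
  sx i := by rw [star_single, single_mul_single, inv_mul_cancel, mul_one]; rfl
  B0 := rfl
  BS i := by
    rw [single_mul_single, single_mul_single, mul_one, mul_one]
    show single (bd x i * (x i * x i)) 1 = _
    rw [mul_assoc]

theorem Phi_eq (hK : ∀ z : K, z + z = 0) (x : ℕ → G) (h : ℕ) (i j : Fin h) : Phi K x h i j = (word hK x).phi i j := by
  unfold Phi Word.phi
  rw [Matrix.of_apply]
  by_cases h1 : i = j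
  · subst h1; rw [if_pos rfl, if_pos rfl]; rfl
  · rw [if_neg h1, if_neg (fun h2 => h1 (Fin.ext h2))]
    by_cases h2 : i < j
    · rw [if_pos h2, if_pos (Fin.lt_def.mp h2), Word.star_del, Word.del]
      show _ = (1 + star (single (x i) 1)) * star (single (bd x i) 1) * (single (bd x j) 1 * (1 + single (x j) 1))
      rw [star_single, star_single, mul_assoc, mul_assoc, ← mul_assoc (single (bd x i)⁻¹ 1), single_mul_single, mul_one]
    · rw [if_neg h2, if_neg (fun h3 => h2 (Fin.lt_def.mpr h3))]

/-- sums over upper triangular arrays -/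
theorem sum_tri {V : Type*} [AddCommMonoid V] (h : ℕ) (f : ℕ → ℕ → V) (hf : ∀ i k, k < i → f i k = 0) :
    ∑ i : Fin h, ∑ k : Fin h, f i k = ∑ k ∈ range h, ∑ i ∈ range k, f i k + ∑ i ∈ range h, f i i := by
  have h1 : ∀ i : Fin h, ∑ k : Fin h, f i k = ∑ k ∈ range h, f i k := fun i => (Finset.sum_range (fun k => f i k)).symm
  rw [Finset.sum_congr rfl fun i _ => h1 i, ← Finset.sum_range (fun i => ∑ k ∈ range h, f i k), Finset.sum_comm, ← Finset.sum_add_distrib]
  refine Finset.sum_congr rfl fun k hk => ?_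
  rw [← Finset.sum_range_succ]
  symm
  apply Finset.sum_subset (range_subset_range.2 (by have := mem_range.1 hk; omega))
  intro i _ hi
  exact hf i k (by simpa using hi)

variable {c : SymC K G} (hK : ∀ z : K, z + z = 0) (hG : ∀ g : G, g * g = 1 → g = 1)

/-- the cell structure of the nonorientable surface -/
theorem cell (c : SymC K G) (x : ℕ → G) (h : ℕ) (hx : bd x h = 1) :
    (Base.base c hK hG).Cell (Phi K x h) (Matrix.of fun i j : Fin h => (word hK x).the i j)
      (fun i => (word hK x).del i) (fun i => (word hK x).rho i) where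
  phi_psi := by
    ext1 i k
    rw [Matrix.mul_apply, Matrix.one_apply]
    have h1 := (word hK x).phi_the h i k i.2 k.2
    rw [Finset.sum_range] at h1
    simp only [Phi_eq hK, Matrix.of_apply]
    rw [h1]
    simp only [Fin.ext_iff]
  psi_phi := by
    ext1 i k
    rw [Matrix.mul_apply, Matrix.one_apply]
    have h1 := (word hK x).the_phi h i k i.2 k.2
    rw [Finset.sum_range] at h1
    simp only [Phi_eq hK, Matrix.of_apply]
    rw [h1]
    simp only [Fin.ext_iff]
  add_t i j := by
    rw [Phi_eq hK, Phi_eq hK]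
    exact (word hK x).phi_add_star i j
  phi_rho k := by
    simp only [Phi_eq hK]
    have h1 := (word hK x).sum_phi_rho k h k.2
    rw [Finset.sum_range] at h1
    rw [h1]
    have h2 : (word hK x).B h = 1 := by
      show single (bd x h) 1 = 1
      rw [hx]; rfl
    rw [h2, mul_one]; rfl
  rho_phi j := by
    simp only [Phi_eq hK]
    have h1 := (word hK x).sum_rho_phi j
    have h2 : ∑ i ∈ range (j + 1), star ((word hK x).rho i) * (word hK x).phi i j =
        ∑ i ∈ range h, star ((word hK x).rho i) * (word hK x).phi i j := by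
      apply Finset.sum_subset (range_subset_range.2 (by have := j.2; omega))
      intro i _ hi
      rw [(word hK x).phi_gt (by simpa using hi), mul_zero]
    rw [h2, Finset.sum_range] at h1
    exact h1
  del_rho := by
    have h1 := (word hK x).sum_del_rho h
    rw [Finset.sum_range] at h1
    rw [h1]
    have h2 : (word hK x).B h = 1 := by
      show single (bd x h) 1 = 1
      rw [hx]; rfl
    rw [h2, (word hK x).two]

/-- `q(F) = 0` -/
theorem q_F (c : SymC K G) (x : ℕ → G) (h : ℕ) :
    ((Base.base c hK hG).mat (Fin h)).q (((Base.base c hK hG).mat (Fin h)).i1 (Matrix.of fun i j : Fin h => (word hK x).the i j) *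
      ((Base.base c hK hG).mat (Fin h)).d (Phi K x h)) = 0 := by
  set F := ((Base.base c hK hG).mat (Fin h)).i1 (Matrix.of fun i j : Fin h => (word hK x).the i j) *
      ((Base.base c hK hG).mat (Fin h)).d (Phi K x h) with hF
  have hFij : ∀ i j : Fin h, F i j = ∑ k : Fin h, Base.i1 K G ((word hK x).the i k) * (Base.base c hK hG).d (Phi K x h k j) :=
    fun i j => Matrix.mul_apply
  have d0 : (Base.base c hK hG).d 0 = 0 := by unfold Pre.d; rw [map_zero, map_zero, add_zero]
  have h1 : ∀ i j : Fin h, j < i → F i j = 0 := by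
    intro i j hij
    rw [hFij]
    refine Finset.sum_eq_zero fun k _ => ?_
    rcases lt_or_ge k i with h2 | h2
    · rw [(word hK x).the_gt (Fin.lt_def.mp h2), map_zero, zero_mul]
    · rw [Phi_eq hK, (word hK x).phi_gt (Fin.lt_def.mp (lt_of_lt_of_le hij h2)), d0, mul_zero]
  have h2 : ∀ i : Fin h, F i i = MonoidAlgebra.single ((x i)⁻¹, x i) (1 : K) + MonoidAlgebra.single ((x i)⁻¹ * x i, (1 : G)) (1 : K) := by
    intro i
    rw [hFij, Finset.sum_eq_single i]
    · rw [Phi_eq hK, (word hK x).the_self, (word hK x).phi_self]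
      show Base.i1 K G (star (single (x i) 1)) * (Base.i2 K G (single (x i) 1) + Base.i1 K G (single (x i) 1)) = _
      rw [star_single, Base.i1_single, Base.i1_single, Base.i2_single, mul_add, single_mul_single, single_mul_single]
      simp
    · intro k _ hk
      rcases lt_or_gt_of_ne hk with h2 | h2
      · rw [(word hK x).the_gt (Fin.lt_def.mp h2), map_zero, zero_mul]
      · rw [Phi_eq hK, (word hK x).phi_gt (Fin.lt_def.mp h2), d0, mul_zero]
    · intro h; exact absurd (Finset.mem_univ _) h
  rw [Pre.mat_q]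
  refine Finset.sum_eq_zero fun i _ => Finset.sum_eq_zero fun j _ => ?_
  rcases lt_trichotomy i j with h3 | h3 | h3
  · rw [h1 j i h3, Pre.zero_J]
  · subst h3
    rw [h2]
    exact Base.q_gen hK hG _ _ _
  · rw [h1 i j h3, Pre.J_zero]

/-- the trilinear functional `T(a, b, c) = ⟨da b, dc⟩` -/
noncomputable def tri (c : SymC K G) (u v z : MonoidAlgebra K G) : K :=
  (Base.base c hK hG).I ((Base.base c hK hG).d u * (Base.base c hK hG).i2 v) ((Base.base c hK hG).d z)

theorem tri_single [DecidableEq G] (g k l : G) : tri hK hG c (single g 1) (single k 1) (single l 1) = if g * k * l = 1 then c.w g k else 0 := by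
  classical
  have e1 : (Base.base c hK hG).d (single g 1) * (Base.base c hK hG).i2 (single k 1) =
      MonoidAlgebra.single ((1 : G), g * k) (1 : K) + MonoidAlgebra.single (g, k) (1 : K) := by
    show (Base.i2 K G (single g 1) + Base.i1 K G (single g 1)) * Base.i2 K G (single k 1) = _
    rw [Base.i1_single, Base.i2_single, Base.i2_single, add_mul, single_mul_single, single_mul_single]
    simp
  have e2 : (Base.base c hK hG).d (single l 1) = MonoidAlgebra.single ((1 : G), l) (1 : K) + MonoidAlgebra.single (l, (1 : G)) (1 : K) := by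
    show (Base.i2 K G (single l 1) + Base.i1 K G (single l 1)) = _
    rw [Base.i1_single, Base.i2_single]
  unfold tri
  rw [e1, e2]
  show Base.I c _ _ = _
  rw [Base.I_add, Base.add_I, Base.add_I, Base.I_single, Base.I_single, Base.I_single, Base.I_single, Base.W_one_right, Base.W_one_right]
  have e3 : Base.W c (1, g * k) (1, l) = 0 := by
    unfold Base.W
    split_ifs
    · simp [c.one_w, c.w_one]
    · rfl
  have e4 : Base.W c (g, k) (1, l) = if g * k * l = 1 then c.w g k else 0 := by
    unfold Base.W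
    by_cases hh : g * k * l = 1
    · rw [if_pos hh, if_pos (by simpa using hh), mul_one, c.w_one, add_zero]
    · rw [if_neg hh, if_neg (by simpa using hh)]
  rw [e3, e4]
  ring

/-- the fan sum -/
theorem tri_sum (c : SymC K G) (w3 : G → G → G → K) (hc : ∀ g h, c.w g h = w3 1 g (g * h))
    (winv : ∀ g x y z, w3 (g * x) (g * y) (g * z) = w3 x y z) (w1 : ∀ x y z, w3 y x z = w3 x y z) (w2 : ∀ x y z, w3 x z y = w3 x y z)
    (w0 : ∀ x y, w3 x x y = 0) (wc : ∀ x y z t, w3 y z t + w3 x z t + w3 x y t + w3 x y z = 0) (x : ℕ → G) (h : ℕ) (hx : bd x h = 1) :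
    ∑ i : Fin h, ∑ k : Fin h, tri hK hG c ((word hK x).del i) ((word hK x).the i k) (star ((word hK x).del k)) +
    ∑ k : Fin h, ∑ j : Fin h, tri hK hG c (star ((word hK x).rho k)) ((word hK x).phi k j) ((word hK x).rho j) =
    ∑ i ∈ range h, (w3 1 (bd x i) (bd x i * x i) + w3 1 (bd x i * x i) (bd x (i + 1))) := by
  classical
  have T1 : ∀ a a' b d, tri hK hG c (a + a') b d = tri hK hG c a b d + tri hK hG c a' b d := by
    intro a a' b d; unfold tri; rw [Pre.d_add, add_mul, Pre.I_add]
  have T2 : ∀ a b b' d, tri hK hG c a (b + b') d = tri hK hG c a b d + tri hK hG c a b' d := by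
    intro a b b' d; unfold tri; rw [map_add, mul_add, Pre.I_add]
  have T3 : ∀ a b d d', tri hK hG c a b (d + d') = tri hK hG c a b d + tri hK hG c a b d' := by
    intro a b d d'; unfold tri; rw [Pre.d_add, Pre.add_I]
  have z2 : ∀ a d, tri hK hG c a 0 d = 0 := by
    intro a d
    have := T2 a 0 0 d
    rw [add_zero] at this
    exact left_eq_add.mp this
  have key := Fan.fan w3 hK winv w1 w2 w0 wc (MonoidAlgebra.of K G) (tri hK hG c) T1 T2 T3
    (fun g k l => by
      rw [MonoidAlgebra.of_apply, MonoidAlgebra.of_apply, MonoidAlgebra.of_apply, tri_single, hc]) hG x (bd x) h rfl hx (fun i _ => rfl)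
  rw [← key, sum_tri h (fun i k => tri hK hG c ((word hK x).del i) ((word hK x).the i k) (star ((word hK x).del k)))
    (fun i k hik => by rw [(word hK x).the_gt hik, z2]),
    sum_tri h (fun k j => tri hK hG c (star ((word hK x).rho k)) ((word hK x).phi k j) ((word hK x).rho j))
    (fun i k hik => by rw [(word hK x).phi_gt hik, z2])]
  simp only [Finset.sum_add_distrib]
  have bx : ∀ i, (word hK x).x i = MonoidAlgebra.of K G (x i) := fun i => rfl
  have bB : ∀ i, (word hK x).B i = MonoidAlgebra.of K G (bd x i) := fun i => rfl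
  have sx : ∀ i, star ((word hK x).x i) = MonoidAlgebra.of K G (x i)⁻¹ := fun i => star_single _ _
  have sB : ∀ i, star ((word hK x).B i) = MonoidAlgebra.of K G (bd x i)⁻¹ := fun i => star_single _ _
  have rr : ∀ i, (word hK x).rho i = 1 + MonoidAlgebra.of K G (x i) := fun i => by rw [Word.rho, bx]
  have dd : ∀ i, (word hK x).del i = MonoidAlgebra.of K G (bd x i) * (1 + MonoidAlgebra.of K G (x i)) := fun i => by
    rw [Word.del, bx, bB]
  have sr : ∀ i, star ((word hK x).rho i) = 1 + MonoidAlgebra.of K G (x i)⁻¹ := fun i => by rw [Word.star_rho, sx]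
  have sd : ∀ i, star ((word hK x).del i) = (1 + MonoidAlgebra.of K G (x i)⁻¹) * MonoidAlgebra.of K G (bd x i)⁻¹ := fun i => by
    rw [Word.star_del, sx, sB]
  have f1 : ∀ j ∈ range h, ∑ i ∈ range j, tri hK hG c ((word hK x).del i) ((word hK x).the i j) (star ((word hK x).del j)) =
      ∑ i ∈ range j, tri hK hG c (MonoidAlgebra.of K G (bd x i) * (1 + MonoidAlgebra.of K G (x i)))
        ((1 + MonoidAlgebra.of K G (x i)) * (1 + MonoidAlgebra.of K G (x j)⁻¹)) ((1 + MonoidAlgebra.of K G (x j)⁻¹) * MonoidAlgebra.of K G (bd x j)⁻¹) := by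
    intro j _
    refine Finset.sum_congr rfl fun i hi => ?_
    rw [(word hK x).the_lt (mem_range.1 hi), sr, sd, rr, dd]
  have f2 : ∀ j ∈ range h, ∑ i ∈ range j, tri hK hG c (star ((word hK x).rho i)) ((word hK x).phi i j) ((word hK x).rho j) =
      ∑ i ∈ range j, tri hK hG c (1 + MonoidAlgebra.of K G (x i)⁻¹)
        ((1 + MonoidAlgebra.of K G (x i)⁻¹) * MonoidAlgebra.of K G ((bd x i)⁻¹ * bd x j) * (1 + MonoidAlgebra.of K G (x j))) (1 + MonoidAlgebra.of K G (x j)) := by
    intro j _
    refine Finset.sum_congr rfl fun i hi => ?_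
    rw [(word hK x).phi_lt (mem_range.1 hi), sr, sd, rr, dd, map_mul]
    simp only [mul_assoc]
  have f3 : ∀ i ∈ range h, tri hK hG c ((word hK x).del i) ((word hK x).the i i) (star ((word hK x).del i)) =
      tri hK hG c (MonoidAlgebra.of K G (bd x i) * (1 + MonoidAlgebra.of K G (x i))) (MonoidAlgebra.of K G (x i)⁻¹)
        ((1 + MonoidAlgebra.of K G (x i)⁻¹) * MonoidAlgebra.of K G (bd x i)⁻¹) := by
    intro i _
    rw [(word hK x).the_self, sd, dd, sx]
  have f4 : ∀ i ∈ range h, tri hK hG c (star ((word hK x).rho i)) ((word hK x).phi i i) ((word hK x).rho i) =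
      tri hK hG c (1 + MonoidAlgebra.of K G (x i)⁻¹) (MonoidAlgebra.of K G (x i)) (1 + MonoidAlgebra.of K G (x i)) := by
    intro i _
    rw [(word hK x).phi_self, sr, rr, bx]
  rw [Finset.sum_congr rfl f1, Finset.sum_congr rfl f2, Finset.sum_congr rfl f3, Finset.sum_congr rfl f4]
  abel

/-- **the value of `e`** -/
theorem e_Phi (c : SymC K G) (w3 : G → G → G → K) (hc : ∀ g h, c.w g h = w3 1 g (g * h))
    (winv : ∀ g x y z, w3 (g * x) (g * y) (g * z) = w3 x y z) (w1 : ∀ x y z, w3 y x z = w3 x y z) (w2 : ∀ x y z, w3 x z y = w3 x y z)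
    (w0 : ∀ x y, w3 x x y = 0) (wc : ∀ x y z t, w3 y z t + w3 x z t + w3 x y t + w3 x y z = 0) (x : ℕ → G) (h : ℕ) (hx : bd x h = 1)
    (L : AddSubgroup K) (a b : K) :
    ((Base.base c hK hG).mat (Fin h ⊕ Fin h)).e L (fromBlocks (a • Phi K x h) (Phi K x h) 0 (b • Phi K x h)) =
      QuotientAddGroup.mk (a * b * ∑ i ∈ range h, (w3 1 (bd x i) (bd x i * x i) + w3 1 (bd x i * x i) (bd x (i + 1)))) := by
  rw [(cell hK hG c x h hx).e_value L a b, q_F, zero_add, ← tri_sum hK hG c w3 hc winv w1 w2 w0 wc x h hx]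
  simp only [Phi_eq hK]
  rfl

end

end Pool.Agent.Lib.MP8a3537.K2
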