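import Pool.Agent.Lib.MP_8a3537_gt.K2.Sys

/-!
# Half pairings, and the passage to matrices (MP_8a3537_gt, folder K2)
-/

namespace Pool.Agent.Lib.MP8a3537.K2

/-- `T` is a ring with two homomorphisms `B → T` and a map `m : T → B`; the bimodule is the kernel of `m`; `J` is a half of the pairing `I` -/
structure Pre (K B T : Type*) [CommRing K] [Ring B] [Algebra K B] [Ring T] [Algebra K T] where
  /-- left -/
  i1 : B →ₐ[K] T
  /-- right -/
  i2 : B →ₐ[K] T
  /-- product -/
  m : T →ₗ[K] B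
  /-- involution -/
  t : B →ₗ[K] B
  /-- involution -/
  s : T →ₗ[K] T
  /-- pairing -/
  I : T → T → K
  /-- half of the pairing -/
  J : T → T → K
  b2 : ∀ x : B, x + x = 0
  t2 : ∀ x : T, x + x = 0
  k2 : ∀ x : K, x + x = 0
  m_i1 : ∀ b, m (i1 b) = b
  m_i2 : ∀ b, m (i2 b) = b
  m_l : ∀ b α, m (i1 b * α) = b * m α
  m_r : ∀ α b, m (α * i2 b) = m α * b
  t_mul : ∀ x y, t (x * y) = t y * t x
  t_t : ∀ x, t (t x) = x
  s_s : ∀ α, s (s α) = α
  m_s : ∀ α, m (s α) = t (m α)
  s_l : ∀ b α, s (i1 b * α) = s α * i2 (t b)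
  s_r : ∀ α b, s (α * i2 b) = i1 (t b) * s α
  s_i1 : ∀ b, s (i1 b) = i2 (t b)
  s_i2 : ∀ b, s (i2 b) = i1 (t b)
  I_add : ∀ α β γ, I (α + β) γ = I α γ + I β γ
  I_smul : ∀ (c : K) α β, I (c • α) β = c * I α β
  I_comm : ∀ α β, I α β = I β α
  I_bal : ∀ α x β, m α = 0 → I (α * i2 x) β = I α (i1 x * β)
  I_s : ∀ α β, m α = 0 → m β = 0 → I (s α) (s β) = I α β
  I_dd : ∀ x y, I (i2 x + i1 x) (i2 y + i1 y) = 0
  J_add : ∀ α β γ, J (α + β) γ = J α γ + J β γ
  add_J : ∀ α β γ, J γ (α + β) = J γ α + J γ β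
  J_smul : ∀ (c : K) α β, J (c • α) β = c * J α β
  smul_J : ∀ (c : K) α β, J α (c • β) = c * J α β
  J_J : ∀ α β, J α β + J β α = I α β
  q_s : ∀ α, m α = 0 → J (s α) (s α) = J α α

namespace Pre

variable {K B T : Type*} [CommRing K] [Ring B] [Algebra K B] [Ring T] [Algebra K T] (S : Pre K B T)

/-- the derivation -/
def d (x : B) : T := S.i2 x + S.i1 x

/-- the obstruction to (A6) -/
def Q (x : B) (α : T) : K := S.J (S.i1 x * α) (S.i1 x * α) + S.J (α * S.i2 x) (α * S.i2 x) + S.I (S.d x) α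

theorem add_I (α β γ : T) : S.I γ (α + β) = S.I γ α + S.I γ β := by
  rw [S.I_comm, S.I_add, S.I_comm α, S.I_comm β]

theorem smul_I (c : K) (α β : T) : S.I α (c • β) = c * S.I α β := by
  rw [S.I_comm, S.I_smul, S.I_comm]

theorem I_zero (α : T) : S.I 0 α = 0 := by
  have := S.I_smul 0 0 α
  simpa using this

theorem zero_I (α : T) : S.I α 0 = 0 := by
  rw [S.I_comm, S.I_zero]

theorem J_zero (α : T) : S.J 0 α = 0 := by
  have := S.J_smul 0 0 α
  simpa using this

theorem zero_J (α : T) : S.J α 0 = 0 := by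
  have := S.smul_J 0 α 0
  simpa using this

theorem I_sum {κ : Type*} (u : Finset κ) (f : κ → T) (β : T) : S.I (∑ k ∈ u, f k) β = ∑ k ∈ u, S.I (f k) β :=
  map_sum (AddMonoidHom.mk' (fun α => S.I α β) (fun a b => S.I_add a b β)) f u

theorem sum_I {κ : Type*} (u : Finset κ) (f : κ → T) (β : T) : S.I β (∑ k ∈ u, f k) = ∑ k ∈ u, S.I β (f k) :=
  map_sum (AddMonoidHom.mk' (fun α => S.I β α) (fun a b => S.add_I a b β)) f u

theorem m_d (x : B) : S.m (S.d x) = 0 := by
  rw [d, map_add, S.m_i1, S.m_i2, S.b2]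

theorem d_add (x y : B) : S.d (x + y) = S.d x + S.d y := by
  rw [d, d, d, map_add, map_add]; abel

theorem d_mul (x y : B) : S.d (x * y) = S.i1 x * S.d y + S.d x * S.i2 y := by
  rw [d, d, d, map_mul, map_mul, mul_add, add_mul]
  have := S.t2 (S.i1 x * S.i2 y)
  linear_combination (norm := abel) -this

theorem s_d (x : B) : S.s (S.d x) = S.d (S.t x) := by
  rw [d, d, map_add, S.s_i1, S.s_i2, add_comm]

theorem q_add (α β : T) : S.J (α + β) (α + β) = S.J α α + S.J β β + S.I α β := by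
  rw [S.J_add, S.add_J, S.add_J, ← S.J_J]; abel

theorem I_bal' (x : B) (α β : T) (hβ : S.m β = 0) : S.I (S.i1 x * α) β = S.I α (β * S.i2 x) := by
  rw [S.I_comm, ← S.I_bal _ _ _ hβ, S.I_comm]

theorem m_l' (b : B) {α : T} (h : S.m α = 0) : S.m (S.i1 b * α) = 0 := by rw [S.m_l, h, mul_zero]

theorem m_r' (b : B) {α : T} (h : S.m α = 0) : S.m (α * S.i2 b) = 0 := by rw [S.m_r, h, zero_mul]

theorem Q_add (x : B) (α β : T) (hα : S.m α = 0) (hβ : S.m β = 0) : S.Q x (α + β) = S.Q x α + S.Q x β := by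
  have h : S.I (S.i1 x * α) (S.i1 x * β) + S.I (α * S.i2 x) (β * S.i2 x) = 0 := by
    rw [S.I_bal' x α (S.i1 x * β) (S.m_l' x hβ), S.I_bal α x (β * S.i2 x) hα, mul_assoc, S.k2]
  unfold Q
  rw [mul_add, add_mul, S.q_add, S.q_add, S.add_I]
  linear_combination h

theorem add_Q (x y : B) (α : T) (hα : S.m α = 0) : S.Q (x + y) α = S.Q x α + S.Q y α := by
  have h : S.I (S.i1 x * α) (S.i1 y * α) + S.I (α * S.i2 x) (α * S.i2 y) = 0 := by
    rw [S.I_bal' x α (S.i1 y * α) (S.m_l' y hα), S.I_comm (α * S.i2 x), S.I_bal α y (α * S.i2 x) hα, mul_assoc, S.k2]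
  unfold Q
  rw [map_add, map_add, mul_add, add_mul, S.q_add, S.q_add, S.d_add, S.I_add]
  linear_combination h

/-- (A6) modulo `L` -/
def Cyc (L : AddSubgroup K) : Prop := ∀ x α, S.m α = 0 → S.Q x α ∈ L

/-- the bimodule -/
abbrev Om : AddSubgroup T := S.m.toAddMonoidHom.ker

variable {S}

theorem mem_Om {α : T} : α ∈ S.Om ↔ S.m α = 0 := Iff.rfl

variable (S)

/-- the calculus with values modulo `L` -/
def sys {L : AddSubgroup K} (hL : S.Cyc L) : Sys B S.Om (K ⧸ L) where
  l b α := ⟨S.i1 b * α.1, S.m_l' b α.2⟩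
  r α b := ⟨α.1 * S.i2 b, S.m_r' b α.2⟩
  d b := ⟨S.d b, S.m_d b⟩
  t := S.t
  s α := ⟨S.s α.1, by have := α.2; rw [mem_Om] at this ⊢; rw [S.m_s, this, map_zero]⟩
  I α β := QuotientAddGroup.mk (S.I α.1 β.1)
  q α := QuotientAddGroup.mk (S.J α.1 α.1)
  t_add := map_add S.t
  t_mul := S.t_mul
  t_t := S.t_t
  b2 := S.b2
  o2 α := Subtype.ext (S.t2 α.1)
  v2 v := by
    obtain ⟨k, rfl⟩ := QuotientAddGroup.mk_surjective v
    rw [← QuotientAddGroup.mk_add, S.k2]; rfl
  l_add x α β := Subtype.ext (mul_add _ _ _)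
  add_l x y α := Subtype.ext (by simp [add_mul])
  l_mul x y α := Subtype.ext (by simp [mul_assoc])
  l_one α := Subtype.ext (by simp)
  add_r α β x := Subtype.ext (by simp [add_mul])
  r_add α x y := Subtype.ext (by simp [mul_add])
  r_mul α x y := Subtype.ext (by simp [mul_assoc])
  r_one α := Subtype.ext (by simp)
  l_r x α y := Subtype.ext (by simp [mul_assoc])
  d_add x y := Subtype.ext (S.d_add x y)
  d_mul x y := Subtype.ext (S.d_mul x y)
  s_add α β := Subtype.ext (by simp)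
  s_s α := Subtype.ext (S.s_s _)
  s_l x α := Subtype.ext (S.s_l _ _)
  s_r α x := Subtype.ext (S.s_r _ _)
  s_d x := Subtype.ext (S.s_d _)
  I_add α β γ := by
    rw [← QuotientAddGroup.mk_add]; exact congrArg _ (S.I_add _ _ _)
  I_comm α β := congrArg _ (S.I_comm _ _)
  I_bal α x β := congrArg _ (S.I_bal _ _ _ α.2)
  I_s α β := congrArg _ (S.I_s _ _ α.2 β.2)
  I_dd x y := by
    have : S.I (S.d x) (S.d y) = 0 := S.I_dd x y
    rw [this]; rfl
  q_add α β := by
    rw [← QuotientAddGroup.mk_add, ← QuotientAddGroup.mk_add]; exact congrArg _ (S.q_add _ _)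
  q_s α := congrArg _ (S.q_s _ α.2)
  q_cyc x α := by
    have h := hL x α.1 α.2
    rw [← QuotientAddGroup.mk_add, QuotientAddGroup.eq]
    have e : -(S.J (S.i1 x * α.1) (S.i1 x * α.1) + S.J (α.1 * S.i2 x) (α.1 * S.i2 x)) + S.I (S.d x) α.1 = S.Q x α.1 := by
      unfold Q
      linear_combination -(S.k2 (S.J (S.i1 x * α.1) (S.i1 x * α.1) + S.J (α.1 * S.i2 x) (α.1 * S.i2 x)))
    rw [e]; exact h

section Mat

variable (ι : Type*) [Fintype ι] [DecidableEq ι]

theorem sum_swap {ι : Type*} [Fintype ι] {K : Type*} [AddCommGroup K] (F : ι → ι → K) (h1 : ∀ i j, F i j + F j i = 0)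
    (h2 : ∀ i, F i i = 0) : ∑ i, ∑ j, F i j = 0 := by
  classical
  rw [← Finset.sum_product']
  refine Finset.sum_involution (fun p _ => (p.2, p.1)) ?_ ?_ ?_ ?_
  · intro p _; exact h1 _ _
  · intro p _ hp heq
    apply hp
    have : p.2 = p.1 := congrArg Prod.fst heq
    rw [this]; exact h2 _
  · intro p _; simp
  · intro p _; rfl

/-- matrices -/
def mat : Pre K (Matrix ι ι B) (Matrix ι ι T) where
  i1 := S.i1.mapMatrix
  i2 := S.i2.mapMatrix
  m := S.m.mapMatrix
  t := (Matrix.transposeLinearEquiv ι ι K B).toLinearMap.comp S.t.mapMatrix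
  s := (Matrix.transposeLinearEquiv ι ι K T).toLinearMap.comp S.s.mapMatrix
  I α β := ∑ i, ∑ j, S.I (α i j) (β j i)
  J α β := ∑ i, ∑ j, S.J (α i j) (β j i)
  b2 x := by ext i j; exact S.b2 _
  t2 x := by ext i j; exact S.t2 _
  k2 := S.k2
  m_i1 b := by ext i j; exact S.m_i1 _
  m_i2 b := by ext i j; exact S.m_i2 _
  m_l b α := by
    ext i j
    simp [Matrix.mul_apply, S.m_l]
  m_r α b := by
    ext i j
    simp [Matrix.mul_apply, S.m_r]
  t_mul x y := by
    ext i j
    simp [Matrix.mul_apply, S.t_mul]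
  t_t x := by
    ext i j
    simp [S.t_t]
  s_s α := by
    ext i j
    simp [S.s_s]
  m_s α := by
    ext i j
    simp [S.m_s]
  s_l b α := by
    ext i j
    simp [Matrix.mul_apply, S.s_l]
  s_r α b := by
    ext i j
    simp [Matrix.mul_apply, S.s_r]
  s_i1 b := by
    ext i j
    simp [S.s_i1]
  s_i2 b := by
    ext i j
    simp [S.s_i2]
  I_add α β γ := by
    rw [← Finset.sum_add_distrib]
    refine Finset.sum_congr rfl fun i _ => ?_
    rw [← Finset.sum_add_distrib]
    exact Finset.sum_congr rfl fun j _ => S.I_add _ _ _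
  I_smul c α β := by
    rw [Finset.mul_sum]
    refine Finset.sum_congr rfl fun i _ => ?_
    rw [Finset.mul_sum]
    exact Finset.sum_congr rfl fun j _ => S.I_smul _ _ _
  I_comm α β := by
    rw [Finset.sum_comm]
    exact Finset.sum_congr rfl fun i _ => Finset.sum_congr rfl fun j _ => S.I_comm _ _
  I_bal α x β h := by
    refine Finset.sum_congr rfl fun i _ => ?_
    have e1 : ∀ j, S.I ((α * (S.i2.mapMatrix x)) i j) (β j i) = ∑ k, S.I (α i k) (S.i1 (x k j) * β j i) := by
      intro j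
      rw [Matrix.mul_apply, S.I_sum]
      refine Finset.sum_congr rfl fun k _ => ?_
      exact S.I_bal _ _ _ (congrFun (congrFun h i) k)
    have e2 : ∀ k, S.I (α i k) (((S.i1.mapMatrix x) * β) k i) = ∑ j, S.I (α i k) (S.i1 (x k j) * β j i) := by
      intro k
      rw [Matrix.mul_apply, S.sum_I]
      rfl
    simp only [e1, e2]
    exact Finset.sum_comm
  I_s α β hα hβ := by
    rw [Finset.sum_comm]
    refine Finset.sum_congr rfl fun i _ => Finset.sum_congr rfl fun j _ => S.I_s _ _ ?_ ?_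
    · exact congrFun (congrFun hα i) j
    · exact congrFun (congrFun hβ j) i
  I_dd x y := by
    refine Finset.sum_eq_zero fun i _ => Finset.sum_eq_zero fun j _ => S.I_dd _ _
  J_add α β γ := by
    rw [← Finset.sum_add_distrib]
    refine Finset.sum_congr rfl fun i _ => ?_
    rw [← Finset.sum_add_distrib]
    exact Finset.sum_congr rfl fun j _ => S.J_add _ _ _
  add_J α β γ := by
    rw [← Finset.sum_add_distrib]
    refine Finset.sum_congr rfl fun i _ => ?_
    rw [← Finset.sum_add_distrib]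
    exact Finset.sum_congr rfl fun j _ => S.add_J _ _ _
  J_smul c α β := by
    rw [Finset.mul_sum]
    refine Finset.sum_congr rfl fun i _ => ?_
    rw [Finset.mul_sum]
    exact Finset.sum_congr rfl fun j _ => S.J_smul _ _ _
  smul_J c α β := by
    rw [Finset.mul_sum]
    refine Finset.sum_congr rfl fun i _ => ?_
    rw [Finset.mul_sum]
    exact Finset.sum_congr rfl fun j _ => S.smul_J _ _ _
  J_J α β := by
    have : ∑ i, ∑ j, S.J (β i j) (α j i) = ∑ i, ∑ j, S.J (β j i) (α i j) := Finset.sum_comm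
    rw [this, ← Finset.sum_add_distrib]
    refine Finset.sum_congr rfl fun i _ => ?_
    rw [← Finset.sum_add_distrib]
    exact Finset.sum_congr rfl fun j _ => S.J_J _ _
  q_s α hα := by
    have hm : ∀ i j, S.m (α i j) = 0 := fun i j => congrFun (congrFun hα i) j
    have h : ∑ i, ∑ j, (S.J (S.s (α j i)) (S.s (α i j)) + S.J (α i j) (α j i)) = 0 := by
      refine sum_swap _ (fun i j => ?_) (fun i => ?_)
      · have h1 := S.J_J (S.s (α j i)) (S.s (α i j))
        have h2 := S.J_J (α i j) (α j i)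
        have h3 := S.I_s (α j i) (α i j) (hm _ _) (hm _ _)
        have h4 := S.I_comm (α i j) (α j i)
        have h5 := S.k2 (S.I (α i j) (α j i))
        linear_combination h1 + h2 + h3 - h4 + h5
      · rw [S.q_s _ (hm i i), S.k2]
    simp only [Finset.sum_add_distrib] at h
    have h2 := S.k2 (∑ i, ∑ j, S.J (α i j) (α j i))
    have e : ∑ i, ∑ j, S.J (S.s (α j i)) (S.s (α i j)) = ∑ i, ∑ j, S.J (α i j) (α j i) := by
      linear_combination h - h2
    exact e

theorem Q_zero (x : B) : S.Q x 0 = 0 := by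
  unfold Q
  rw [mul_zero, zero_mul, S.J_zero, S.zero_I]; ring

theorem zero_Q (α : T) : S.Q 0 α = 0 := by
  unfold Q d
  rw [map_zero, map_zero, mul_zero, zero_mul, S.J_zero, add_zero, add_zero, S.I_zero, add_zero]

theorem mat_J_single (i j k l : ι) (a b : T) : (S.mat ι).J (Matrix.single i j a) (Matrix.single k l b) =
    if j = k ∧ i = l then S.J a b else 0 := by
  change ∑ p, ∑ q, S.J (Matrix.single i j a p q) (Matrix.single k l b q p) = _
  rw [Finset.sum_eq_single i, Finset.sum_eq_single j]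
  · rw [Matrix.single_apply_same]
    split_ifs with h
    · obtain ⟨rfl, rfl⟩ := h
      rw [Matrix.single_apply_same]
    · rw [Matrix.single_apply_of_ne, S.zero_J]
      rintro ⟨h1, h2⟩; exact h ⟨h1.symm, h2.symm⟩
  · intro q _ hq
    rw [Matrix.single_apply_of_col_ne _ _ (Ne.symm hq), S.J_zero]
  · intro h; exact absurd (Finset.mem_univ _) h
  · intro p _ hp
    refine Finset.sum_eq_zero fun q _ => ?_
    rw [Matrix.single_apply_of_row_ne (Ne.symm hp), S.J_zero]
  · intro h; exact absurd (Finset.mem_univ _) h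

theorem mat_I_single (i j k l : ι) (a b : T) : (S.mat ι).I (Matrix.single i j a) (Matrix.single k l b) =
    if j = k ∧ i = l then S.I a b else 0 := by
  rw [← (S.mat ι).J_J, mat_J_single, mat_J_single]
  by_cases h : j = k ∧ i = l
  · rw [if_pos h, if_pos ⟨h.2.symm, h.1.symm⟩, if_pos h, S.J_J]
  · rw [if_neg h, if_neg (fun h' => h ⟨h'.2.symm, h'.1.symm⟩), if_neg h, add_zero]

theorem mat_cyc_aux {L : AddSubgroup K} (h : S.Cyc L) (i j k l : ι) (b : B) (a : T) (ha : S.m a = 0) :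
    (S.mat ι).Q (Matrix.single i j b) (Matrix.single k l a) ∈ L := by
  have e1 : (S.mat ι).i1 (Matrix.single i j b) = Matrix.single i j (S.i1 b) := Matrix.map_single _ _ _ S.i1
  have e2 : (S.mat ι).i2 (Matrix.single i j b) = Matrix.single i j (S.i2 b) := Matrix.map_single _ _ _ S.i2
  have e3 : (S.mat ι).d (Matrix.single i j b) = Matrix.single i j (S.d b) := by
    rw [d, d, e1, e2, ← Matrix.single_add]
  unfold Q
  rw [e1, e2, e3, mat_I_single]
  by_cases h1 : j = k
  · subst h1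
    rw [Matrix.single_mul_single_same, mat_J_single]
    by_cases h2 : i = l
    · subst h2
      rw [Matrix.single_mul_single_same, mat_J_single]
      simpa [Q] using h b a ha
    · rw [Matrix.single_mul_single_of_ne (h := Ne.symm h2), Pre.J_zero, if_neg (fun h => h2 h.2), if_neg (fun h => h2 h.2)]
      simp
  · rw [Matrix.single_mul_single_of_ne (h := h1), Pre.J_zero, if_neg (fun h => h1 h.1)]
    by_cases h2 : l = i
    · subst h2
      rw [Matrix.single_mul_single_same, mat_J_single, if_neg (fun h => h1 h.1)]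
      simp
    · rw [Matrix.single_mul_single_of_ne (h := h2), Pre.J_zero]
      simp

theorem mat_cyc {L : AddSubgroup K} (h : S.Cyc L) : (S.mat ι).Cyc L := by
  have h2 : ∀ i j b α, (S.mat ι).m α = 0 → (S.mat ι).Q (Matrix.single i j b) α ∈ L := by
    intro i j b α hα
    have hm : ∀ i j, S.m (α i j) = 0 := fun i j => congrFun (congrFun hα i) j
    have hp : ∀ α β, ((S.mat ι).m α = 0 ∧ (S.mat ι).Q (Matrix.single i j b) α ∈ L) →
        ((S.mat ι).m β = 0 ∧ (S.mat ι).Q (Matrix.single i j b) β ∈ L) →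
        ((S.mat ι).m (α + β) = 0 ∧ (S.mat ι).Q (Matrix.single i j b) (α + β) ∈ L) := by
      rintro α β ⟨h1, h2⟩ ⟨h3, h4⟩
      refine ⟨by rw [map_add, h1, h3, add_zero], ?_⟩
      rw [Q_add _ _ _ _ h1 h3]
      exact L.add_mem h2 h4
    have h0 : (S.mat ι).m 0 = 0 ∧ (S.mat ι).Q (Matrix.single i j b) 0 ∈ L :=
      ⟨map_zero _, by rw [Q_zero]; exact L.zero_mem⟩
    rw [Matrix.matrix_eq_sum_single α]
    refine (Finset.sum_induction _ (fun α => (S.mat ι).m α = 0 ∧ (S.mat ι).Q (Matrix.single i j b) α ∈ L) hp h0 ?_).2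
    intro k _
    refine Finset.sum_induction _ (fun α => (S.mat ι).m α = 0 ∧ (S.mat ι).Q (Matrix.single i j b) α ∈ L) hp h0 ?_
    intro l _
    refine ⟨?_, mat_cyc_aux S ι h _ _ _ _ _ _ (hm k l)⟩
    have : (S.mat ι).m (Matrix.single k l (α k l)) = Matrix.single k l (S.m (α k l)) := Matrix.map_single _ _ _ S.m
    rw [this, hm, Matrix.single_zero]
  intro x
  induction x using Matrix.induction_on' with
  | h_zero => intro α _; rw [zero_Q]; exact L.zero_mem
  | h_add p q hp hq => intro α hα; rw [add_Q _ _ _ _ hα]; exact L.add_mem (hp α hα) (hq α hα)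
  | h_std_basis i j b => exact h2 i j b

end Mat

end Pre

end Pool.Agent.Lib.MP8a3537.K2
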