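import Pool.Agent.Lib.MP_8a3537_gt.K2.E
import Pool.Agent.Lib.MP_8a3537_gt.K2.L0

/-!
# The invariant of a symmetric cocycle, as an invariant of `L_0^s(K[G])`
-/

namespace Pool.Agent.Lib.MP8a3537.K2

open Matrix MonoidAlgebra Pool.Agent.Lib.MP8a3537.D1

section

variable {K G : Type} [CommRing K] [Group G]

lemma t_eq_conj (x : MonoidAlgebra K G) : Base.t K G x = conj x := by
  induction x using MonoidAlgebra.induction_linear with
  | zero => rw [map_zero, conj_zero]
  | add x y hx hy => rw [map_add, conj_add, hx, hy]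
  | single g a => rw [Base.t_single, conj_single]

variable (c : SymC K G) (hK : ∀ x : K, x + x = 0) (hG : ∀ g : G, g * g = 1 → g = 1)
variable {κ μ : Type} [Fintype κ] [DecidableEq κ] [Fintype μ] [DecidableEq μ]

/-- the calculus on matrices -/
noncomputable abbrev MS (κ : Type) [Fintype κ] [DecidableEq κ] :
    Pre K (Matrix κ κ (MonoidAlgebra K G)) (Matrix κ κ (MonoidAlgebra K (G × G))) :=
  (Base.base c hK hG).mat κ

lemma MS_t (x : Matrix κ κ (MonoidAlgebra K G)) : (MS c hK hG κ).t x = dual x := by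
  ext1 i j
  exact t_eq_conj (x j i)

lemma MS_q (α : Matrix κ κ (MonoidAlgebra K (G × G))) :
    (MS c hK hG κ).q α = ∑ i, ∑ j, Base.J c (α i j) (α j i) := rfl

lemma MS_q_submatrix (σ : κ ≃ μ) (α : Matrix μ μ (MonoidAlgebra K (G × G))) :
    (MS c hK hG κ).q (α.submatrix σ σ) = (MS c hK hG μ).q α := by
  rw [MS_q, MS_q, ← Equiv.sum_comp σ]
  refine Finset.sum_congr rfl fun i _ => ?_
  rw [← Equiv.sum_comp σ]
  rfl

lemma MS_q_fromBlocks (α : Matrix κ κ (MonoidAlgebra K (G × G)))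
    (β : Matrix μ μ (MonoidAlgebra K (G × G))) :
    (MS c hK hG (κ ⊕ μ)).q (Matrix.fromBlocks α 0 0 β)
      = (MS c hK hG κ).q α + (MS c hK hG μ).q β := by
  rw [MS_q, MS_q, MS_q, Fintype.sum_sum_type]
  congr 1
  · refine Finset.sum_congr rfl fun i _ => ?_
    rw [Fintype.sum_sum_type]
    simp only [Matrix.fromBlocks_apply₁₁, Matrix.fromBlocks_apply₁₂, Matrix.fromBlocks_apply₂₁,
      Matrix.zero_apply, Base.J_zero, Finset.sum_const_zero, add_zero]
  · refine Finset.sum_congr rfl fun i _ => ?_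
    rw [Fintype.sum_sum_type]
    simp only [Matrix.fromBlocks_apply₂₂, Matrix.fromBlocks_apply₁₂, Matrix.fromBlocks_apply₂₁,
      Matrix.zero_apply, Base.J_zero, Finset.sum_const_zero, zero_add]

lemma MS_d_submatrix (σ : κ ≃ μ) (x : Matrix μ μ (MonoidAlgebra K G)) :
    (MS c hK hG κ).d (x.submatrix σ σ) = ((MS c hK hG μ).d x).submatrix σ σ := rfl

lemma MS_i1_submatrix (σ : κ ≃ μ) (x : Matrix μ μ (MonoidAlgebra K G)) :
    (MS c hK hG κ).i1 (x.submatrix σ σ) = ((MS c hK hG μ).i1 x).submatrix σ σ := rfl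

lemma MS_i1_fromBlocks (x : Matrix κ κ (MonoidAlgebra K G)) (y : Matrix μ μ (MonoidAlgebra K G)) :
    (MS c hK hG (κ ⊕ μ)).i1 (Matrix.fromBlocks x 0 0 y)
      = Matrix.fromBlocks ((MS c hK hG κ).i1 x) 0 0 ((MS c hK hG μ).i1 y) := by
  ext1 i j
  rcases i with i | i <;> rcases j with j | j
  · rfl
  · exact map_zero (Base.i1 K G)
  · exact map_zero (Base.i1 K G)
  · rfl

lemma MS_i2_fromBlocks (x : Matrix κ κ (MonoidAlgebra K G)) (y : Matrix μ μ (MonoidAlgebra K G)) :
    (MS c hK hG (κ ⊕ μ)).i2 (Matrix.fromBlocks x 0 0 y)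
      = Matrix.fromBlocks ((MS c hK hG κ).i2 x) 0 0 ((MS c hK hG μ).i2 y) := by
  ext1 i j
  rcases i with i | i <;> rcases j with j | j
  · rfl
  · exact map_zero (Base.i2 K G)
  · exact map_zero (Base.i2 K G)
  · rfl

lemma MS_d_fromBlocks (x : Matrix κ κ (MonoidAlgebra K G)) (y : Matrix μ μ (MonoidAlgebra K G)) :
    (MS c hK hG (κ ⊕ μ)).d (Matrix.fromBlocks x 0 0 y)
      = Matrix.fromBlocks ((MS c hK hG κ).d x) 0 0 ((MS c hK hG μ).d y) := by
  rw [Pre.d, MS_i1_fromBlocks, MS_i2_fromBlocks, Matrix.fromBlocks_add, add_zero, add_zero]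
  rfl

lemma MS_d_const (x : Matrix κ κ K) :
    (MS c hK hG κ).d (x.map (MonoidAlgebra.single (1 : G))) = 0 := by
  ext1 i j
  show Base.i2 K G (MonoidAlgebra.single 1 (x i j)) + Base.i1 K G (MonoidAlgebra.single 1 (x i j)) = 0
  rw [Base.i1_single, Base.i2_single]
  exact Base.add_self_of hK _

variable (L : AddSubgroup K) (hL : ∀ z : K, z ^ 2 + z ∈ L)

/-- matrices over `K` have the invariant zero -/
theorem MS_e_const (x : Matrix κ κ K) :
    (MS c hK hG κ).e L (x.map (MonoidAlgebra.single (1 : G))) = 0 := by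
  unfold Pre.e
  rw [MS_d_const, mul_zero, Pre.q_zero]
  rfl

/-- the invariant is additive on orthogonal sums -/
theorem MS_e_sum (ψ : Matrix κ κ (MonoidAlgebra K G)) (φ : Matrix μ μ (MonoidAlgebra K G))
    (hψ : IsUnit (ψ + dual ψ)) (hφ : IsUnit (φ + dual φ)) :
    (MS c hK hG (κ ⊕ μ)).e L (Matrix.fromBlocks ψ 0 0 φ)
      = (MS c hK hG κ).e L ψ + (MS c hK hG μ).e L φ := by
  obtain ⟨u, hu⟩ := hψ
  obtain ⟨v, hv⟩ := hφ
  have hs : Matrix.fromBlocks ψ 0 0 φ + (MS c hK hG (κ ⊕ μ)).t (Matrix.fromBlocks ψ 0 0 φ)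
      = Matrix.fromBlocks u.val 0 0 v.val := by
    rw [MS_t, dual_fromBlocks, dual_zero, dual_zero, Matrix.fromBlocks_add, add_zero, add_zero,
      hu, hv]
  rw [Pre.e_eq (S := MS c hK hG κ) (ψ := ψ) (μ := u⁻¹.val)
      (by rw [MS_t, ← hu, Units.inv_mul]) (by rw [MS_t, ← hu, Units.mul_inv]),
    Pre.e_eq (S := MS c hK hG μ) (ψ := φ) (μ := v⁻¹.val)
      (by rw [MS_t, ← hv, Units.inv_mul]) (by rw [MS_t, ← hv, Units.mul_inv]),
    Pre.e_eq (S := MS c hK hG (κ ⊕ μ)) (ψ := Matrix.fromBlocks ψ 0 0 φ)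
      (μ := Matrix.fromBlocks u⁻¹.val 0 0 v⁻¹.val)
      (by rw [hs, Matrix.fromBlocks_multiply]; simp)
      (by rw [hs, Matrix.fromBlocks_multiply]; simp),
    MS_i1_fromBlocks, MS_d_fromBlocks, Matrix.fromBlocks_multiply]
  simp only [Matrix.mul_zero, Matrix.zero_mul, add_zero, zero_add]
  rw [MS_q_fromBlocks]
  rfl

/-- the invariant does not depend on the numbering of the base -/
theorem MS_e_reindex (σ : κ ≃ μ) (ψ : Matrix μ μ (MonoidAlgebra K G))
    (hψ : IsUnit (ψ + dual ψ)) :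
    (MS c hK hG κ).e L (ψ.submatrix σ σ) = (MS c hK hG μ).e L ψ := by
  obtain ⟨u, hu⟩ := hψ
  have hs : ψ.submatrix σ σ + (MS c hK hG κ).t (ψ.submatrix σ σ) = u.val.submatrix σ σ := by
    rw [MS_t, dual_submatrix, hu]
    rfl
  rw [Pre.e_eq (S := MS c hK hG μ) (ψ := ψ) (μ := u⁻¹.val)
      (by rw [MS_t, ← hu, Units.inv_mul]) (by rw [MS_t, ← hu, Units.mul_inv]),
    Pre.e_eq (S := MS c hK hG κ) (ψ := ψ.submatrix σ σ) (μ := u⁻¹.val.submatrix σ σ)
      (by rw [hs, Matrix.submatrix_mul_equiv, Units.inv_mul, Matrix.submatrix_one_equiv])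
      (by rw [hs, Matrix.submatrix_mul_equiv, Units.mul_inv, Matrix.submatrix_one_equiv]),
    MS_i1_submatrix, MS_d_submatrix, Matrix.submatrix_mul_equiv, MS_q_submatrix]

/-! ### Simple matrices -/

include hK in
lemma inv_of_square {u : (Matrix κ κ (MonoidAlgebra K G))ˣ} {x : Matrix κ κ (MonoidAlgebra K G)}
    (hu : u.val = 1 + x) (hx : x * x = 0) : u⁻¹.val = 1 + x := by
  have h2 : x + x = 0 := by
    ext1 i j
    exact Base.add_self_of hK _
  have h1 : u.val * (1 + x) = 1 := by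
    rw [hu]
    have : (1 + x) * (1 + x) = 1 + (x + x) + x * x := by noncomm_ring
    rw [this, h2, hx, add_zero, add_zero]
  exact Units.inv_eq_of_mul_eq_one_right h1

lemma MS_i1_single (i j : κ) (a : MonoidAlgebra K G) :
    (MS c hK hG κ).i1 (Matrix.single i j a) = Matrix.single i j (Base.i1 K G a) :=
  Matrix.map_single _ _ _ (Base.i1 K G)

lemma MS_i2_single (i j : κ) (a : MonoidAlgebra K G) :
    (MS c hK hG κ).i2 (Matrix.single i j a) = Matrix.single i j (Base.i2 K G a) :=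
  Matrix.map_single _ _ _ (Base.i2 K G)

/-- the obstruction vanishes on elementary matrices -/
theorem MS_h_elem (u : (Matrix κ κ (MonoidAlgebra K G))ˣ) (i j : κ) (a : MonoidAlgebra K G)
    (hij : i ≠ j) (hu : u.val = 1 + Matrix.single i j a) : (MS c hK hG κ).h L u = 0 := by
  have h0 : Matrix.single i j a * Matrix.single i j a = 0 :=
    Matrix.single_mul_single_of_ne (h := Ne.symm hij) ..
  have h1 := inv_of_square hK hu h0
  have h2 : (MS c hK hG κ).d u.val
      = Matrix.single i j (Base.i2 K G a + Base.i1 K G a) := by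
    rw [hu, Pre.d_add, Pre.d_one', zero_add, Pre.d, MS_i1_single, MS_i2_single,
      Matrix.single_add]
  unfold Pre.h
  rw [h1, h2, map_add, map_one, MS_i2_single, mul_add, mul_one,
    Matrix.single_mul_single_of_ne (h := Ne.symm hij), add_zero]
  have h3 : (MS c hK hG κ).q (Matrix.single i j (Base.i2 K G a + Base.i1 K G a)) = 0 := by
    unfold Pre.q
    rw [Pre.mat_J_single, if_neg (fun h => hij h.1.symm)]
  rw [h3]
  rfl

/-- the obstruction vanishes on matrices over `K` -/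
theorem MS_h_const (u : (Matrix κ κ (MonoidAlgebra K G))ˣ) (x : Matrix κ κ K)
    (hu : u.val = x.map (MonoidAlgebra.single (1 : G))) : (MS c hK hG κ).h L u = 0 := by
  unfold Pre.h
  rw [hu, MS_d_const, zero_mul, Pre.q_zero]
  rfl

/-- the obstruction vanishes on diagonal matrices with entries in `G` -/
theorem MS_h_diag (u : (Matrix κ κ (MonoidAlgebra K G))ˣ) (g : κ → G)
    (hu : u.val = Matrix.diagonal (fun i => MonoidAlgebra.single (g i) (1 : K))) :
    (MS c hK hG κ).h L u = 0 := by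
  have h1 : u⁻¹.val = Matrix.diagonal (fun i => MonoidAlgebra.single (g i)⁻¹ (1 : K)) := by
    refine Units.inv_eq_of_mul_eq_one_right ?_
    rw [hu, Matrix.diagonal_mul_diagonal, ← Matrix.diagonal_one]
    congr 1
    funext i
    rw [MonoidAlgebra.single_mul_single, mul_inv_cancel, mul_one, MonoidAlgebra.one_def]
  have h2 : (MS c hK hG κ).d u.val = Matrix.diagonal
      (fun i => MonoidAlgebra.single ((1, g i) : G × G) (1 : K) + MonoidAlgebra.single (g i, 1) 1) := by
    rw [hu]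
    ext1 i j
    show Base.i2 K G (Matrix.diagonal _ i j) + Base.i1 K G (Matrix.diagonal _ i j) = _
    by_cases hij : i = j
    · subst hij
      rw [Matrix.diagonal_apply_eq, Matrix.diagonal_apply_eq, Base.i2_single, Base.i1_single]
    · rw [Matrix.diagonal_apply_ne _ hij, Matrix.diagonal_apply_ne _ hij, map_zero, map_zero,
        add_zero]
  have h3 : (MS c hK hG κ).i2 u⁻¹.val = Matrix.diagonal
      (fun i => MonoidAlgebra.single ((1, (g i)⁻¹) : G × G) (1 : K)) := by
    rw [h1]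
    ext1 i j
    show Base.i2 K G (Matrix.diagonal _ i j) = _
    by_cases hij : i = j
    · subst hij
      rw [Matrix.diagonal_apply_eq, Matrix.diagonal_apply_eq, Base.i2_single]
    · rw [Matrix.diagonal_apply_ne _ hij, Matrix.diagonal_apply_ne _ hij, map_zero]
  have h4 : (MS c hK hG κ).q (Matrix.diagonal
      (fun i => MonoidAlgebra.single ((g i, (g i)⁻¹) : G × G) (1 : K)
        + MonoidAlgebra.single (g i * (g i)⁻¹, 1) 1)) = 0 := by
    rw [MS_q]
    refine Finset.sum_eq_zero fun i _ => Finset.sum_eq_zero fun j _ => ?_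
    by_cases hij : i = j
    · subst hij
      rw [Matrix.diagonal_apply_eq]
      exact Base.q_gen hK hG (g i) (g i)⁻¹ 1
    · rw [Matrix.diagonal_apply_ne _ hij, Base.J_zero]
  unfold Pre.h
  rw [h2, h3, Matrix.diagonal_mul_diagonal]
  have h5 : (fun i => (MonoidAlgebra.single ((1, g i) : G × G) (1 : K)
        + MonoidAlgebra.single (g i, 1) 1) * MonoidAlgebra.single ((1, (g i)⁻¹) : G × G) (1 : K))
      = fun i => MonoidAlgebra.single ((g i, (g i)⁻¹) : G × G) (1 : K)
        + MonoidAlgebra.single (g i * (g i)⁻¹, 1) 1 := by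
    funext i
    rw [add_mul, MonoidAlgebra.single_mul_single, MonoidAlgebra.single_mul_single]
    simp only [Prod.mk_mul_mk, mul_one, one_mul, mul_inv_cancel]
    rw [add_comm]
  rw [h5, h4]
  rfl

include hL in
/-- the obstruction vanishes on simple matrices -/
theorem MS_h_simple (u : (Matrix κ κ (MonoidAlgebra K G))ˣ) (hu : u ∈ Simple K G κ) :
    (MS c hK hG κ).h L u = 0 := by
  have hcyc : (MS c hK hG κ).Cyc L := Pre.mat_cyc _ κ (Base.base_cyc c hK hG hL)
  refine Subgroup.closure_induction (p := fun u _ => (MS c hK hG κ).h L u = 0) ?_ ?_ ?_ ?_ hu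
  · rintro v (⟨i, j, a, hij, hv⟩ | ⟨x, hv⟩ | ⟨g, hv⟩)
    · exact MS_h_elem c hK hG L v i j a hij hv
    · exact MS_h_const c hK hG L v x hv
    · exact MS_h_diag c hK hG L v g hv
  · exact Pre.h_one
  · intro v w _ _ hv hw
    rw [Pre.h_mul hcyc, hv, hw, add_zero]
  · intro v _ hv
    rw [Pre.h_inv hcyc, hv]

end

section

variable {K G : Type} [CommRing K] [CharP K 2] [Group G]

lemma wp_mem (z : K) : z ^ 2 + z ∈ (wp K).range := ⟨z, by show z * z + z = _; rw [sq]⟩

/-- The invariant of a symmetric cocycle. -/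
noncomputable def inv2 (c : SymC K G) (hG : ∀ g : G, g * g = 1 → g = 1) : Invariant K G (AS K) where
  e κ _ _ ψ := (MS c CharTwo.add_self_eq_zero hG κ).e (wp K).range ψ
  h κ _ _ u := (MS c CharTwo.add_self_eq_zero hG κ).h (wp K).range u
  h_mul κ _ _ u v := Pre.h_mul (Pre.mat_cyc _ κ (Base.base_cyc c _ hG wp_mem)) u v
  h_simple κ _ _ u hu := MS_h_simple c _ hG _ wp_mem u hu
  reindex κ μ _ _ _ _ σ ψ hψ := MS_e_reindex c _ hG _ σ ψ hψ
  sum κ μ _ _ _ _ ψ φ hψ hφ := MS_e_sum c _ hG _ ψ φ hψ hφ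
  even κ _ _ ψ η hψ := by
    have := Pre.e_even (S := MS c CharTwo.add_self_eq_zero hG κ) (L := (wp K).range)
      (Pre.mat_cyc _ κ (Base.base_cyc c _ hG wp_mem)) (ψ := ψ) (by rw [MS_t]; exact hψ) η
    rwa [MS_t] at this
  base κ _ _ ψ u hψ := by
    have := Pre.e_congr (S := MS c CharTwo.add_self_eq_zero hG κ) (L := (wp K).range)
      (Pre.mat_cyc _ κ (Base.base_cyc c _ hG wp_mem)) (ψ := ψ) (by rw [MS_t]; exact hψ) u
    rw [MS_t] at this
    exact this
  const κ _ _ x := MS_e_const c _ hG _ x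

end

end Pool.Agent.Lib.MP8a3537.K2
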