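import Mathlib

/-!
# The calculus behind the degree two invariants (MP_8a3537_gt, folder K2)

Paper: /team-store/MP_8a3537_gt_K2.md, section 1.  `B` a ring with involution, `2 = 0`; `Ω` a `B`-bimodule with involution, `d : B → Ω` a derivation,
`I` the pairing, `q` its quadratic refinement.
-/

namespace Pool.Agent.Lib.MP8a3537.K2

/-- the calculus: axioms (A1) - (A6) of the paper -/
structure Sys (B Ω V : Type*) [Ring B] [AddCommGroup Ω] [AddCommGroup V] where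
  /-- left multiplication -/
  l : B → Ω → Ω
  /-- right multiplication -/
  r : Ω → B → Ω
  /-- the derivation -/
  d : B → Ω
  /-- the involution of `B` -/
  t : B → B
  /-- the involution of `Ω` -/
  s : Ω → Ω
  /-- the pairing -/
  I : Ω → Ω → V
  /-- its quadratic refinement -/
  q : Ω → V
  t_add : ∀ x y, t (x + y) = t x + t y
  t_mul : ∀ x y, t (x * y) = t y * t x
  t_t : ∀ x, t (t x) = x
  b2 : ∀ x : B, x + x = 0
  o2 : ∀ α : Ω, α + α = 0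
  v2 : ∀ v : V, v + v = 0
  l_add : ∀ x α β, l x (α + β) = l x α + l x β
  add_l : ∀ x y α, l (x + y) α = l x α + l y α
  l_mul : ∀ x y α, l (x * y) α = l x (l y α)
  l_one : ∀ α, l 1 α = α
  add_r : ∀ α β x, r (α + β) x = r α x + r β x
  r_add : ∀ α x y, r α (x + y) = r α x + r α y
  r_mul : ∀ α x y, r α (x * y) = r (r α x) y
  r_one : ∀ α, r α 1 = α
  l_r : ∀ x α y, l x (r α y) = r (l x α) y
  d_add : ∀ x y, d (x + y) = d x + d y
  d_mul : ∀ x y, d (x * y) = l x (d y) + r (d x) y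
  s_add : ∀ α β, s (α + β) = s α + s β
  s_s : ∀ α, s (s α) = α
  s_l : ∀ x α, s (l x α) = r (s α) (t x)
  s_r : ∀ α x, s (r α x) = l (t x) (s α)
  s_d : ∀ x, s (d x) = d (t x)
  I_add : ∀ α β γ, I (α + β) γ = I α γ + I β γ
  I_comm : ∀ α β, I α β = I β α
  I_bal : ∀ α x β, I (r α x) β = I α (l x β)
  I_s : ∀ α β, I (s α) (s β) = I α β
  I_dd : ∀ x y, I (d x) (d y) = 0
  q_add : ∀ α β, q (α + β) = q α + q β + I α β
  q_s : ∀ α, q (s α) = q α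
  q_cyc : ∀ x α, q (l x α) + q (r α x) = I (d x) α

namespace Sys

variable {B Ω V : Type*} [Ring B] [AddCommGroup Ω] [AddCommGroup V] (S : Sys B Ω V)

theorem add_I (α β γ : Ω) : S.I γ (α + β) = S.I γ α + S.I γ β := by
  rw [S.I_comm, S.I_add, S.I_comm α, S.I_comm β]

theorem I_bal' (x : B) (α β : Ω) : S.I (S.l x α) β = S.I α (S.r β x) := by
  rw [S.I_comm, ← S.I_bal, S.I_comm]

theorem t_one : S.t 1 = 1 := by
  have h : S.t (S.t 1 * 1) = S.t 1 * 1 := by rw [S.t_mul, S.t_t, mul_one]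
  rw [mul_one, S.t_t] at h
  exact h.symm

include S in
theorem veq {a b : V} (h : a + b = 0) : a = b := by
  have h2 := S.v2 b
  have : a + b = b + b := by rw [h, h2]
  exact add_right_cancel this

include S in
theorem oeq {a b : Ω} (h : a + b = 0) : a = b := by
  have h2 := S.o2 b
  have : a + b = b + b := by rw [h, h2]
  exact add_right_cancel this

include S in
theorem beq {a b : B} (h : a + b = 0) : a = b := by
  have h2 := S.b2 b
  have : a + b = b + b := by rw [h, h2]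
  exact add_right_cancel this

theorem d_zero : S.d 0 = 0 := by
  have := S.d_add 0 0
  simpa using this

theorem d_one : S.d 1 = 0 := by
  have := S.d_mul 1 1
  rw [S.l_one, S.r_one, one_mul] at this
  simpa using this

theorem l_zero (x : B) : S.l x 0 = 0 := by
  have := S.l_add x 0 0
  simpa using this

theorem zero_r (x : B) : S.r 0 x = 0 := by
  have := S.add_r 0 0 x
  simpa using this

theorem I_zero (α : Ω) : S.I 0 α = 0 := by
  have := S.I_add 0 0 α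
  simpa using this

theorem q_zero : S.q 0 = 0 := by
  have := S.q_add 0 0
  rw [S.I_zero] at this
  simpa using this

/-- the derivation of an inverse -/
theorem d_inv {x y : B} (h1 : x * y = 1) (h2 : y * x = 1) : S.d y = S.l y (S.r (S.d x) y) := by
  have h := S.d_mul x y
  rw [h1, S.d_one] at h
  have h3 : S.l x (S.d y) = S.r (S.d x) y := S.oeq h.symm
  calc S.d y = S.l (y * x) (S.d y) := by rw [h2, S.l_one]
    _ = S.l y (S.r (S.d x) y) := by rw [S.l_mul, h3]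

/-- two sided invariance -/
theorem I_two (x y : B) (α β : Ω) : S.I (S.l x (S.r α y)) β = S.I α (S.l y (S.r β x)) := by
  rw [S.l_r, S.I_bal, S.I_bal', ← S.l_r]

section
variable {ψ μ : B}

/-- `ν = μ ψ μ` satisfies `ν + ν^* = μ` -/
theorem nu_add (hμ : μ * (ψ + S.t ψ) = 1) (hs : S.t μ = μ) : μ * ψ * μ + S.t (μ * ψ * μ) = μ := by
  have : S.t (μ * ψ * μ) = μ * S.t ψ * μ := by
    rw [S.t_mul, S.t_mul, hs, mul_assoc]
  rw [this, ← add_mul, ← mul_add, hμ, one_mul]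

theorem t_mu (hμ : μ * (ψ + S.t ψ) = 1) : S.t μ = μ := by
  have h1 : S.t (ψ + S.t ψ) = ψ + S.t ψ := by rw [S.t_add, S.t_t, add_comm]
  have h2 : (ψ + S.t ψ) * S.t μ = 1 := by
    have := congrArg S.t hμ
    rwa [S.t_mul, h1, S.t_one] at this
  calc S.t μ = 1 * S.t μ := by rw [one_mul]
    _ = μ * ((ψ + S.t ψ) * S.t μ) := by rw [← hμ, mul_assoc]
    _ = μ := by rw [h2, mul_one]

theorem ev1 (hs : S.t μ = μ) (τ : B) (α : Ω) : S.I (S.l μ (S.s α)) (S.l (S.t τ) α) = S.I (S.l μ (S.s α)) (S.l τ α) := by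
  rw [← S.I_s (S.l μ (S.s α)) (S.l (S.t τ) α), S.s_l, S.s_l, S.s_s, hs, S.t_t, ← S.I_bal', S.l_r, S.I_bal, S.I_comm]

/-- (EV): `⟨μ α^*, (τ + τ^*) α⟩ = 0` -/
theorem ev (hs : S.t μ = μ) (τ : B) (α : Ω) : S.I (S.l μ (S.s α)) (S.l (τ + S.t τ) α) = 0 := by
  rw [S.add_l, S.add_I, S.ev1 hs]
  exact S.v2 _

/-- even changes: (b) of the paper -/
theorem e_even (hμ : μ * (ψ + S.t ψ) = 1) (hμ' : (ψ + S.t ψ) * μ = 1) (η : B) :
    S.q (S.l μ (S.d (ψ + (η + S.t η)))) = S.q (S.l μ (S.d ψ)) := by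
  have hs := S.t_mu hμ
  have h1 : S.q (S.l μ (S.d (S.t η))) = S.q (S.r (S.d η) μ) := by
    rw [← S.q_s, S.s_l, S.s_d, S.t_t, hs]
  have h2 : S.q (S.l μ (S.d η)) + S.q (S.r (S.d η) μ) = 0 := by rw [S.q_cyc, S.I_dd]
  have h3 : S.I (S.l μ (S.d η)) (S.l μ (S.d (S.t η))) = 0 := by
    have := S.ev hs (μ * ψ * μ) (S.d η)
    rw [S.nu_add hμ hs, S.s_d, S.I_comm] at this
    exact this
  have h4 : S.I (S.l μ (S.d ψ)) (S.l μ (S.d (S.t η))) = S.I (S.l μ (S.d (S.t ψ))) (S.l μ (S.d η)) := by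
    rw [← S.I_s, S.s_l, S.s_l, S.s_d, S.s_d, S.t_t, hs, ← S.I_bal', S.l_r, S.I_bal]
  have h5 : S.I (S.l μ (S.d ψ)) (S.l μ (S.d η)) + S.I (S.l μ (S.d (S.t ψ))) (S.l μ (S.d η)) = 0 := by
    rw [← S.I_add, ← S.l_add, ← S.d_add, ← S.I_bal, ← S.l_r, ← S.d_inv hμ' hμ, S.I_dd]
  rw [S.d_add, S.d_add, S.l_add, S.l_add, S.q_add, S.q_add, S.add_I, h1, h2, h3, h4, h5]
  abel

end

section
variable {P Q R T : B}

/-- `q (dP P⁻¹)` is multiplicative -/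
theorem h_mul (hP' : Q * P = 1) (hR : R * T = 1) :
    S.q (S.r (S.d (P * R)) (T * Q)) = S.q (S.r (S.d P) Q) + S.q (S.r (S.d R) T) := by
  have h1 : S.r (S.d (P * R)) (T * Q) = S.r (S.d P) Q + S.l P (S.r (S.r (S.d R) T) Q) := by
    rw [S.d_mul, S.add_r, add_comm, ← S.r_mul, ← mul_assoc, hR, one_mul, S.l_r, S.r_mul, S.l_r]
  have h2 := S.q_cyc P (S.r (S.r (S.d R) T) Q)
  rw [← S.r_mul _ Q P, hP', S.r_one] at h2
  have h3 : S.I (S.r (S.d P) Q) (S.l P (S.r (S.r (S.d R) T) Q)) = S.I (S.d P) (S.r (S.r (S.d R) T) Q) := by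
    rw [S.I_bal, ← S.l_mul, hP', S.l_one]
  rw [h1, S.q_add, h3, ← h2]
  have h4 := S.v2 (S.q (S.l P (S.r (S.r (S.d R) T) Q)))
  linear_combination (norm := abel) h4

end

section
variable {ψ μ P Q : B}

/-- congruences: (c) of the paper -/
theorem e_congr (hμ : μ * (ψ + S.t ψ) = 1) (hμ' : (ψ + S.t ψ) * μ = 1) (hP : P * Q = 1) (hP' : Q * P = 1) :
    S.q (S.l (Q * μ * S.t Q) (S.d (S.t P * ψ * P))) = S.q (S.l μ (S.d ψ)) + S.q (S.r (S.d P) Q) := by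
  have hs := S.t_mu hμ
  set p : Ω := S.r (S.d P) Q with hp
  have hsp : S.s p = S.l (S.t Q) (S.d (S.t P)) := by rw [hp, S.s_r, S.s_d]
  have hQP : S.t Q * S.t P = 1 := by rw [← S.t_mul, hP, S.t_one]
  have hdP : S.d P = S.r p P := by rw [hp, ← S.r_mul, hP', S.r_one]
  -- the form `b`
  set b : Ω := S.r (S.l μ (S.s p)) ψ + S.l μ (S.d ψ) + S.l (μ * ψ) p with hb
  have h1 : S.l (Q * μ * S.t Q) (S.d (S.t P * ψ * P)) = S.l Q (S.r b P) := by
    rw [S.d_mul, S.d_mul, hdP, S.add_r, hb, S.add_r, S.add_r, S.l_add, S.l_add, S.l_add, S.l_add, hsp]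
    have e1 : S.l (Q * μ * S.t Q) (S.l (S.t P * ψ) (S.r p P)) = S.l Q (S.r (S.l (μ * ψ) p) P) := by
      rw [← S.l_mul, ← S.l_r, ← S.l_mul]
      congr 1
      calc Q * μ * S.t Q * (S.t P * ψ) = Q * μ * (S.t Q * S.t P) * ψ := by noncomm_ring
        _ = Q * (μ * ψ) := by rw [hQP]; noncomm_ring
    have e2 : S.l (Q * μ * S.t Q) (S.r (S.l (S.t P) (S.d ψ)) P) = S.l Q (S.r (S.l μ (S.d ψ)) P) := by
      rw [← S.l_r, ← S.l_mul, ← S.l_r, ← S.l_mul]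
      congr 1
      rw [mul_assoc, hQP, mul_one]
    have e3 : S.l (Q * μ * S.t Q) (S.r (S.r (S.d (S.t P)) ψ) P) = S.l Q (S.r (S.r (S.l μ (S.l (S.t Q) (S.d (S.t P)))) ψ) P) := by
      rw [S.l_r, S.l_r, S.l_r, S.l_r, ← S.l_mul, ← S.l_mul]
    rw [e1, e2, e3]
    abel
  have h2 : S.q (S.l Q (S.r b P)) = S.q b + S.I p b := by
    have := S.q_cyc Q (S.r b P)
    rw [← S.r_mul, hP, S.r_one, S.d_inv hP hP', S.I_two, ← S.r_mul, hP, S.r_one, ← S.I_bal, ← hp] at this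
    have h4 := S.v2 (S.q b)
    linear_combination (norm := abel) this - h4
  -- the terms
  have hE : μ * S.t ψ = 1 + μ * ψ := S.beq (by
    have : μ * S.t ψ + (1 + μ * ψ) = μ * (ψ + S.t ψ) + 1 := by noncomm_ring
    rw [this, hμ]; exact S.b2 1)
  have t1 : S.q (S.r (S.l μ (S.s p)) ψ) = S.q p + S.q (S.l (μ * ψ) p) + S.I p (S.l (μ * ψ) p) + S.I (S.d μ) (S.l (S.t ψ) p) := by
    have e1 : S.q (S.r (S.l μ (S.s p)) ψ) = S.q (S.r (S.l (S.t ψ) p) μ) := by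
      rw [← S.q_s, S.s_r, S.s_l, S.s_s, hs, S.l_r]
    have e2 := S.q_cyc μ (S.l (S.t ψ) p)
    have e3 : S.q (S.l μ (S.l (S.t ψ) p)) = S.q p + S.q (S.l (μ * ψ) p) + S.I p (S.l (μ * ψ) p) := by
      rw [← S.l_mul, hE, S.add_l, S.l_one, S.q_add]
    rw [e1, ← e2, e3]
    have h4 := S.v2 (S.q p + S.q (S.l (μ * ψ) p) + S.I p (S.l (μ * ψ) p))
    linear_combination (norm := abel) -h4
  have t2 : S.I (S.d μ) (S.l (S.t ψ) p) = S.I (S.l μ (S.d ψ)) p + S.I (S.l μ (S.d ψ)) (S.l (μ * ψ) p) +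
      (S.I (S.l μ (S.d (S.t ψ))) p + S.I (S.l μ (S.d (S.t ψ))) (S.l (μ * ψ) p)) := by
    rw [S.d_inv hμ' hμ, S.l_r, S.I_bal, ← S.l_mul, hE, S.add_l, S.l_one, S.add_I, S.d_add, S.l_add, S.I_add, S.I_add]
    abel
  have t3 : S.I (S.r (S.l μ (S.s p)) ψ) (S.l μ (S.d ψ)) = S.I (S.l μ (S.d (S.t ψ))) p + S.I (S.l μ (S.d (S.t ψ))) (S.l (μ * ψ) p) := by
    rw [← S.I_s, S.s_r, S.s_l, S.s_l, S.s_s, S.s_d, hs, S.I_two, S.I_comm, ← S.r_mul, hE, S.r_add, S.r_one, S.l_add, S.I_add, S.l_r, S.I_bal]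
  have t4 : S.I (S.r (S.l μ (S.s p)) ψ) p + S.I (S.r (S.l μ (S.s p)) ψ) (S.l (μ * ψ) p) = 0 := by
    have e1 : ψ + ψ * (μ * ψ) = ψ * (μ * ψ * μ) * S.t ψ + S.t (ψ * (μ * ψ * μ) * S.t ψ) := by
      have e2 : ψ * (μ * ψ * μ) * S.t ψ + S.t (ψ * (μ * ψ * μ) * S.t ψ) = ψ * (μ * ψ * μ + S.t (μ * ψ * μ)) * S.t ψ := by
        rw [S.t_mul, S.t_mul, S.t_t]; noncomm_ring
      rw [e2, S.nu_add hμ hs, mul_assoc, hE]; noncomm_ring
    rw [S.I_bal, S.I_bal, ← S.l_mul, ← S.add_I, ← S.add_l, e1]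
    exact S.ev hs _ _
  rw [h1, h2, hb, S.q_add, S.q_add, S.I_add, t1, t2, t3, S.add_I, S.add_I, S.I_comm p (S.l μ (S.d ψ)), S.I_comm p (S.r (S.l μ (S.s p)) ψ)]
  linear_combination (norm := abel) t4 + S.v2 (S.q (S.l (μ * ψ) p)) + S.v2 (S.I p (S.l (μ * ψ) p)) + S.v2 (S.I (S.l μ (S.d ψ)) p) +
    S.v2 (S.I (S.l μ (S.d ψ)) (S.l (μ * ψ) p)) + S.v2 (S.I (S.l μ (S.d (S.t ψ))) p) + S.v2 (S.I (S.l μ (S.d (S.t ψ))) (S.l (μ * ψ) p))

end

end Sys

end Pool.Agent.Lib.MP8a3537.K2
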