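import Pool.Agent.Lib.MP_8a3537_gt.K2.Blocks

/-!
# The value `<F, dN>` (MP_8a3537_gt, folder K2, section 4 of the paper)
-/

namespace Pool.Agent.Lib.MP8a3537.K2

namespace Pre

open Matrix

variable {K B T : Type*} [CommRing K] [Ring B] [Algebra K B] [Ring T] [Algebra K T] (S : Pre K B T)

theorem d_sum {κ : Type*} (u : Finset κ) (f : κ → B) : S.d (∑ k ∈ u, f k) = ∑ k ∈ u, S.d (f k) :=
  map_sum (AddMonoidHom.mk' S.d S.d_add) f u

variable {ι : Type*} [Fintype ι] [DecidableEq ι]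

/-- data of a chain complex with one cell in dimensions zero and two -/
structure Cell (S : Pre K B T) (Φ Ψ : Matrix ι ι B) (δ ρ : ι → B) : Prop where
  phi_psi : Φ * Ψ = 1
  psi_phi : Ψ * Φ = 1
  add_t : ∀ i j, Φ i j + S.t (Φ j i) = S.t (δ i) * δ j
  phi_rho : ∀ k, ∑ j, Φ k j * ρ j = S.t (δ k)
  rho_phi : ∀ j, ∑ k, S.t (ρ k) * Φ k j = δ j
  del_rho : ∑ k, δ k * ρ k = 0

variable {S} {Φ Ψ : Matrix ι ι B} {δ ρ : ι → B} (C : S.Cell Φ Ψ δ ρ)

include C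

theorem Cell.del_psi (k : ι) : ∑ i, δ i * Ψ i k = S.t (ρ k) := by
  have h1 : ∀ i, δ i * Ψ i k = ∑ j, S.t (ρ j) * (Φ j i * Ψ i k) := by
    intro i
    rw [← C.rho_phi i, Finset.sum_mul]
    exact Finset.sum_congr rfl fun j _ => mul_assoc _ _ _
  rw [Finset.sum_congr rfl fun i _ => h1 i, Finset.sum_comm]
  have h2 : ∀ j, ∑ i, S.t (ρ j) * (Φ j i * Ψ i k) = if j = k then S.t (ρ j) else 0 := by
    intro j
    have h3 : ∑ i, Φ j i * Ψ i k = (1 : Matrix ι ι B) j k := by rw [← C.phi_psi, Matrix.mul_apply]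
    rw [← Finset.mul_sum, h3, Matrix.one_apply]
    split_ifs <;> simp
  rw [Finset.sum_congr rfl fun j _ => h2 j, Finset.sum_ite_eq' Finset.univ k]
  simp

theorem Cell.mul_N : Φ * (Matrix.of fun i j => ρ i * δ j) = Matrix.of fun i j => S.t (δ i) * δ j := by
  ext i j
  rw [Matrix.mul_apply, Matrix.of_apply, ← C.phi_rho, Finset.sum_mul]
  exact Finset.sum_congr rfl fun k _ => by rw [Matrix.of_apply, mul_assoc]

theorem Cell.t_phi : (S.mat ι).t Φ = Φ * (1 + (Matrix.of fun i j => ρ i * δ j)) := by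
  rw [mul_add, mul_one, C.mul_N]
  ext i j
  rw [mat_t_apply, Matrix.add_apply, Matrix.of_apply, ← C.add_t, ← add_assoc, S.b2, zero_add]

theorem Cell.NN : (Matrix.of fun i j => ρ i * δ j) * (Matrix.of fun i j => ρ i * δ j) = 0 := by
  ext i j
  rw [Matrix.mul_apply, Matrix.zero_apply]
  have : ∀ k, (Matrix.of fun i j => ρ i * δ j) i k * (Matrix.of fun i j => ρ i * δ j) k j = ρ i * (δ k * ρ k) * δ j := by
    intro k; simp only [Matrix.of_apply, mul_assoc]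
  rw [Finset.sum_congr rfl fun k _ => this k, ← Finset.sum_mul, ← Finset.mul_sum, C.del_rho, mul_zero, zero_mul]

/-- the value `<F, dN>` -/
theorem Cell.value : (S.mat ι).I ((S.mat ι).i1 Ψ * (S.mat ι).d Φ) ((S.mat ι).d (Matrix.of fun i j => ρ i * δ j)) =
    ∑ i, ∑ k, S.I (S.d (δ i) * S.i2 (Ψ i k)) (S.d (S.t (δ k))) +
    ∑ k, ∑ j, S.I (S.d (S.t (ρ k)) * S.i2 (Φ k j)) (S.d (ρ j)) := by
  set F := (S.mat ι).i1 Ψ * (S.mat ι).d Φ with hF
  have hFm : ∀ i j, S.m (F i j) = 0 := fun i j => by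
    have : (S.mat ι).m F = 0 := (S.mat ι).m_l' _ ((S.mat ι).m_d _)
    exact congrFun (congrFun this i) j
  have hFij : ∀ i j, F i j = ∑ k, S.i1 (Ψ i k) * S.d (Φ k j) := fun i j => Matrix.mul_apply
  -- rows
  have h1 : ∀ k, ∑ j, S.d (Φ k j) * S.i2 (ρ j) = S.d (S.t (δ k)) + ∑ j, S.i1 (Φ k j) * S.d (ρ j) := by
    intro k
    rw [← C.phi_rho, S.d_sum]
    simp only [S.d_mul, Finset.sum_add_distrib]
    have := S.t2 (∑ j, S.i1 (Φ k j) * S.d (ρ j))
    linear_combination (norm := abel) -this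
  have h2 : ∀ i, ∑ j, F i j * S.i2 (ρ j) = ∑ k, S.i1 (Ψ i k) * S.d (S.t (δ k)) + S.d (ρ i) := by
    intro i
    have e1 : ∀ j, F i j * S.i2 (ρ j) = ∑ k, S.i1 (Ψ i k) * (S.d (Φ k j) * S.i2 (ρ j)) := by
      intro j
      rw [hFij, Finset.sum_mul]
      exact Finset.sum_congr rfl fun k _ => mul_assoc _ _ _
    rw [Finset.sum_congr rfl fun j _ => e1 j, Finset.sum_comm]
    simp only [← Finset.mul_sum, h1, mul_add, Finset.sum_add_distrib]
    congr 1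
    have e2 : ∀ k, S.i1 (Ψ i k) * ∑ j, S.i1 (Φ k j) * S.d (ρ j) = ∑ j, S.i1 (Ψ i k * Φ k j) * S.d (ρ j) := by
      intro k
      rw [Finset.mul_sum]
      exact Finset.sum_congr rfl fun j _ => by rw [map_mul, mul_assoc]
    rw [Finset.sum_congr rfl fun k _ => e2 k, Finset.sum_comm]
    have e3 : ∀ j, ∑ k, S.i1 (Ψ i k * Φ k j) * S.d (ρ j) = if i = j then S.d (ρ j) else 0 := by
      intro j
      have h3 : ∑ k, Ψ i k * Φ k j = (1 : Matrix ι ι B) i j := by rw [← C.psi_phi, Matrix.mul_apply]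
      rw [← Finset.sum_mul, ← map_sum, h3, Matrix.one_apply]
      split_ifs <;> simp
    rw [Finset.sum_congr rfl fun j _ => e3 j, Finset.sum_ite_eq]
    simp
  -- columns
  have h4 : ∀ j, ∑ k, S.i1 (S.t (ρ k)) * S.d (Φ k j) = S.d (δ j) + ∑ k, S.d (S.t (ρ k)) * S.i2 (Φ k j) := by
    intro j
    rw [← C.rho_phi, S.d_sum]
    simp only [S.d_mul, Finset.sum_add_distrib]
    have := S.t2 (∑ k, S.d (S.t (ρ k)) * S.i2 (Φ k j))
    linear_combination (norm := abel) -this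
  have h5 : ∀ j, ∑ i, S.i1 (δ i) * F i j = S.d (δ j) + ∑ k, S.d (S.t (ρ k)) * S.i2 (Φ k j) := by
    intro j
    have e1 : ∀ i, S.i1 (δ i) * F i j = ∑ k, S.i1 (δ i * Ψ i k) * S.d (Φ k j) := by
      intro i
      rw [hFij, Finset.mul_sum]
      exact Finset.sum_congr rfl fun k _ => by rw [map_mul, mul_assoc]
    rw [Finset.sum_congr rfl fun i _ => e1 i, Finset.sum_comm, ← h4]
    refine Finset.sum_congr rfl fun k _ => ?_
    rw [← Finset.sum_mul, ← map_sum, C.del_psi]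
  rw [mat_I]
  have h6 : ∀ i j, S.I (F i j) ((S.mat ι).d (Matrix.of fun i j => ρ i * δ j) j i) =
      S.I (F i j * S.i2 (ρ j)) (S.d (δ i)) + S.I (S.i1 (δ i) * F i j) (S.d (ρ j)) := by
    intro i j
    rw [mat_d_apply, Matrix.of_apply, S.d_mul, S.add_I, S.I_bal _ _ _ (hFm i j), S.I_bal' _ _ _ (S.m_d _)]
  simp only [h6, Finset.sum_add_distrib]
  congr 1
  · refine Finset.sum_congr rfl fun i _ => ?_
    rw [← S.I_sum, h2, S.I_add]
    have : S.I (S.d (ρ i)) (S.d (δ i)) = 0 := S.I_dd _ _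
    rw [this, add_zero, S.I_sum]
    refine Finset.sum_congr rfl fun k _ => ?_
    rw [S.I_bal' _ _ _ (S.m_d _), S.I_comm]
  · rw [Finset.sum_comm, Finset.sum_comm (f := fun k j => S.I (S.d (S.t (ρ k)) * S.i2 (Φ k j)) (S.d (ρ j)))]
    refine Finset.sum_congr rfl fun j _ => ?_
    rw [← S.I_sum, h5, S.I_add]
    have : S.I (S.d (δ j)) (S.d (ρ j)) = 0 := S.I_dd _ _
    rw [this, zero_add, S.I_sum]

/-- the value of `e` on `Φ ⊗ (a 1; 0 b)` -/
theorem Cell.e_value (L : AddSubgroup K) (a b : K) :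
    (S.mat (ι ⊕ ι)).e L (fromBlocks (a • Φ) Φ 0 (b • Φ)) =
      QuotientAddGroup.mk ((S.mat ι).q ((S.mat ι).i1 Ψ * (S.mat ι).d Φ) +
        a * b * (∑ i, ∑ k, S.I (S.d (δ i) * S.i2 (Ψ i k)) (S.d (S.t (δ k))) +
          ∑ k, ∑ j, S.I (S.d (S.t (ρ k)) * S.i2 (Φ k j)) (S.d (ρ j)))) := by
  rw [e_tensor S L C.phi_psi C.psi_phi C.t_phi C.NN, C.value]

end Pre

end Pool.Agent.Lib.MP8a3537.K2
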