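import Pool.Agent.Lib.MP_8a3537_gt.K2.Poly
import Pool.Agent.Lib.MP_8a3537_gt.K2.Final

/-!
# The value on `Φ_x ⊗ (a 1; 0 b)` (MP_8a3537_gt, folder K2)
-/

namespace Pool.Agent.Lib.MP8a3537.K2

open Matrix Finset Pool.Agent.Lib.MP8a3537.D1

section

variable {K G : Type} [CommRing K] [CharP K 2] [Group G] (c : SymC K G)

/-- the homogeneous form of `c` -/
def hom (x y z : G) : K := c.w (x⁻¹ * y) (y⁻¹ * z)

variable {c}

theorem w_swap1 (g h : G) : c.w g⁻¹ (g * h) = c.w g h := by
  have h1 := c.cocyc g⁻¹ g h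
  have h2 := c.w_inv g⁻¹
  rw [inv_inv] at h2
  rw [inv_mul_cancel, c.one_w, h2] at h1
  have h3 := CharTwo.add_self_eq_zero (c.w g h)
  linear_combination h1 - h3

theorem w_swap2 (g h : G) : c.w (g * h) h⁻¹ = c.w g h := by
  have h1 := c.cocyc g h h⁻¹
  rw [c.w_inv, mul_inv_cancel, c.w_one] at h1
  have h3 := CharTwo.add_self_eq_zero (c.w g h)
  linear_combination h1 - h3

/-- **the value of the invariants** -/
theorem hasValues (hG : ∀ g : G, g * g = 1 → g = 1) : HasValues K G hG := by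
  intro c x h hx a b
  have hc : ∀ g h, c.w g h = hom c 1 g (g * h) := by
    intro g h; unfold hom; congr 1 <;> group
  have winv : ∀ g x y z, hom c (g * x) (g * y) (g * z) = hom c x y z := by
    intro g x y z; unfold hom; congr 1 <;> group
  have w1 : ∀ x y z, hom c y x z = hom c x y z := by
    intro x y z
    unfold hom
    rw [← w_swap1 (x⁻¹ * y) (y⁻¹ * z)]
    congr 1 <;> group
  have w2 : ∀ x y z, hom c x z y = hom c x y z := by
    intro x y z
    unfold hom
    rw [← w_swap2 (x⁻¹ * y) (y⁻¹ * z)]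
    congr 1 <;> group
  have w0 : ∀ x y, hom c x x y = 0 := by
    intro x y; unfold hom; rw [inv_mul_cancel, c.one_w]
  have wc : ∀ x y z t, hom c y z t + hom c x z t + hom c x y t + hom c x y z = 0 := by
    intro x y z t
    unfold hom
    have h1 := c.cocyc (x⁻¹ * y) (y⁻¹ * z) (z⁻¹ * t)
    have e1 : x⁻¹ * y * (y⁻¹ * z) = x⁻¹ * z := by group
    have e2 : y⁻¹ * z * (z⁻¹ * t) = y⁻¹ * t := by group
    rw [e1, e2] at h1
    exact h1
  have h1 := e_Phi (CharTwo.add_self_eq_zero (R := K)) hG c (hom c) hc winv w1 w2 w0 wc x h hx (wp K).range a b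
  refine Eq.trans h1 ?_
  have h2 : ∑ i ∈ range h, (hom c 1 (bd x i) (bd x i * x i) + hom c 1 (bd x i * x i) (bd x (i + 1))) =
      ∑ i ∈ range h, (c.w (bd x i) (x i) + c.w (bd x i * x i) (x i)) := by
    refine Finset.sum_congr rfl fun i _ => ?_
    rw [hc (bd x i) (x i), hc (bd x i * x i) (x i)]
    have : bd x (i + 1) = bd x i * x i * x i := by rw [mul_assoc]; rfl
    rw [this]
  rw [h2, mul_comm]
  rfl

end

end Pool.Agent.Lib.MP8a3537.K2
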